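import Pool.Agent.Q87.BS.Step

set_option autoImplicit false

/-! # Project BS: reading one letter -/

namespace Pool.Agent.Q87.BS

open Finset

lemma q_le_of_mod (h : S_sig) (b : ℕ → ZMod 2) (p : ℕ) (hp : p % 3 ≠ 0) : q b p ≤ 2 ^ 80 := by
  have hc := c_lt h b (p / 3)
  unfold q
  rw [if_neg hp]
  split_ifs
  · exact Nat.pow_le_pow_right (by norm_num) (by omega)
  · exact Nat.pow_le_pow_right (by norm_num) (by omega)

theorem base (h : S_sig) : S_base := by
  intro b n w hw p hp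
  have hL : L 0 = 1 := rfl
  rw [hL] at hp ⊢
  have h0 := hw 0 (by norm_num)
  have h1 := hw 1 (by norm_num)
  have h2 := hw 2 (by norm_num)
  rw [add_zero, q_zero] at h0
  rw [q_one] at h1
  rw [q_two] at h2
  have hw0 : 2 ^ 80 ≤ w 0 := by
    have : (2 : ℕ) ^ 90 = 2 ^ 10 * 2 ^ 80 := by norm_num
    rw [this] at h0
    exact Nat.le_of_mul_le_mul_left h0 (by norm_num)
  have hp0 := hp 0 (by norm_num)
  rw [add_zero] at hp0
  have hmod : p % 3 = 0 := by
    by_contra hne
    have := q_le_of_mod h b p hne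
    omega
  obtain ⟨m, rfl⟩ := Nat.dvd_of_mod_eq_zero hmod
  have hp1 := hp 1 (by norm_num)
  have hp2 := hp 2 (by norm_num)
  rw [q_one] at hp1
  rw [q_two] at hp2
  have hcm := c_lt h b m
  have hcn := c_lt h b n
  have hc1 : c b n < c b m + 1 := by
    have e : (2 : ℕ) ^ (10 * (c b n + 1)) = 2 ^ 10 * 2 ^ (10 * c b n) := by
      rw [← pow_add]; congr 1; ring
    rw [e] at h1
    have h3 := Nat.le_of_mul_le_mul_left h1 (by norm_num)
    have h4 : (2 : ℕ) ^ (10 * c b n) < 2 ^ (10 * (c b m + 1)) := lt_of_le_of_lt h3 hp1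
    have h5 := (Nat.pow_lt_pow_iff_right (by norm_num : 1 < 2)).mp h4
    omega
  have hc2 : 7 - c b n < 8 - c b m := by
    have e : (2 : ℕ) ^ (10 * (8 - c b n)) = 2 ^ 10 * 2 ^ (10 * (7 - c b n)) := by
      rw [← pow_add]; congr 1; omega
    rw [e] at h2
    have h3 := Nat.le_of_mul_le_mul_left h2 (by norm_num)
    have h4 : (2 : ℕ) ^ (10 * (7 - c b n)) < 2 ^ (10 * (8 - c b m)) := lt_of_le_of_lt h3 hp2
    have h5 := (Nat.pow_lt_pow_iff_right (by norm_num : 1 < 2)).mp h4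
    omega
  have hcc : c b m = c b n := by omega
  refine ⟨⟨m, by ring⟩, ?_⟩
  intro i hi
  rw [mul_one]
  exact q_eq_of_c hcc i (by omega)

end Pool.Agent.Q87.BS
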