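import Pool.Agent.Q87.BS.Joint

set_option autoImplicit false

/-! # Project BS: bridge to the sets of numbers -/

namespace Pool.Agent.Q87.BS

open Finset Filter Topology

lemma cnt_succ (A : ℕ → Prop) (n : ℕ) : cnt A n ≤ cnt A (n + 1) ∧ cnt A (n + 1) ≤ cnt A n + 1 := by
  classical
  unfold cnt
  have h : Icc 1 (n + 1) = insert (n + 1) (Icc 1 n) := by
    ext j
    rw [Finset.mem_insert, Finset.mem_Icc, Finset.mem_Icc]
    omega
  rw [h, Finset.filter_insert]
  split_ifs
  · have h1 := Finset.card_insert_le (n + 1) ((Icc 1 n).filter A)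
    have h2 := Finset.card_le_card (Finset.subset_insert (n + 1) ((Icc 1 n).filter A))
    exact ⟨h2, h1⟩
  · exact ⟨le_refl _, Nat.le_succ _⟩

/-- A shift of the count by one place does not matter. -/
lemma tendsto_of_succ (A : ℕ → Prop) (S : ℕ → ℝ) (hS : Tendsto S atTop atTop)
    (h : Tendsto (fun n => (cnt A (n + 1) : ℝ) / S n) atTop (𝓝 1)) :
    Tendsto (fun n => (cnt A n : ℝ) / S n) atTop (𝓝 1) := by
  have h0 : Tendsto (fun n => (1 : ℝ) / S n) atTop (𝓝 0) :=
    hS.const_div_atTop 1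
  have h1 : Tendsto (fun n => (cnt A (n + 1) : ℝ) / S n - 1 / S n) atTop (𝓝 1) := by
    simpa using h.sub h0
  refine tendsto_of_tendsto_of_tendsto_of_le_of_le' h1 h ?_ ?_
  · filter_upwards [hS.eventually_gt_atTop 0] with n hn
    rw [← sub_div]
    apply div_le_div_of_nonneg_right _ hn.le
    have : (cnt A (n + 1) : ℝ) ≤ cnt A n + 1 := by exact_mod_cast (cnt_succ A n).2
    linarith
  · filter_upwards [hS.eventually_gt_atTop 0] with n hn
    apply div_le_div_of_nonneg_right _ hn.le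
    exact_mod_cast (cnt_succ A n).1

open Classical in
lemma W_eq_ite (q : ℕ → ℕ) (j m : ℕ) (D : Fin m → ℕ) (D' : ℕ → ℕ) (h : ∀ i : Fin m, D' i = D i) :
    W q j m D' = if ∀ i : Fin m, D i < q (j + i) then 1 / ∏ i : Fin m, (q (j + i) : ℝ) else 0 := by
  unfold W
  rw [Finset.prod_range]
  have h1 : ∀ i : Fin m, (if D' i < q (j + i) then ((q (j + i) : ℝ))⁻¹ else 0) =
      if D i < q (j + i) then ((q (j + i) : ℝ))⁻¹ else 0 := fun i => by rw [h i]
  rw [Finset.prod_congr rfl fun i _ => h1 i, Finset.prod_ite_zero]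
  simp only [Finset.mem_univ, true_imp_iff]
  split_ifs
  · rw [one_div, Finset.prod_inv_distrib]
  · rfl

open Classical in
lemma V_eq_ite (m : ℕ) (B D : Fin m → ℕ) (B' D' : ℕ → ℕ) (hB : ∀ i : Fin m, B' i = B i)
    (hD : ∀ i : Fin m, D' i = D i) :
    V m B' D' = if ∀ i : Fin m, D i < B i then 1 / ∏ i : Fin m, (B i : ℝ) else 0 := by
  unfold V
  rw [Finset.prod_range]
  have h1 : ∀ i : Fin m, (if D' i < B' i then ((B' i : ℝ))⁻¹ else 0) =
      if D i < B i then ((B i : ℝ))⁻¹ else 0 := fun i => by rw [hB i, hD i]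
  rw [Finset.prod_congr rfl fun i _ => h1 i, Finset.prod_ite_zero]
  simp only [Finset.mem_univ, true_imp_iff]
  split_ifs
  · rw [one_div, Finset.prod_inv_distrib]
  · rfl

lemma cnt_eq_card (A : ℕ → Prop) [DecidablePred A] (n : ℕ) :
    cnt A n = ((Icc 1 n).filter A).card := by
  unfold cnt
  congr!

/-- The count of a predicate in terms of any equivalent decidable one. -/
lemma cnt_eq_card' {A B : ℕ → Prop} [DecidablePred B] (h : ∀ j, A j ↔ B j) (n : ℕ) :
    cnt A n = ((Icc 1 n).filter B).card := by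
  rw [← cnt_eq_card B n]
  exact cnt_congr fun j _ _ => h j

/-- Extension of a block by zeros. -/
def ex0 {m : ℕ} (D : Fin m → ℕ) (i : ℕ) : ℕ := if h : i < m then D ⟨i, h⟩ else 0

lemma ex0_val {m : ℕ} (D : Fin m → ℕ) (i : Fin m) : ex0 D i = D i := by
  unfold ex0; rw [dif_pos i.2]

lemma occ_ex0 (y : ℕ → ℕ) {m : ℕ} (D : Fin m → ℕ) (j : ℕ) :
    occ y m (ex0 D) j ↔ ∀ i : Fin m, y (j + i) = D i := by
  unfold occ
  constructor
  · intro h i
    rw [h i i.2, ex0_val]
  · intro h i hi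
    have := h ⟨i, hi⟩
    rw [← ex0_val D ⟨i, hi⟩] at this
    exact this

end Pool.Agent.Q87.BS
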