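import Pool.Agent.Q87.BS.Defs

set_option autoImplicit false

/-!
# Job BS6: most words of digits determine their basic block
-/

namespace Pool.Agent.Q87.BS

open Filter Finset

namespace DecJob

lemma W_nonneg (q : ℕ → ℕ) (j m : ℕ) (w : ℕ → ℕ) : 0 ≤ W q j m w := by
  unfold W
  apply Finset.prod_nonneg
  intro i _
  split_ifs <;> positivity

lemma pr_mono (q : ℕ → ℕ) (M j m : ℕ) (E F : (ℕ → ℕ) → Prop) (h : ∀ w, E w → F w) :
    pr q M j m E ≤ pr q M j m F := by
  unfold pr
  apply Finset.sum_le_sum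
  intro w _
  have := W_nonneg q j m (ext w)
  split_ifs with c1 c2 c2
  · exact le_rfl
  · exact absurd (h _ c1) c2
  · exact this
  · exact le_rfl

lemma SG_loc (b : ℕ → ZMod 2) (k J : ℕ) : Loc (3 * L k) (fun w => ¬ SG b k J w) := by
  intro w w' h
  have key : ∀ u v : ℕ → ℕ, (∀ i < 3 * L k, u i = v i) → SG b k J u → SG b k J v := by
    intro u v huv hu p hp
    exact hu p (fun i hi => by rw [huv i hi]; exact hp i hi)
  exact not_congr ⟨key w w' h, key w' w (fun i hi => (h i hi).symm)⟩

lemma L_ge (k : ℕ) : 2 ^ k ≤ L k := by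
  induction k with
  | zero => simp [L]
  | succ k ih =>
    rw [L_succ, pow_succ]
    have := N_ge k
    nlinarith

/-- The exceptional places. -/
lemma bad_card (lam l n : ℕ) (hlam : 0 < lam) :
    ((Icc 1 n).filter (fun j => lam < j % lam + l)).card ≤ (n / lam + 1) * l := by
  classical
  calc _ ≤ ((range (n / lam + 1)) ×ˢ (range l)).card := by
        apply Finset.card_le_card_of_injOn (fun j => (j / lam, j % lam + l - lam - 1))
        · intro j hj
          rw [Finset.mem_coe, Finset.mem_filter, Finset.mem_Icc] at hj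
          rw [Finset.mem_coe, Finset.mem_product, Finset.mem_range, Finset.mem_range]
          have h1 : j / lam ≤ n / lam := Nat.div_le_div_right hj.1.2
          have h2 := Nat.mod_lt j hlam
          refine ⟨by show j / lam < n / lam + 1; omega, ?_⟩
          show j % lam + l - lam - 1 < l
          omega
        · intro j hj j' hj' h
          rw [Finset.mem_coe, Finset.mem_filter] at hj hj'
          simp only [Prod.mk.injEq] at h
          have h3 := Nat.div_add_mod j lam
          have h4 := Nat.div_add_mod j' lam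
          have h5 : j % lam = j' % lam := by omega
          rw [← h3, ← h4, h.1, h5]
    _ = _ := by rw [Finset.card_product, Finset.card_range, Finset.card_range]

/-- At a place which is not exceptional most words determine the block. -/
lemma good_place (b : ℕ → ZMod 2) (hbd : Bd (q b) (2 ^ 90)) (hb : Par b) (h4 : S_pr)
    (h5 : S_prob) (k l j : ℕ) (hj : ¬ 3 * L k < j % (3 * L k) + l) :
    pr (q b) (2 ^ 90) j (2 * (3 * L k)) (fun w => ¬ Dec (q b) (2 * (3 * L k)) (3 * L k) l w) ≤
      1 / (256 * 4 ^ k) := by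
  set lam := 3 * L k with hlam
  have hlam0 : 0 < lam := by have := L_pos k; omega
  set s := j / lam + 1 with hs
  have hdm := Nat.div_add_mod j lam
  have hmod := Nat.mod_lt j hlam0
  set a' := lam - j % lam with ha'
  have e1 : j + a' = lam * s := by
    have : lam * s = lam * (j / lam) + lam := by rw [hs]; ring
    omega
  have hle : a' + lam ≤ 2 * lam := by omega
  refine (pr_mono (q b) (2 ^ 90) j (2 * lam) _
    (fun w => (fun v => ¬ SG b k s v) (fun i => w (a' + i))) ?_).trans ?_
  · intro w hw hSG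
    apply hw
    intro p p' hp hp' i hi
    have g1 := hSG (p + a') (fun i hi => by
      have := hp (a' + i) (by omega)
      rw [← add_assoc] at this
      exact this)
    have g2 := hSG (p' + a') (fun i hi => by
      have := hp' (a' + i) (by omega)
      rw [← add_assoc] at this
      exact this)
    have i1 : j % lam + i < 3 * L k := by omega
    have g3 := g1.2 (j % lam + i) i1
    have g4 := g2.2 (j % lam + i) i1
    have e3 : p + lam + i = p + a' + (j % lam + i) := by omega
    have e4 : p' + lam + i = p' + a' + (j % lam + i) := by omega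
    rw [e3, e4, g3, g4]
  · rw [h4.2.1 (q b) (2 ^ 90) j (2 * lam) a' lam (fun v => ¬ SG b k s v) hbd hle
      (SG_loc b k s), e1]
    have := h5 b hb k s
    have e2 : lam * s = 3 * (s * L k) := by rw [hlam]; ring
    rw [e2]
    exact this

lemma sig_le (k j : ℕ) : sig k j ≤ 3 := by
  induction j using Nat.strong_induction_on generalizing k with
  | _ j ih =>
    rw [sig]
    split_ifs with h1 h2
    · omega
    · exact ih _ (Nat.div_lt_self (Nat.pos_of_ne_zero h1) (by have := N_ge k; omega)) _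
    · unfold pat
      split_ifs <;> omega

lemma c_le (b : ℕ → ZMod 2) (n : ℕ) : c b n ≤ 7 := by
  unfold c
  have := sig_le 0 n
  have h2 : (b n).val < 2 := ZMod.val_lt (b n)
  omega

lemma q_form (b : ℕ → ZMod 2) (m : ℕ) : ∃ s, 1 ≤ s ∧ s ≤ 9 ∧ q b m = 2 ^ (10 * s) := by
  have := c_le b (m / 3)
  unfold q
  split_ifs with c1 c2
  · exact ⟨9, by norm_num, by norm_num, rfl⟩
  · exact ⟨c b (m / 3) + 1, by omega, by omega, rfl⟩
  · exact ⟨8 - c b (m / 3), by omega, by omega, rfl⟩

lemma bd (b : ℕ → ZMod 2) : Bd (q b) (2 ^ 90) := by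
  intro m
  obtain ⟨s, hs1, hs2, hs⟩ := q_form b m
  rw [hs]
  constructor
  · calc 2 = 2 ^ 1 := by norm_num
      _ ≤ 2 ^ (10 * s) := Nat.pow_le_pow_right (by norm_num) (by omega)
  · exact Nat.pow_le_pow_right (by norm_num) (by omega)

end DecJob

open DecJob

/-- Job BS6, with the bounds of the basic sequence as a hypothesis. -/
theorem dec_of_bd (h4 : S_pr) (h5 : S_prob) (b : ℕ → ZMod 2) (hbd : Bd (q b) (2 ^ 90))
    (hb : Par b) : DecHyp (q b) (2 ^ 90) := by
  intro l ε hε
  obtain ⟨k, hk⟩ : ∃ k : ℕ, 3 * (l + 1 : ℝ) / ε + 1 / ε + l ≤ (2 : ℝ) ^ k :=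
    (tendsto_pow_atTop_atTop_of_one_lt (by norm_num : (1 : ℝ) < 2)).eventually_ge_atTop _ |>.exists
  have h2k : (0 : ℝ) < 2 ^ k := by positivity
  have hL : (2 : ℝ) ^ k ≤ L k := by exact_mod_cast L_ge k
  have hl0 : (0 : ℝ) ≤ l := Nat.cast_nonneg l
  have k1 : 3 * (l + 1 : ℝ) / ε ≤ 2 ^ k := by
    have : 0 < 1 / ε := by positivity
    linarith
  have k2 : 1 / ε ≤ (2 : ℝ) ^ k := by
    have : 0 ≤ 3 * (l + 1 : ℝ) / ε := by positivity
    linarith
  have k3 : (l : ℝ) ≤ 2 ^ k := by
    have : 0 ≤ 3 * (l + 1 : ℝ) / ε := by positivity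
    have : 0 < 1 / ε := by positivity
    linarith
  have hlL : l ≤ 3 * L k := by
    have : (l : ℝ) ≤ L k := k3.trans hL
    have : l ≤ L k := by exact_mod_cast this
    omega
  set lam := 3 * L k with hlam
  have hlam0 : 0 < lam := by have := L_pos k; omega
  refine ⟨2 * lam, lam, by omega, ?_⟩
  filter_upwards [eventually_ge_atTop (⌈3 * (l : ℝ) / ε⌉₊)] with n hn
  have hn1 : 3 * (l : ℝ) / ε ≤ n := (Nat.le_ceil _).trans (by exact_mod_cast hn)
  have hn2 : (l : ℝ) ≤ ε * n / 3 := by
    rw [div_le_iff₀ hε] at hn1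
    linarith
  classical
  have hpt : ∀ j ∈ Icc 1 n, pr (q b) (2 ^ 90) j (2 * lam)
      (fun w => ¬ Dec (q b) (2 * lam) lam l w) ≤
        1 / (256 * 4 ^ k) + (if lam < j % lam + l then 1 else 0) := by
    intro j _
    split_ifs with c1
    · have g1 : pr (q b) (2 ^ 90) j (2 * lam) (fun w => ¬ Dec (q b) (2 * lam) lam l w) ≤ 1 := by
        calc _ ≤ pr (q b) (2 ^ 90) j (2 * lam) (fun _ => True) :=
              pr_mono _ _ _ _ _ _ (fun _ _ => trivial)
          _ = 1 := h4.1 _ _ _ _ hbd
      have g2 : (0 : ℝ) ≤ 1 / (256 * 4 ^ k) := by positivity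
      exact le_add_of_nonneg_of_le g2 g1
    · rw [add_zero]
      exact good_place b hbd hb h4 h5 k l j c1
  refine (Finset.sum_le_sum hpt).trans ?_
  rw [Finset.sum_add_distrib, Finset.sum_const, Nat.card_Icc, nsmul_eq_mul, ← Finset.sum_filter,
    Finset.sum_const, nsmul_eq_mul, mul_one]
  have g3 : (((Icc 1 n).filter (fun j => lam < j % lam + l)).card : ℝ) ≤ (n / lam + 1) * l := by
    have := bad_card lam l n hlam0
    have g4 : (((Icc 1 n).filter (fun j => lam < j % lam + l)).card : ℝ) ≤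
        (((n / lam + 1) * l : ℕ) : ℝ) := by exact_mod_cast this
    refine g4.trans ?_
    push_cast
    apply mul_le_mul_of_nonneg_right _ hl0
    have : ((n / lam : ℕ) : ℝ) ≤ (n : ℝ) / lam := Nat.cast_div_le
    linarith
  have hn0 : (0 : ℝ) ≤ n := Nat.cast_nonneg n
  have g5 : ((n + 1 - 1 : ℕ) : ℝ) = n := by
    rw [Nat.add_sub_cancel]
  rw [g5]
  have g6 : (n : ℝ) * (1 / (256 * 4 ^ k)) ≤ ε * n / 3 := by
    have g7 : (1 : ℝ) / (256 * 4 ^ k) ≤ ε / 3 := by
      have g8 : (1 : ℝ) ≤ ε * 2 ^ k := by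
        rw [div_le_iff₀ hε] at k2
        linarith
      have g9 : (2 : ℝ) ^ k ≤ 4 ^ k := pow_le_pow_left₀ (by norm_num) (by norm_num) k
      rw [div_le_div_iff₀ (by positivity) (by norm_num)]
      nlinarith
    calc (n : ℝ) * (1 / (256 * 4 ^ k)) ≤ n * (ε / 3) := mul_le_mul_of_nonneg_left g7 hn0
      _ = ε * n / 3 := by ring
  have g10 : (n : ℝ) / lam * l ≤ ε * n / 3 := by
    have hlamR : (0 : ℝ) < lam := by exact_mod_cast hlam0
    have g11 : (L k : ℝ) ≤ lam := by
      rw [hlam]
      push_cast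
      have : (0 : ℝ) ≤ L k := Nat.cast_nonneg _
      linarith
    have g12 : 3 * (l : ℝ) ≤ ε * lam := by
      rw [div_le_iff₀ hε] at k1
      have : (2 : ℝ) ^ k ≤ lam := hL.trans g11
      nlinarith
    rw [div_mul_eq_mul_div, div_le_div_iff₀ hlamR (by norm_num)]
    nlinarith
  nlinarith

/-- Job BS6. -/
theorem dec (h4 : S_pr) (h5 : S_prob) : S_dec :=
  fun b hb => dec_of_bd h4 h5 b (DecJob.bd b) hb

end Pool.Agent.Q87.BS
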