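import Pool.Agent.Q87.BS.Defs

set_option autoImplicit false

/-! # Project BS: positivity of the entropy -/

namespace Pool.Agent.Q87.BS

open Finset Filter Topology MeasureTheory

theorem ent : S_ent := by
  intro X _ μ _ T hT r g hg κ hκ hfreq
  have hle : ∀ m : ℕ, (∀ w : Fin m → Fin r,
      μ.real {x | ∀ i : Fin m, g (T^[i] x) = w i} ≤ Real.exp (-(κ * m))) →
      κ * m ≤ partEntropy μ T r g m := by
    intro m hm
    have hmeas : ∀ w : Fin m → Fin r, MeasurableSet {x | ∀ i : Fin m, g (T^[i] x) = w i} := by
      intro w
      have : {x | ∀ i : Fin m, g (T^[i] x) = w i} = ⋂ i : Fin m, {x | g (T^[i] x) = w i} := by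
        ext x; simp
      rw [this]
      refine MeasurableSet.iInter fun i => ?_
      exact (hg.comp (hT.iterate i)) (measurableSet_singleton (w i))
    have hsum : ∑ w : Fin m → Fin r, μ.real {x | ∀ i : Fin m, g (T^[i] x) = w i} = 1 := by
      rw [← measureReal_biUnion_finset]
      · have : (⋃ w ∈ (univ : Finset (Fin m → Fin r)),
            {x | ∀ i : Fin m, g (T^[i] x) = w i}) = Set.univ := by
          ext x
          simp only [Finset.mem_univ, Set.iUnion_true, Set.mem_iUnion, Set.mem_univ, iff_true]
          exact ⟨fun i => g (T^[i] x), fun i => rfl⟩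
        rw [this]
        simp
      · intro w _ w' _ hne
        refine Set.disjoint_left.mpr ?_
        intro x hx hx'
        exact hne (funext fun i => (hx i).symm.trans (hx' i))
      · intro w _
        exact hmeas w
    calc κ * m = ∑ w : Fin m → Fin r,
          μ.real {x | ∀ i : Fin m, g (T^[i] x) = w i} * (κ * m) := by
          rw [← Finset.sum_mul, hsum, one_mul]
      _ ≤ partEntropy μ T r g m := by
          unfold partEntropy
          apply Finset.sum_le_sum
          intro w _
          set p := μ.real {x | ∀ i : Fin m, g (T^[i] x) = w i} with hp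
          have hp0 : 0 ≤ p := measureReal_nonneg
          rcases hp0.eq_or_lt with h0 | h0
          · rw [← h0]; simp
          · rw [Real.negMulLog, neg_mul, ← mul_neg]
            apply mul_le_mul_of_nonneg_left _ hp0
            have := Real.log_le_log h0 (hm w)
            rw [Real.log_exp] at this
            linarith
  have hlim : ((κ : ℝ) : EReal) ≤
      limsup (fun n : ℕ => ((partEntropy μ T r g n / n : ℝ) : EReal)) atTop := by
    apply Filter.le_limsup_of_frequently_le
    · have h2 : ∃ᶠ m : ℕ in atTop, (∀ w : Fin m → Fin r,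
          μ.real {x | ∀ i : Fin m, g (T^[i] x) = w i} ≤ Real.exp (-(κ * m))) ∧ 1 ≤ m :=
        hfreq.and_eventually (eventually_ge_atTop 1)
      refine h2.mono ?_
      intro m hm
      have h3 := hle m hm.1
      have hm0 : (0 : ℝ) < m := by exact_mod_cast hm.2
      exact_mod_cast (le_div_iff₀ hm0).mpr h3
    · isBoundedDefault
  have h0 : (0 : EReal) < ((κ : ℝ) : EReal) := by exact_mod_cast hκ
  refine lt_of_lt_of_le h0 (le_trans hlim ?_)
  unfold ksEntropy
  exact le_iSup_of_le r (le_iSup_of_le g (le_iSup_of_le hg le_rfl))

end Pool.Agent.Q87.BS
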