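import Pool.Agent.Q87.BS.Card

set_option autoImplicit false

/-! # Project BS: existence of generic data -/

namespace Pool.Agent.Q87.BS

open Finset Filter Topology MeasureTheory ProbabilityTheory

/-! ## Separation of two blocks -/

/-- `L (k + e) = L k * sL k e`. -/
def sL (k : ℕ) : ℕ → ℕ
  | 0 => 1
  | e + 1 => N (k + e) * sL k e

lemma L_add (k e : ℕ) : L (k + e) = L k * sL k e := by
  induction e with
  | zero => simp [sL]
  | succ e ih => rw [← add_assoc, L_succ, ih, sL]; ring

lemma sL_pos (k e : ℕ) : 0 < sL k e := by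
  induction e with
  | zero => simp [sL]
  | succ e ih => exact Nat.mul_pos (by have := N_ge (k + e); omega) ih

lemma sL_gt (k e : ℕ) : e < sL k e := by
  induction e with
  | zero => simp [sL]
  | succ e ih =>
    have h := N_ge (k + e)
    rw [sL]
    calc e + 1 < 8 * sL k e := by omega
      _ ≤ N (k + e) * sL k e := Nat.mul_le_mul_right _ h

lemma exists_digit (k : ℕ) {i j : ℕ} (hij : i ≠ j) :
    ∃ e, (i / sL k e) % N (k + e) ≠ (j / sL k e) % N (k + e) := by
  by_contra hcon
  push Not at hcon
  have h : ∀ e, i % sL k e = j % sL k e := by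
    intro e
    induction e with
    | zero => simp [sL, Nat.mod_one]
    | succ e ih =>
      rw [sL, Nat.mul_comm, Nat.mod_mul, Nat.mod_mul, ih, hcon e]
  apply hij
  have h1 := h (i + j)
  have h2 := sL_gt k (i + j)
  rwa [Nat.mod_eq_of_lt (by omega), Nat.mod_eq_of_lt (by omega)] at h1

/-- The digit at level `k + e` of a place `n` from the index of its level `k` block. -/
lemma digit_block (k e n : ℕ) : n / L k / sL k e = n / L (k + e) := by
  rw [Nat.div_div_eq_div_mul, L_add]

lemma sum_digit_zero (k e : ℕ) (α : ℕ → ZMod 2) (hα : ∑ t ∈ range (N (k + e)), α t = 0)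
    (k' : ℕ) (i r : ℕ) (hr : r < L k') :
    ∑ t ∈ range (N k'), α ((i * L (k' + 1) + t * L k' + r) / L (k + e) % N (k + e)) = 0 := by
  set k0 := k + e with hk0
  have hL0 := L_pos k0
  have hL' := L_pos k'
  rcases Nat.lt_trichotomy k' k0 with h | h | h
  · obtain ⟨s, hs0, hs⟩ := L_split h
    have : ∀ t ∈ range (N k'), (i * L (k' + 1) + t * L k' + r) / L k0 = i / s := by
      intro t ht
      rw [mem_range] at ht
      have hlt : t * L k' + r < L (k' + 1) := by
        rw [L_succ]
        calc t * L k' + r < t * L k' + L k' := by omega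
          _ = (t + 1) * L k' := by ring
          _ ≤ N k' * L k' := Nat.mul_le_mul_right _ ht
      have hpos := L_pos (k' + 1)
      rw [hs, Nat.mul_comm s, ← Nat.div_div_eq_div_mul, add_assoc, Nat.mul_comm i,
        Nat.mul_add_div hpos, Nat.div_eq_of_lt hlt, add_zero]
    rw [Finset.sum_congr rfl fun t ht => by rw [this t ht], Finset.sum_const, card_range]
    exact nsmul_N k' _
  · subst h
    have : ∀ t ∈ range (N k0), (i * L (k0 + 1) + t * L k0 + r) / L k0 % N k0 = t := by
      intro t ht
      rw [L_succ, show i * (N k0 * L k0) + t * L k0 + r = L k0 * (i * N k0 + t) + r by ring,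
        Nat.mul_add_div hL', Nat.div_eq_of_lt hr, add_zero, Nat.mul_comm i, Nat.mul_add_mod,
        Nat.mod_eq_of_lt (mem_range.mp ht)]
    rw [Finset.sum_congr rfl fun t ht => by rw [this t ht]]
    exact hα
  · have : ∀ t ∈ range (N k'), (i * L (k' + 1) + t * L k' + r) / L k0 % N k0 =
        r / L k0 % N k0 := by
      intro t _
      rw [L_succ, show i * (N k' * L k') + t * L k' + r = (i * N k' + t) * L k' + r by ring,
        digit_add h]
    rw [Finset.sum_congr rfl fun t ht => by rw [this t ht], Finset.sum_const, card_range]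
    exact nsmul_N k' _

lemma exists_two (n a b : ℕ) (hn : 3 ≤ n) (ha : a < n) (hab : a ≠ b) :
    ∃ α : ℕ → ZMod 2, α a = 1 ∧ α b = 0 ∧ ∑ t ∈ range n, α t = 0 := by
  obtain ⟨s, hs, hsa, hsb⟩ : ∃ s < n, s ≠ a ∧ s ≠ b := by
    by_cases h0 : 0 ≠ a ∧ 0 ≠ b
    · exact ⟨0, by omega, h0⟩
    · by_cases h1 : 1 ≠ a ∧ 1 ≠ b
      · exact ⟨1, by omega, h1⟩
      · exact ⟨2, by omega, by omega, by omega⟩
  refine ⟨fun t => if t = a ∨ t = s then 1 else 0, by simp, ?_, ?_⟩
  · change (if b = a ∨ b = s then (1 : ZMod 2) else 0) = 0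
    rw [if_neg]
    rintro (h | h)
    · exact hab h.symm
    · exact hsb h.symm
  · rw [Finset.sum_eq_add_of_mem a s (mem_range.mpr ha) (mem_range.mpr hs) hsa.symm]
    · simp only [true_or, or_true, if_true]
      exact CharTwo.add_self_eq_zero _
    · intro t _ ht
      rw [if_neg]
      rintro (h | h)
      · exact ht.1 h
      · exact ht.2 h

/-- Two different blocks may be prescribed. -/
lemma exists_pair (k : ℕ) {i j : ℕ} (hij : i ≠ j) (u v : ℕ → ZMod 2) (hu : Par u) (hv : Par v) :
    ∃ b : ℕ → ZMod 2, Par b ∧ (∀ r < L k, b (i * L k + r) = u r) ∧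
      ∀ r < L k, b (j * L k + r) = v r := by
  obtain ⟨e, he⟩ := exists_digit k hij
  have hN := N_ge (k + e)
  have hLk := L_pos k
  obtain ⟨α, hα1, hα0, hαs⟩ := exists_two (N (k + e)) ((i / sL k e) % N (k + e))
    ((j / sL k e) % N (k + e)) (by omega) (Nat.mod_lt _ (by omega)) he
  obtain ⟨β, hβ1, hβ0, hβs⟩ := exists_two (N (k + e)) ((j / sL k e) % N (k + e))
    ((i / sL k e) % N (k + e)) (by omega) (Nat.mod_lt _ (by omega)) he.symm
  let G : ℕ → ℕ → ZMod 2 := fun J r =>
    α (J / sL k e % N (k + e)) * u r + β (J / sL k e % N (k + e)) * v r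
  refine ⟨fun n => G (n / L k) (n % L k), ?_, ?_, ?_⟩
  · apply par_build k G
    · intro J k' _ i r hr _
      simp only [G]
      rw [Finset.sum_add_distrib, ← Finset.mul_sum, ← Finset.mul_sum, hu k' i r hr, hv k' i r hr,
        mul_zero, mul_zero, add_zero]
    · intro k' _ i r hr
      simp only [G, digit_block]
      rw [Finset.sum_add_distrib, ← Finset.sum_mul, ← Finset.sum_mul,
        sum_digit_zero k e α hαs k' i r hr, sum_digit_zero k e β hβs k' i r hr,
        zero_mul, zero_mul, add_zero]
  · intro r hr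
    have h1 : (i * L k + r) / L k = i := by
      rw [Nat.mul_comm, Nat.mul_add_div hLk, Nat.div_eq_of_lt hr, add_zero]
    have h2 : (i * L k + r) % L k = r := by
      rw [Nat.mul_comm, Nat.mul_add_mod, Nat.mod_eq_of_lt hr]
    simp only [G]
    rw [h1, h2, hα1, hβ0]
    ring
  · intro r hr
    have h1 : (j * L k + r) / L k = j := by
      rw [Nat.mul_comm, Nat.mul_add_div hLk, Nat.div_eq_of_lt hr, add_zero]
    have h2 : (j * L k + r) % L k = r := by
      rw [Nat.mul_comm, Nat.mul_add_mod, Nat.mod_eq_of_lt hr]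
    simp only [G]
    rw [h1, h2, hα0, hβ1]
    ring

/-! ## The group of the data and its Haar measure -/

lemma par_neg {b : ℕ → ZMod 2} (h : Par b) : Par (-b) := by
  intro k j r hr
  simp only [Pi.neg_apply, Finset.sum_neg_distrib]
  rw [h k j r hr, neg_zero]

/-- The group of all data with the parity condition. -/
def X0 : AddSubgroup (ℕ → ZMod 2) where
  carrier := {b | Par b}
  add_mem' := fun h h' => par_add h h'
  zero_mem' := par_zero
  neg_mem' := fun h => par_neg h

lemma isClosed_X0 : IsClosed (X0 : Set (ℕ → ZMod 2)) := by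
  have : (X0 : Set (ℕ → ZMod 2)) = ⋂ (k : ℕ) (j : ℕ) (r : ℕ) (_ : r < L k),
      {b | ∑ t ∈ range (N k), b (j * L (k + 1) + t * L k + r) = 0} := by
    ext b
    simp only [Set.mem_iInter]
    exact Iff.rfl
  rw [this]
  refine isClosed_iInter fun k => isClosed_iInter fun j => isClosed_iInter fun r =>
    isClosed_iInter fun _ => ?_
  apply isClosed_eq
  · exact continuous_finsetSum _ fun t _ => continuous_apply _
  · exact continuous_const

instance : CompactSpace X0 := isCompact_iff_compactSpace.mp isClosed_X0.isCompact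

/-- The Haar probability. -/
noncomputable def hμ : Measure X0 := Measure.addHaarMeasure ⊤

instance : IsProbabilityMeasure hμ := ⟨by
  unfold hμ
  have := Measure.addHaarMeasure_self (K₀ := (⊤ : TopologicalSpace.PositiveCompacts X0))
  simpa using this⟩

instance : hμ.IsAddLeftInvariant := by unfold hμ; infer_instance

/-- All fibres have the same measure. -/
lemma fibre {A : Type} [AddCommGroup A] (f : X0 →+ A) (hf : ∀ a, MeasurableSet (f ⁻¹' {a}))
    (S : Finset A) (h1 : ∀ b, f b ∈ S) (h2 : ∀ a ∈ S, ∃ b, f b = a) {a : A} (ha : a ∈ S) :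
    hμ.real (f ⁻¹' {a}) = 1 / S.card := by
  classical
  have h0 : ∀ a ∈ S, hμ.real (f ⁻¹' {a}) = hμ.real (f ⁻¹' {0}) := by
    intro a ha
    obtain ⟨b, hb⟩ := h2 a ha
    have : f ⁻¹' {a} = (fun x => -b + x) ⁻¹' (f ⁻¹' {0}) := by
      ext x
      simp only [Set.mem_preimage, Set.mem_singleton_iff, map_add, map_neg, hb]
      constructor
      · intro h; rw [h]; abel
      · intro h; rw [neg_add_eq_zero] at h; exact h.symm
    rw [this, Measure.real, Measure.real, measure_preimage_add]
  have hsum : ∑ a ∈ S, hμ.real (f ⁻¹' {a}) = 1 := by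
    rw [← measureReal_biUnion_finset]
    · have : (⋃ a ∈ S, f ⁻¹' {a}) = Set.univ := by
        ext x
        simp only [Set.mem_iUnion, Set.mem_preimage, Set.mem_singleton_iff, Set.mem_univ,
          iff_true]
        exact ⟨f x, h1 x, rfl⟩
      rw [this]
      simp
    · intro a _ a' _ hne
      refine Set.disjoint_left.mpr ?_
      intro x hx hx'
      exact hne (hx.symm.trans hx')
    · intro a _
      exact hf a
  rw [Finset.sum_congr rfl h0, Finset.sum_const, nsmul_eq_mul] at hsum
  rw [h0 a ha]
  have hc : (S.card : ℝ) ≠ 0 := by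
    intro h
    rw [h, zero_mul] at hsum
    exact zero_ne_one hsum
  field_simp
  linarith

/-- The block of level `k` and index `j`. -/
def blkH (k j : ℕ) : X0 →+ (Fin (L k) → ZMod 2) where
  toFun b := fun r => b.1 (j * L k + r)
  map_zero' := rfl
  map_add' := fun _ _ => rfl

lemma meas_blk (k j : ℕ) : Measurable (blkH k j) := by
  apply measurable_pi_lambda
  intro r
  change Measurable (fun b : X0 => b.1 (j * L k + r))
  exact (measurable_pi_apply _).comp measurable_subtype_coe

lemma blk_mem (k j : ℕ) (b : X0) : blkH k j b ∈ C k := block_mem b.2 k j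

lemma blk_surj (k : ℕ) {i j : ℕ} (hij : i ≠ j) {u v : Fin (L k) → ZMod 2} (hu : u ∈ C k)
    (hv : v ∈ C k) : ∃ b : X0, blkH k i b = u ∧ blkH k j b = v := by
  obtain ⟨u', hu', hu''⟩ := mem_C.mp hu
  obtain ⟨v', hv', hv''⟩ := mem_C.mp hv
  obtain ⟨b, hb, h1, h2⟩ := exists_pair k hij u' v' hu' hv'
  refine ⟨⟨b, hb⟩, ?_, ?_⟩
  · funext r
    rw [hu'' r]
    exact h1 r r.2
  · funext r
    rw [hv'' r]
    exact h2 r r.2

lemma meas_single (k i : ℕ) (u : Fin (L k) → ZMod 2) : hμ.real (blkH k i ⁻¹' {u}) =
    if u ∈ C k then 1 / ((C k).card : ℝ) else 0 := by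
  classical
  split_ifs with hu
  · apply fibre (blkH k i) (fun a => meas_blk k i (measurableSet_singleton a)) (C k)
      (blk_mem k i) _ hu
    intro a ha
    obtain ⟨b, hb, -⟩ := blk_surj k (show i ≠ i + 1 by omega) ha ha
    exact ⟨b, hb⟩
  · have : blkH k i ⁻¹' {u} = ∅ := by
      apply Set.eq_empty_of_forall_notMem
      intro b hb
      apply hu
      rw [← show blkH k i b = u from hb]
      exact blk_mem k i b
    rw [this]
    simp

lemma meas_pair (k : ℕ) {i j : ℕ} (hij : i ≠ j) (u v : Fin (L k) → ZMod 2) :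
    hμ.real ((fun b => (blkH k i b, blkH k j b)) ⁻¹' {(u, v)}) =
      hμ.real (blkH k i ⁻¹' {u}) * hμ.real (blkH k j ⁻¹' {v}) := by
  classical
  rw [meas_single, meas_single]
  by_cases hu : u ∈ C k
  · by_cases hv : v ∈ C k
    · rw [if_pos hu, if_pos hv]
      have h := fibre ((blkH k i).prod (blkH k j))
        (fun a => ((meas_blk k i).prodMk (meas_blk k j)) (measurableSet_singleton a))
        (C k ×ˢ C k)
        (fun b => Finset.mem_product.mpr ⟨blk_mem k i b, blk_mem k j b⟩)
        (by
          rintro ⟨a, a'⟩ haa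
          rw [Finset.mem_product] at haa
          obtain ⟨b, hb, hb'⟩ := blk_surj k hij haa.1 haa.2
          exact ⟨b, Prod.ext hb hb'⟩) (a := (u, v)) (Finset.mem_product.mpr ⟨hu, hv⟩)
      rw [Finset.card_product] at h
      push_cast at h
      rw [show (1 : ℝ) / (C k).card * (1 / (C k).card) = 1 / ((C k).card * (C k).card) by
        rw [div_mul_div_comm, one_mul]]
      exact h
    · rw [if_neg hv, mul_zero]
      have : (fun b => (blkH k i b, blkH k j b)) ⁻¹' {(u, v)} = ∅ := by
        apply Set.eq_empty_of_forall_notMem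
        intro b hb
        apply hv
        have h1 : (blkH k i b, blkH k j b) = (u, v) := hb
        rw [← show blkH k j b = v from congrArg Prod.snd h1]
        exact blk_mem k j b
      rw [this]
      simp
  · rw [if_neg hu, zero_mul]
    have : (fun b => (blkH k i b, blkH k j b)) ⁻¹' {(u, v)} = ∅ := by
      apply Set.eq_empty_of_forall_notMem
      intro b hb
      apply hu
      have h1 : (blkH k i b, blkH k j b) = (u, v) := hb
      rw [← show blkH k i b = u from congrArg Prod.fst h1]
      exact blk_mem k i b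
    rw [this]
    simp

lemma indep_blk (k : ℕ) {i j : ℕ} (hij : i ≠ j) : IndepFun (blkH k i) (blkH k j) hμ := by
  rw [indepFun_iff_map_prod_eq_prod_map_map (meas_blk k i).aemeasurable
    (meas_blk k j).aemeasurable]
  apply Measure.ext_of_singleton
  rintro ⟨u, v⟩
  rw [Measure.map_apply ((meas_blk k i).prodMk (meas_blk k j)) (measurableSet_singleton _),
    show ({(u, v)} : Set ((Fin (L k) → ZMod 2) × (Fin (L k) → ZMod 2))) = {u} ×ˢ {v} by
      rw [Set.singleton_prod_singleton],
    Measure.prod_prod, Measure.map_apply (meas_blk k i) (measurableSet_singleton _),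
    Measure.map_apply (meas_blk k j) (measurableSet_singleton _)]
  have h := meas_pair k hij u v
  rw [Measure.real, Measure.real, Measure.real, ← ENNReal.toReal_mul] at h
  rw [show ({u} ×ˢ {v} : Set ((Fin (L k) → ZMod 2) × (Fin (L k) → ZMod 2))) = {(u, v)} by
      rw [Set.singleton_prod_singleton]]
  exact (ENNReal.toReal_eq_toReal_iff' (measure_ne_top _ _)
    (ENNReal.mul_ne_top (measure_ne_top _ _) (measure_ne_top _ _))).mp h

lemma ident_blk (k i : ℕ) : IdentDistrib (blkH k i) (blkH k 0) hμ hμ := by
  refine ⟨(meas_blk k i).aemeasurable, (meas_blk k 0).aemeasurable, ?_⟩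
  apply Measure.ext_of_singleton
  intro u
  rw [Measure.map_apply (meas_blk k i) (measurableSet_singleton _),
    Measure.map_apply (meas_blk k 0) (measurableSet_singleton _)]
  have h : hμ.real (blkH k i ⁻¹' {u}) = hμ.real (blkH k 0 ⁻¹' {u}) := by
    rw [meas_single, meas_single]
  rw [Measure.real, Measure.real] at h
  exact (ENNReal.toReal_eq_toReal_iff' (measure_ne_top _ _) (measure_ne_top _ _)).mp h

theorem gen : S_gen := by
  classical
  have key : ∀ k, ∀ u : Fin (L k) → ZMod 2, u ∈ C k → ∀ᵐ b ∂hμ, Tendsto (fun n : ℕ =>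
      (((range n).filter fun j => ∀ r : Fin (L k), b.1 (j * L k + r) = u r).card : ℝ) / n) atTop
        (𝓝 (1 / (C k).card)) := by
    intro k u hu
    let g : (Fin (L k) → ZMod 2) → ℝ := fun v => if v = u then 1 else 0
    have hg : Measurable g := measurable_of_countable g
    have hint : Integrable (g ∘ blkH k 0) hμ := by
      refine ⟨(hg.comp (meas_blk k 0)).aestronglyMeasurable, ?_⟩
      apply HasFiniteIntegral.of_bounded (C := 1)
      filter_upwards with b
      simp only [g, Function.comp]
      split_ifs <;> simp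
    have h := strong_law_ae_real (fun i => g ∘ blkH k i) hint
      (fun i j hij => (indep_blk k hij).comp hg hg)
      (fun i => (ident_blk k i).comp hg)
    have hE : ∫ b, (g ∘ blkH k 0) b ∂hμ = 1 / (C k).card := by
      have h1 : (fun b => (g ∘ blkH k 0) b) = (blkH k 0 ⁻¹' {u}).indicator (fun _ => (1 : ℝ)) := by
        funext b
        simp only [g, Function.comp, Set.indicator, Set.mem_preimage, Set.mem_singleton_iff]
      rw [h1, integral_indicator_const _ (meas_blk k 0 (measurableSet_singleton u)), smul_eq_mul,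
        mul_one, meas_single, if_pos hu]
    rw [hE] at h
    filter_upwards [h] with b hb
    refine hb.congr ?_
    intro n
    congr 1
    rw [Finset.card_filter]
    push_cast
    apply Finset.sum_congr rfl
    intro j _
    simp only [g, Function.comp]
    congr 1
    exact propext funext_iff
  have hall : ∀ᵐ b ∂hμ, ∀ k, ∀ u : Fin (L k) → ZMod 2, u ∈ C k → Tendsto (fun n : ℕ =>
      (((range n).filter fun j => ∀ r : Fin (L k), b.1 (j * L k + r) = u r).card : ℝ) / n) atTop
        (𝓝 (1 / (C k).card)) := by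
    rw [ae_all_iff]
    intro k
    rw [ae_all_iff]
    intro u
    by_cases hu : u ∈ C k
    · filter_upwards [key k u hu] with b hb _
      exact hb
    · filter_upwards with b h
      exact absurd h hu
  obtain ⟨b, hb⟩ := hall.exists
  refine ⟨b.1, b.2, ?_⟩
  intro k u hu
  convert hb k u hu

end Pool.Agent.Q87.BS
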