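import Pool.Agent.Q87.BS.Defs

set_option autoImplicit false

namespace Pool.Agent.Q87.BS

open Filter Topology MeasureTheory Finset

theorem shift_iter (q : ℕ → ℕ) (i : ℕ) : shift^[i] q = fun n => q (i + n) := by
  induction i with
  | zero => funext n; simp
  | succ i ih =>
    rw [Function.iterate_succ_apply', ih]
    funext n
    show q (i + (n + 1)) = q (i + 1 + n)
    congr 1
    omega

theorem orb_mem (q : ℕ → ℕ) (n : ℕ) : (fun i => q (n + i)) ∈ Orb q := subset_closure ⟨n, rfl⟩

theorem orb : S_orb := by
  classical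
  intro q M hB hF
  have hpi : Orb q ⊆ Set.pi Set.univ (fun _ => Set.Icc 2 M) := by
    refine closure_minimal ?_ (isClosed_set_pi fun _ _ => isClosed_Icc)
    rintro _ ⟨n, rfl⟩ i _
    exact ⟨(hB (n + i)).1, (hB (n + i)).2⟩
  have hK : IsCompact (Orb q) :=
    (isCompact_univ_pi fun _ => (Set.finite_Icc 2 M).isCompact).of_isClosed_subset isClosed_closure hpi
  have hbd : ∀ y ∈ Orb q, ∀ n, 2 ≤ y n ∧ y n ≤ M := fun y hy n => hpi hy n trivial
  refine ⟨hK, ?_, hbd, ?_, ?_⟩
  · intro y hy
    have hc : Continuous shift := continuous_pi fun i => continuous_apply (i + 1)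
    refine map_mem_closure hc hy ?_
    rintro _ ⟨n, rfl⟩
    refine ⟨n + 1, ?_⟩
    funext i
    show q (n + 1 + i) = q (n + (i + 1))
    congr 1
    omega
  · intro y hy m
    have ho : IsOpen (Set.pi ((range m : Finset ℕ) : Set ℕ) (fun i => ({y i} : Set ℕ))) :=
      isOpen_set_pi (range m).finite_toSet fun _ _ => isOpen_discrete _
    obtain ⟨z, hz, n, rfl⟩ := mem_closure_iff.1 hy _ ho (fun i _ => rfl)
    exact ⟨n, fun i hi => hz i (by simpa using hi)⟩
  · intro F hFc
    have hunif : ∀ ε : ℝ, 0 < ε → ∃ m : ℕ, ∀ y ∈ Orb q, ∀ z ∈ Orb q, (∀ i < m, y i = z i) →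
        |F y - F z| ≤ ε := by
      intro ε hε
      by_contra hcon
      push Not at hcon
      choose y hy z hz heq hlt using hcon
      obtain ⟨w, hw, φ, hφ, hlim⟩ := hK.tendsto_subseq hy
      have hlimz : Tendsto (z ∘ φ) atTop (𝓝 w) := by
        rw [tendsto_pi_nhds]
        intro i
        refine ((tendsto_pi_nhds.1 hlim) i).congr' ?_
        filter_upwards [eventually_gt_atTop i] with n hn
        exact heq (φ n) i (lt_of_lt_of_le hn (hφ.id_le n))
      have h1 : Tendsto (fun n => F (y (φ n))) atTop (𝓝 (F w)) :=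
        (hFc w hw).tendsto.comp (tendsto_nhdsWithin_iff.2 ⟨hlim, Eventually.of_forall fun n => hy _⟩)
      have h2 : Tendsto (fun n => F (z (φ n))) atTop (𝓝 (F w)) :=
        (hFc w hw).tendsto.comp (tendsto_nhdsWithin_iff.2 ⟨hlimz, Eventually.of_forall fun n => hz _⟩)
      have h3 := (h1.sub h2).abs
      rw [sub_self, abs_zero] at h3
      have h4 : ε ≤ 0 := ge_of_tendsto' h3 fun n => (hlt (φ n)).le
      linarith
    let a : ℕ → ℝ := fun n => (∑ i ∈ Icc 1 n, F (shift^[i] q)) / n
    have happ : ∀ ε : ℝ, 0 < ε → ∃ b : ℕ → ℝ, (∃ l, Tendsto b atTop (𝓝 l)) ∧ ∀ n, |a n - b n| ≤ ε := by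
      intro ε hε
      obtain ⟨m, hm⟩ := hunif ε hε
      let rep : (Fin m → Fin (M + 1)) → ℝ := fun w =>
        if h : ∃ y ∈ Orb q, ∀ i < m, y i = ext w i then F h.choose else 0
      have hdens : ∀ w : Fin m → Fin (M + 1), ∃ x : ℝ, Dens (occ q m (ext w)) x := by
        intro w
        obtain ⟨x, hx, -⟩ := hF m (ext w)
        exact ⟨x, hx⟩
      choose x hx using hdens
      let b : ℕ → ℝ := fun n => ∑ w : Fin m → Fin (M + 1), rep w * ((cnt (occ q m (ext w)) n : ℝ) / n)
      refine ⟨b, ⟨∑ w : Fin m → Fin (M + 1), rep w * x w, ?_⟩, ?_⟩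
      · exact tendsto_finsetSum _ fun w _ => (hx w).const_mul _
      · intro n
        -- the block at the place `i`
        let blk : ℕ → (Fin m → Fin (M + 1)) := fun i j =>
          ⟨q (i + j), Nat.lt_succ_of_le (hB (i + j)).2⟩
        have hblk : ∀ i, ∀ j < m, (shift^[i] q) j = ext (blk i) j := by
          intro i j hj
          rw [shift_iter, ext, dif_pos hj]
        have hocc : ∀ i w, occ q m (ext w) i ↔ blk i = w := by
          intro i w
          constructor
          · intro h
            funext j
            apply Fin.ext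
            have h1 := h j j.2
            rw [ext, dif_pos j.2] at h1
            exact h1
          · rintro rfl j hj
            rw [ext, dif_pos hj]
        have h1 : b n = (∑ i ∈ Icc 1 n, rep (blk i)) / n := by
          have h2 : ∀ w : Fin m → Fin (M + 1), (cnt (occ q m (ext w)) n : ℝ) =
              ∑ i ∈ Icc 1 n, if blk i = w then (1 : ℝ) else 0 := by
            intro w
            rw [cnt, card_filter]
            push_cast
            exact sum_congr rfl fun i _ => if_congr (hocc i w) rfl rfl
          show ∑ w : Fin m → Fin (M + 1), rep w * ((cnt (occ q m (ext w)) n : ℝ) / n) = _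
          simp only [h2, ← mul_div_assoc, ← sum_div, mul_sum]
          rw [sum_comm]
          congr 1
          refine sum_congr rfl fun i _ => ?_
          simp
        show |(∑ i ∈ Icc 1 n, F (shift^[i] q)) / n - b n| ≤ ε
        rw [h1, ← sub_div, ← sum_sub_distrib, abs_div, Nat.abs_cast]
        refine div_le_of_le_mul₀ (Nat.cast_nonneg n) hε.le ?_
        refine (abs_sum_le_sum_abs _ _).trans ?_
        refine (sum_le_sum (g := fun _ => ε) fun i _ => ?_).trans ?_
        · have hex : ∃ y ∈ Orb q, ∀ j < m, y j = ext (blk i) j := by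
            refine ⟨shift^[i] q, ?_, hblk i⟩
            rw [shift_iter]
            exact orb_mem q i
          have hrep : rep (blk i) = F hex.choose := dif_pos hex
          rw [hrep]
          refine hm _ ?_ _ hex.choose_spec.1 fun j hj => ?_
          · rw [shift_iter]
            exact orb_mem q i
          · rw [hblk i j hj, hex.choose_spec.2 j hj]
        · rw [sum_const, Nat.card_Icc, add_tsub_cancel_right, nsmul_eq_mul, mul_comm]
    have hcauchy : CauchySeq a := by
      rw [Metric.cauchySeq_iff']
      intro ε hε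
      obtain ⟨b, ⟨l, hl⟩, hab⟩ := happ (ε / 4) (by positivity)
      obtain ⟨N₀, hN⟩ := Metric.cauchySeq_iff'.1 hl.cauchySeq (ε / 4) (by positivity)
      refine ⟨N₀, fun n hn => ?_⟩
      have h1 := hN n hn
      have h2 := hab n
      have h3 := hab N₀
      rw [Real.dist_eq] at h1 ⊢
      rw [abs_le] at h2 h3
      rw [abs_lt] at h1 ⊢
      constructor <;> linarith
    exact cauchySeq_tendsto_of_complete hcauchy

end Pool.Agent.Q87.BS
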