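import Pool.Agent.Q87.BS.Defs

set_option autoImplicit false

/-!
# Job BS4: rules for the probabilities of words of digits
-/

namespace Pool.Agent.Q87.BS

open Finset

/-- The weighted sum of a function of words of digits. -/
noncomputable def TT (q : ℕ → ℕ) (M j m : ℕ) (f : (ℕ → ℕ) → ℝ) : ℝ :=
  ∑ w : Fin m → Fin M, f (ext w) * W q j m (ext w)

lemma ext_append_left {m1 m2 M : ℕ} (u : Fin m1 → Fin M) (v : Fin m2 → Fin M) (i : ℕ)
    (hi : i < m1) : ext (Fin.append u v) i = ext u i := by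
  unfold ext
  rw [dif_pos hi, dif_pos (by omega : i < m1 + m2)]
  have : (⟨i, by omega⟩ : Fin (m1 + m2)) = Fin.castAdd m2 ⟨i, hi⟩ := rfl
  rw [this, Fin.append_left]

lemma ext_append_right {m1 m2 M : ℕ} (u : Fin m1 → Fin M) (v : Fin m2 → Fin M) (i : ℕ) :
    ext (Fin.append u v) (m1 + i) = ext v i := by
  unfold ext
  by_cases hi : i < m2
  · rw [dif_pos hi, dif_pos (by omega : m1 + i < m1 + m2)]
    have : (⟨m1 + i, by omega⟩ : Fin (m1 + m2)) = Fin.natAdd m1 ⟨i, hi⟩ := rfl
    rw [this, Fin.append_right]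
  · rw [dif_neg hi, dif_neg (by omega)]

lemma W_congr (q : ℕ → ℕ) (j m : ℕ) (w w' : ℕ → ℕ) (h : ∀ i < m, w i = w' i) :
    W q j m w = W q j m w' := by
  unfold W
  apply Finset.prod_congr rfl
  intro i hi
  rw [h i (Finset.mem_range.1 hi)]

lemma W_add (q : ℕ → ℕ) (j m1 m2 : ℕ) (w : ℕ → ℕ) :
    W q j (m1 + m2) w = W q j m1 w * W q (j + m1) m2 (fun i => w (m1 + i)) := by
  unfold W
  rw [Finset.prod_range_add]
  congr 1
  apply Finset.prod_congr rfl
  intro i _
  rw [add_assoc]

lemma TT_split (q : ℕ → ℕ) (M j m1 m2 : ℕ) (f g : (ℕ → ℕ) → ℝ)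
    (hf : ∀ w w' : ℕ → ℕ, (∀ i < m1, w i = w' i) → f w = f w') :
    TT q M j (m1 + m2) (fun w => f w * g (fun i => w (m1 + i))) =
      TT q M j m1 f * TT q M (j + m1) m2 g := by
  unfold TT
  rw [← (Fin.appendEquiv m1 m2).sum_comp, Fintype.sum_prod_type, Finset.sum_mul_sum]
  apply Finset.sum_congr rfl
  intro u _
  apply Finset.sum_congr rfl
  intro v _
  have e1 : Fin.appendEquiv m1 m2 (u, v) = Fin.append u v := rfl
  rw [e1]
  have e2 : (fun i => ext (Fin.append u v) (m1 + i)) = ext v := by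
    funext i
    exact ext_append_right u v i
  have e3 : (fun w => f w * g fun i => w (m1 + i)) (ext (Fin.append u v)) =
      f (ext (Fin.append u v)) * g (fun i => ext (Fin.append u v) (m1 + i)) := rfl
  rw [W_add, e3, e2, hf (ext (Fin.append u v)) (ext u) (fun i hi => ext_append_left u v i hi),
    W_congr q j m1 (ext (Fin.append u v)) (ext u) (fun i hi => ext_append_left u v i hi)]
  ring

lemma TT_zero (q : ℕ → ℕ) (M j : ℕ) : TT q M j 0 (fun _ => 1) = 1 := by
  unfold TT W
  simp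

lemma TT_single (q : ℕ → ℕ) (M j : ℕ) (h : Bd q M) : TT q M j 1 (fun _ => 1) = 1 := by
  unfold TT W
  rw [← (Equiv.funUnique (Fin 1) (Fin M)).symm.sum_comp]
  have h1 : ∀ x : Fin M, (1 : ℝ) * ∏ i ∈ range 1,
      (if ext ((Equiv.funUnique (Fin 1) (Fin M)).symm x) i < q (j + i) then
        ((q (j + i) : ℝ))⁻¹ else 0) = if (x : ℕ) < q j then ((q j : ℝ))⁻¹ else 0 := by
    intro x
    rw [Finset.prod_range_one, one_mul]
    have : ext ((Equiv.funUnique (Fin 1) (Fin M)).symm x) 0 = (x : ℕ) := by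
      unfold ext
      rw [dif_pos (by norm_num)]
      rfl
    rw [this, add_zero]
  rw [Finset.sum_congr rfl (fun x _ => h1 x)]
  rw [Fin.sum_univ_eq_sum_range (fun x => if x < q j then ((q j : ℝ))⁻¹ else 0) M]
  rw [← Finset.sum_filter]
  have h2 : (range M).filter (fun x => x < q j) = range (q j) := by
    ext x
    have := (h j).2
    simp only [Finset.mem_filter, Finset.mem_range]
    omega
  rw [h2, Finset.sum_const, Finset.card_range, nsmul_eq_mul]
  have := (h j).1
  exact mul_inv_cancel₀ (by positivity)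

lemma TT_one (q : ℕ → ℕ) (M : ℕ) (h : Bd q M) (m : ℕ) : ∀ j, TT q M j m (fun _ => 1) = 1 := by
  induction m with
  | zero => exact fun j => TT_zero q M j
  | succ m ih =>
    intro j
    have := TT_split q M j m 1 (fun _ => 1) (fun _ => 1) (fun _ _ _ => rfl)
    simp only [mul_one] at this
    rw [this, ih j, TT_single q M (j + m) h, mul_one]

open Classical in
/-- The indicator function of a property of words. -/
noncomputable def ind (E : (ℕ → ℕ) → Prop) (w : ℕ → ℕ) : ℝ := if E w then 1 else 0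

lemma pr_eq_TT (q : ℕ → ℕ) (M j m : ℕ) (E : (ℕ → ℕ) → Prop) :
    pr q M j m E = TT q M j m (ind E) := by
  unfold pr TT ind
  apply Finset.sum_congr rfl
  intro w _
  split_ifs <;> simp

lemma ind_loc {m : ℕ} {E : (ℕ → ℕ) → Prop} (h : Loc m E) :
    ∀ w w' : ℕ → ℕ, (∀ i < m, w i = w' i) → ind E w = ind E w' := by
  intro w w' hw
  have := h w w' hw
  unfold ind
  by_cases c : E w
  · rw [if_pos c, if_pos (this.1 c)]
  · rw [if_neg c, if_neg (fun c' => c (this.2 c'))]

lemma TT_shift (q : ℕ → ℕ) (M : ℕ) (h : Bd q M) (j a m' r : ℕ) (f : (ℕ → ℕ) → ℝ)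
    (hf : ∀ w w' : ℕ → ℕ, (∀ i < m', w i = w' i) → f w = f w') :
    TT q M j (a + (m' + r)) (fun w => f (fun i => w (a + i))) = TT q M (j + a) m' f := by
  have h1 := TT_split q M j a (m' + r) (fun _ => 1) f (fun _ _ _ => rfl)
  simp only [one_mul] at h1
  rw [h1, TT_one q M h a j, one_mul]
  have h2 := TT_split q M (j + a) m' r f (fun _ => 1) hf
  simp only [mul_one] at h2
  rw [h2, TT_one q M h r, mul_one]

/-- Job BS4. -/
theorem pr_all : S_pr := by
  refine ⟨?_, ?_, ?_⟩
  · intro q M j m h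
    rw [pr_eq_TT]
    have : ind (fun _ => True) = fun _ => 1 := by
      funext w
      unfold ind
      simp
    rw [this]
    exact TT_one q M h m j
  · intro q M j m a m' E h hm hE
    obtain ⟨r, rfl⟩ := Nat.exists_eq_add_of_le hm
    rw [pr_eq_TT, pr_eq_TT, add_assoc]
    exact TT_shift q M h j a m' r (ind E) (ind_loc hE)
  · intro q M j m a1 m1 a2 m2 E1 E2 h h1 h2 hE1 hE2
    obtain ⟨r, rfl⟩ := Nat.exists_eq_add_of_le h2
    obtain ⟨d, rfl⟩ := Nat.exists_eq_add_of_le h1
    rw [pr_eq_TT, pr_eq_TT, pr_eq_TT]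
    have e1 : ind (fun w => E1 (fun i => w (a1 + i)) ∧ E2 (fun i => w (a1 + m1 + d + i))) =
        fun w : ℕ → ℕ => (fun w' : ℕ → ℕ => ind E1 w' *
          (fun w'' : ℕ → ℕ => (fun w3 : ℕ → ℕ => ind E2 w3) (fun i => w'' (d + i)))
            (fun i => w' (m1 + i))) (fun i => w (a1 + i)) := by
      funext w
      have e2 : (fun i => w (a1 + (m1 + (d + i)))) = fun i => w (a1 + m1 + d + i) := by
        funext i
        congr 1
        ring
      simp only [e2]
      unfold ind
      by_cases c1 : E1 (fun i => w (a1 + i)) <;> by_cases c2 : E2 (fun i => w (a1 + m1 + d + i)) <;>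
        simp [c1, c2]
    rw [e1]
    have e3 : a1 + m1 + d + m2 + r = a1 + ((m1 + (d + (m2 + r))) + 0) := by ring
    rw [e3, TT_shift q M h j a1 (m1 + (d + (m2 + r))) 0
      (fun w' : ℕ → ℕ => ind E1 w' *
          (fun w'' : ℕ → ℕ => (fun w3 : ℕ → ℕ => ind E2 w3) (fun i => w'' (d + i)))
            (fun i => w' (m1 + i)))]
    · rw [TT_split q M (j + a1) m1 (d + (m2 + r)) (ind E1)
        (fun w'' : ℕ → ℕ => (fun w3 : ℕ → ℕ => ind E2 w3) (fun i => w'' (d + i))) (ind_loc hE1)]
      rw [TT_shift q M h (j + a1 + m1) d m2 r (fun w3 : ℕ → ℕ => ind E2 w3) (ind_loc hE2)]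
      have e4 : j + a1 + m1 + d = j + (a1 + m1 + d) := by ring
      rw [e4]
    · intro w w' hw
      have g1 := ind_loc hE1 w w' (fun i hi => hw i (by omega))
      have g2 := ind_loc hE2 (fun i => w (m1 + (d + i))) (fun i => w' (m1 + (d + i)))
        (fun i hi => hw _ (by omega))
      show ind E1 w * ind E2 (fun i => w (m1 + (d + i))) =
        ind E1 w' * ind E2 (fun i => w' (m1 + (d + i)))
      rw [g1, g2]

end Pool.Agent.Q87.BS
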