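import Pool.Agent.Q87.BS.Defs

set_option autoImplicit false

/-!
# Job BS5: most words of digits decode their block
-/

namespace Pool.Agent.Q87.BS

open Finset

namespace Prob

lemma c_le (h1 : S_sig) (b : ℕ → ZMod 2) (n : ℕ) : c b n ≤ 7 := by
  unfold c
  have := h1.1 0 n
  have h2 : (b n).val < 2 := ZMod.val_lt (b n)
  omega

lemma q_form (h1 : S_sig) (b : ℕ → ZMod 2) (m : ℕ) : ∃ s, 1 ≤ s ∧ s ≤ 9 ∧ q b m = 2 ^ (10 * s) := by
  have := c_le h1 b (m / 3)
  unfold q
  split_ifs with c1 c2
  · exact ⟨9, by norm_num, by norm_num, rfl⟩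
  · exact ⟨c b (m / 3) + 1, by omega, by omega, rfl⟩
  · exact ⟨8 - c b (m / 3), by omega, by omega, rfl⟩

lemma bd (h1 : S_sig) (b : ℕ → ZMod 2) : Bd (q b) (2 ^ 90) := by
  intro m
  obtain ⟨s, hs1, hs2, hs⟩ := q_form h1 b m
  rw [hs]
  constructor
  · calc 2 = 2 ^ 1 := by norm_num
      _ ≤ 2 ^ (10 * s) := Nat.pow_le_pow_right (by norm_num) (by omega)
  · exact Nat.pow_le_pow_right (by norm_num) (by omega)

lemma W_nonneg (q : ℕ → ℕ) (j m : ℕ) (w : ℕ → ℕ) : 0 ≤ W q j m w := by
  unfold W
  apply Finset.prod_nonneg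
  intro i _
  split_ifs <;> positivity

lemma pr_mono (q : ℕ → ℕ) (M j m : ℕ) (E F : (ℕ → ℕ) → Prop) (h : ∀ w, E w → F w) :
    pr q M j m E ≤ pr q M j m F := by
  unfold pr
  apply Finset.sum_le_sum
  intro w _
  have := W_nonneg q j m (ext w)
  split_ifs with c1 c2 c2
  · exact le_rfl
  · exact absurd (h _ c1) c2
  · exact this
  · exact le_rfl

open Classical in
lemma pr_union {ι : Type} (q : ℕ → ℕ) (M j m : ℕ) (s : Finset ι) (E : ι → (ℕ → ℕ) → Prop) :
    pr q M j m (fun w => ∃ i ∈ s, E i w) ≤ ∑ i ∈ s, pr q M j m (E i) := by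
  unfold pr
  rw [Finset.sum_comm]
  apply Finset.sum_le_sum
  intro w _
  have h0 := W_nonneg q j m (ext w)
  have hn : ∀ i ∈ s, (0 : ℝ) ≤ if E i (ext w) then W q j m (ext w) else 0 := by
    intro i _
    split_ifs
    · exact h0
    · exact le_rfl
  split_ifs with c1
  · obtain ⟨i, hi, hE⟩ := c1
    calc W q j m (ext w) = if E i (ext w) then W q j m (ext w) else 0 := by rw [if_pos hE]
      _ ≤ _ := Finset.single_le_sum (f := fun i => if E i (ext w) then W q j m (ext w) else 0)
        hn hi
  · exact Finset.sum_nonneg hn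

/-- The probability that one digit is small. -/
lemma pr_single (b : ℕ → ZMod 2) (h1 : S_sig) (p M : ℕ) :
    pr (q b) M p 1 (fun w => 2 ^ 10 * w 0 < q b p) ≤ 1 / 2 ^ 10 := by
  classical
  obtain ⟨s, hs1, hs2, hs⟩ := q_form h1 b p
  unfold pr W
  rw [← (Equiv.funUnique (Fin 1) (Fin M)).symm.sum_comp]
  refine le_trans (Finset.sum_le_sum (g := fun x : Fin M =>
    if (x : ℕ) < 2 ^ (10 * (s - 1)) then ((q b p : ℝ))⁻¹ else 0) (fun x _ => ?_)) ?_
  · have e2 : ext ((Equiv.funUnique (Fin 1) (Fin M)).symm x) 0 = (x : ℕ) := by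
      unfold ext
      rw [dif_pos (by norm_num)]
      rfl
    rw [Finset.prod_range_one, e2, add_zero]
    have hpos : (0 : ℝ) ≤ ((q b p : ℝ))⁻¹ := by positivity
    by_cases cx : (x : ℕ) < 2 ^ (10 * (s - 1))
    · rw [if_pos cx]
      split_ifs <;> first | exact le_rfl | exact hpos
    · rw [if_neg cx]
      have : ¬ 2 ^ 10 * (x : ℕ) < q b p := by
        rw [hs]
        have e3 : 10 * s = 10 + 10 * (s - 1) := by omega
        rw [e3, pow_add]
        intro hlt
        exact cx (Nat.lt_of_mul_lt_mul_left hlt)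
      have this2 : ¬ (fun w : ℕ → ℕ => 2 ^ 10 * w 0 < q b p)
          (ext ((Equiv.funUnique (Fin 1) (Fin M)).symm x)) := by
        show ¬ 2 ^ 10 * ext ((Equiv.funUnique (Fin 1) (Fin M)).symm x) 0 < q b p
        rw [e2]
        exact this
      rw [if_neg this2]
  rw [Fin.sum_univ_eq_sum_range
    (fun x => if x < 2 ^ (10 * (s - 1)) then ((q b p : ℝ))⁻¹ else 0) M]
  rw [← Finset.sum_filter, Finset.sum_const, nsmul_eq_mul]
  have e4 : ((range M).filter (fun x => x < 2 ^ (10 * (s - 1)))).card ≤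
      2 ^ (10 * (s - 1)) := by
    have e6 : ∀ A B : ℕ, ((range A).filter (fun x => x < B)).card ≤ B := by
      intro A B
      calc _ ≤ (range B).card := by
            apply Finset.card_le_card
            intro x hx
            exact Finset.mem_range.2 (Finset.mem_filter.1 hx).2
        _ = _ := Finset.card_range _
    exact e6 _ _
  have e5 : (((range M).filter (fun x => x < 2 ^ (10 * (s - 1)))).card : ℝ) ≤
      2 ^ (10 * (s - 1)) := by exact_mod_cast e4
  have hq : (q b p : ℝ) = 2 ^ 10 * 2 ^ (10 * (s - 1)) := by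
    rw [hs]
    have e3 : 10 * s = 10 + 10 * (s - 1) := by omega
    rw [e3, pow_add]
    push_cast
    ring
  rw [hq]
  calc _ ≤ (2 : ℝ) ^ (10 * (s - 1)) * (2 ^ 10 * 2 ^ (10 * (s - 1)))⁻¹ := by
        apply mul_le_mul_of_nonneg_right e5
        positivity
    _ = 1 / 2 ^ 10 := by
        field_simp

lemma SG_loc (b : ℕ → ZMod 2) (k J : ℕ) : Loc (3 * L k) (fun w => ¬ SG b k J w) := by
  intro w w' h
  have key : ∀ u v : ℕ → ℕ, (∀ i < 3 * L k, u i = v i) → SG b k J u → SG b k J v := by
    intro u v huv hu p hp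
    exact hu p (fun i hi => by rw [huv i hi]; exact hp i hi)
  exact not_congr ⟨key w w' h, key w' w (fun i hi => (h i hi).symm)⟩

lemma base_case (h1 : S_sig) (h2 : S_base) (h4 : S_pr) (b : ℕ → ZMod 2) (J : ℕ) :
    pr (q b) (2 ^ 90) (3 * (J * L 0)) (3 * L 0) (fun w => ¬ SG b 0 J w) ≤ 1 / (256 * 4 ^ 0) := by
  have hbd := bd h1 b
  have e0 : L 0 = 1 := rfl
  rw [e0, mul_one, mul_one]
  refine (pr_mono (q b) (2 ^ 90) (3 * J) 3 _
    (fun w => ∃ i ∈ range 3, 2 ^ 10 * w i < q b (3 * J + i)) ?_).trans ?_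
  · intro w hw
    by_contra hcon
    apply hw
    apply h2 b J w
    intro i hi
    by_contra hlt
    exact hcon ⟨i, Finset.mem_range.2 hi, by omega⟩
  refine (pr_union (q b) (2 ^ 90) (3 * J) 3 (range 3)
    (fun i w => 2 ^ 10 * w i < q b (3 * J + i))).trans ?_
  have e1 : ∀ i ∈ range 3, pr (q b) (2 ^ 90) (3 * J) 3
      (fun w => 2 ^ 10 * w i < q b (3 * J + i)) ≤ 1 / 2 ^ 10 := by
    intro i hi
    have hi3 := Finset.mem_range.1 hi
    have := h4.2.1 (q b) (2 ^ 90) (3 * J) 3 i 1 (fun w => 2 ^ 10 * w 0 < q b (3 * J + i)) hbd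
      (by omega) (by
        intro w w' hw
        show 2 ^ 10 * w 0 < q b (3 * J + i) ↔ 2 ^ 10 * w' 0 < q b (3 * J + i)
        rw [hw 0 (by norm_num)])
    have e2 : (fun w : ℕ → ℕ => (fun w : ℕ → ℕ => 2 ^ 10 * w 0 < q b (3 * J + i))
        (fun l => w (i + l))) = fun w : ℕ → ℕ => 2 ^ 10 * w i < q b (3 * J + i) := by
      funext w
      simp
    have this2 : pr (q b) (2 ^ 90) (3 * J) 3 (fun w => 2 ^ 10 * w i < q b (3 * J + i)) =
      pr (q b) (2 ^ 90) (3 * J + i) 1 (fun w => 2 ^ 10 * w 0 < q b (3 * J + i)) := by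
      rw [← this]
      congr 1
    rw [this2]
    exact pr_single b h1 (3 * J + i) _
  refine (Finset.sum_le_sum e1).trans ?_
  rw [Finset.sum_const, Finset.card_range]
  norm_num

end Prob

open Prob

/-- Job BS5. -/
theorem prob (h1 : S_sig) (h2 : S_base) (h3 : S_step) (h4 : S_pr) : S_prob := by
  intro b hb k
  induction k with
  | zero => exact fun J => base_case h1 h2 h4 b J
  | succ k ih =>
    intro J
    have hbd := bd h1 b
    set E : ℕ → (ℕ → ℕ) → Prop := fun t w => ¬ SG b k (J * N k + t)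
      (fun i => w (3 * (t * L k) + i)) with hE
    refine (pr_mono (q b) (2 ^ 90) (3 * (J * L (k + 1))) (3 * L (k + 1)) _
      (fun w => ∃ x ∈ ((range (N k)) ×ˢ (range (N k))).filter (fun x => x.1 < x.2),
        (E x.1 w ∧ E x.2 w)) ?_).trans ?_
    · intro w hw
      by_contra hcon
      push Not at hcon
      apply hw
      by_cases hex : ∃ t0 < N k, E t0 w
      · obtain ⟨t0, ht0, hE0⟩ := hex
        apply h3 b hb k J w t0
        intro t ht hne
        by_contra hEt
        rcases lt_or_gt_of_ne hne with hlt | hlt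
        · exact hcon (t, t0) (by simp [ht, ht0, hlt]) hEt hE0
        · exact hcon (t0, t) (by simp [ht, ht0, hlt]) hE0 hEt
      · push Not at hex
        apply h3 b hb k J w (N k)
        intro t ht _
        by_contra hEt
        exact hex t ht hEt
    refine (pr_union (q b) (2 ^ 90) (3 * (J * L (k + 1))) (3 * L (k + 1)) _ _).trans ?_
    have hpair : ∀ x ∈ ((range (N k)) ×ˢ (range (N k))).filter (fun x => x.1 < x.2),
        pr (q b) (2 ^ 90) (3 * (J * L (k + 1))) (3 * L (k + 1)) (fun w => E x.1 w ∧ E x.2 w) ≤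
          (1 / (256 * 4 ^ k)) * (1 / (256 * 4 ^ k)) := by
      intro x hx
      rw [Finset.mem_filter, Finset.mem_product, Finset.mem_range, Finset.mem_range] at hx
      obtain ⟨⟨hx1, hx2⟩, hlt⟩ := hx
      have hL := L_pos k
      have hLs : L (k + 1) = N k * L k := rfl
      have a1 : 3 * (x.1 * L k) + 3 * L k ≤ 3 * (x.2 * L k) := by
        have : (x.1 + 1) * L k ≤ x.2 * L k := Nat.mul_le_mul_right _ hlt
        nlinarith
      have a2 : 3 * (x.2 * L k) + 3 * L k ≤ 3 * L (k + 1) := by
        have : (x.2 + 1) * L k ≤ N k * L k := Nat.mul_le_mul_right _ hx2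
        rw [hLs]
        nlinarith
      have := h4.2.2 (q b) (2 ^ 90) (3 * (J * L (k + 1))) (3 * L (k + 1)) (3 * (x.1 * L k))
        (3 * L k) (3 * (x.2 * L k)) (3 * L k) (fun w => ¬ SG b k (J * N k + x.1) w)
        (fun w => ¬ SG b k (J * N k + x.2) w) hbd a1 a2 (SG_loc b k _) (SG_loc b k _)
      have e1 : 3 * (J * L (k + 1)) + 3 * (x.1 * L k) = 3 * ((J * N k + x.1) * L k) := by
        rw [hLs]; ring
      have e2 : 3 * (J * L (k + 1)) + 3 * (x.2 * L k) = 3 * ((J * N k + x.2) * L k) := by
        rw [hLs]; ring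
      rw [e1, e2] at this
      have hnn : ∀ j m F, 0 ≤ pr (q b) (2 ^ 90) j m F := by
        intro j m F
        unfold pr
        apply Finset.sum_nonneg
        intro w _
        have := W_nonneg (q b) j m (ext w)
        split_ifs
        · exact this
        · exact le_rfl
      calc pr (q b) (2 ^ 90) (3 * (J * L (k + 1))) (3 * L (k + 1)) (fun w => E x.1 w ∧ E x.2 w)
          = _ := this
        _ ≤ _ := mul_le_mul (ih _) (ih _) (hnn _ _ _) (by positivity)
    refine (Finset.sum_le_sum hpair).trans ?_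
    rw [Finset.sum_const, nsmul_eq_mul]
    have hcard : (2 : ℝ) * (((range (N k)) ×ˢ (range (N k))).filter (fun x => x.1 < x.2)).card ≤
        (N k : ℝ) ^ 2 := by
      have h5 : (((range (N k)) ×ˢ (range (N k))).filter (fun x => x.1 < x.2)).card +
          (((range (N k)) ×ˢ (range (N k))).filter (fun x => x.2 < x.1)).card ≤ N k * N k := by
        rw [← Finset.card_union_of_disjoint]
        · calc _ ≤ ((range (N k)) ×ˢ (range (N k))).card := by
                apply Finset.card_le_card
                intro x hx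
                rcases Finset.mem_union.1 hx with h | h
                · exact (Finset.mem_filter.1 h).1
                · exact (Finset.mem_filter.1 h).1
            _ = _ := by rw [Finset.card_product, Finset.card_range]
        · rw [Finset.disjoint_left]
          intro x hx hx'
          have := (Finset.mem_filter.1 hx).2
          have := (Finset.mem_filter.1 hx').2
          omega
      have h6 : (((range (N k)) ×ˢ (range (N k))).filter (fun x => x.1 < x.2)).card =
          (((range (N k)) ×ˢ (range (N k))).filter (fun x => x.2 < x.1)).card := by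
        apply Finset.card_bij (fun x _ => (x.2, x.1))
        · intro x hx
          simp only [Finset.mem_filter, Finset.mem_product] at hx ⊢
          exact ⟨⟨hx.1.2, hx.1.1⟩, hx.2⟩
        · intro x _ y _ hxy
          simp only [Prod.mk.injEq] at hxy
          exact Prod.ext hxy.2 hxy.1
        · intro x hx
          simp only [Finset.mem_filter, Finset.mem_product] at hx
          refine ⟨(x.2, x.1), ?_, rfl⟩
          simp only [Finset.mem_filter, Finset.mem_product]
          exact ⟨⟨hx.1.2, hx.1.1⟩, hx.2⟩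
      have h7 : 2 * (((range (N k)) ×ˢ (range (N k))).filter (fun x => x.1 < x.2)).card ≤
          N k ^ 2 := by rw [sq]; omega
      exact_mod_cast h7
    have hN : (N k : ℝ) ^ 2 = 64 * 4 ^ k := by
      unfold N
      push_cast
      rw [pow_add, mul_pow, ← pow_mul, mul_comm k 2, pow_mul]
      norm_num
      ring
    rw [hN] at hcard
    have h4k : (0 : ℝ) < 4 ^ k := by positivity
    have : ((((range (N k)) ×ˢ (range (N k))).filter (fun x => x.1 < x.2)).card : ℝ) ≤
        32 * 4 ^ k := by linarith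
    calc _ ≤ (32 * 4 ^ k : ℝ) * (1 / (256 * 4 ^ k) * (1 / (256 * 4 ^ k))) := by
          apply mul_le_mul_of_nonneg_right this
          positivity
      _ ≤ 1 / (256 * 4 ^ (k + 1)) := by
          rw [pow_succ]
          field_simp
          norm_num

end Pool.Agent.Q87.BS
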