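import Pool.Agent.Q87.BS.Defs

set_option autoImplicit false

namespace Pool.Agent.Q87.BS

open Filter Topology MeasureTheory Finset

theorem riesz : S_riesz := by
  intro X _ _ _ _ _ T x hT hav
  choose! Λ hΛ using hav
  let a : (X → ℝ) → ℕ → ℝ := fun F n => (∑ i ∈ Icc 1 n, F (T^[i] x)) / n
  have hΛ' : ∀ F : X → ℝ, Continuous F → Tendsto (a F) atTop (𝓝 (Λ F)) := hΛ
  have hadd : ∀ F G : X → ℝ, Continuous F → Continuous G → Λ (F + G) = Λ F + Λ G := by
    intro F G hF hG
    refine tendsto_nhds_unique (hΛ' _ (hF.add hG)) (((hΛ' F hF).add (hΛ' G hG)).congr fun n => ?_)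
    simp only [a, Pi.add_apply, sum_add_distrib, add_div]
  have hsmul : ∀ (c : ℝ) (F : X → ℝ), Continuous F → Λ (fun y => c * F y) = c * Λ F := by
    intro c F hF
    refine tendsto_nhds_unique (hΛ' _ (continuous_const.mul hF)) (((hΛ' F hF).const_mul c).congr fun n => ?_)
    simp only [a, ← mul_sum, mul_div_assoc]
  have hpos : ∀ F : X → ℝ, Continuous F → (∀ y, 0 ≤ F y) → 0 ≤ Λ F := by
    intro F hF h0
    refine ge_of_tendsto' (hΛ' F hF) fun n => ?_
    exact div_nonneg (sum_nonneg fun i _ => h0 _) (Nat.cast_nonneg n)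
  have hone : Λ (fun _ => (1 : ℝ)) = 1 := by
    refine tendsto_nhds_unique (hΛ' _ continuous_const) (tendsto_const_nhds.congr' ?_)
    filter_upwards [eventually_ge_atTop 1] with n hn
    have : (n : ℝ) ≠ 0 := by positivity
    simp only [a, sum_const, Nat.card_Icc, add_tsub_cancel_right, nsmul_eq_mul, mul_one]
    rw [div_self this]
  have hinv : ∀ F : X → ℝ, Continuous F → Λ (fun y => F (T y)) = Λ F := by
    intro F hF
    obtain ⟨C, hC⟩ : ∃ C : ℝ, ∀ y, |F y| ≤ C := by
      obtain ⟨C, hC⟩ := (isCompact_range hF).isBounded.exists_norm_le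
      exact ⟨C, fun y => hC _ ⟨y, rfl⟩⟩
    have h0 : Tendsto (fun n : ℕ => a (fun y => F (T y)) n - a F n) atTop (𝓝 0) := by
      refine squeeze_zero_norm' ?_ (tendsto_const_div_atTop_nhds_zero_nat (2 * C))
      filter_upwards [eventually_ge_atTop 1] with n hn
      have hn0 : (0 : ℝ) < n := by exact_mod_cast hn
      have h1 : a (fun y => F (T y)) n - a F n = (F (T^[n + 1] x) - F (T^[1] x)) / n := by
        simp only [a, ← sub_div]
        congr 1
        have h2 : ∀ m : ℕ, ∑ i ∈ Icc 1 m, F (T (T^[i] x)) - ∑ i ∈ Icc 1 m, F (T^[i] x) =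
            F (T^[m + 1] x) - F (T^[1] x) := by
          intro m
          induction m with
          | zero => simp
          | succ m ih =>
            rw [sum_Icc_succ_top (by omega), sum_Icc_succ_top (by omega),
              ← Function.iterate_succ_apply' T (m + 1) x]
            linarith
        exact h2 n
      rw [h1, norm_div, Real.norm_eq_abs, Real.norm_eq_abs, abs_of_pos hn0]
      refine div_le_div_of_nonneg_right ?_ hn0.le
      refine (abs_sub _ _).trans ?_
      linarith [hC (T^[n + 1] x), hC (T^[1] x)]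
    have h3 := (hΛ' _ (hF.comp hT)).sub (hΛ' F hF)
    have h4 := tendsto_nhds_unique h3 h0
    have h5 : Λ (F ∘ T) = Λ (fun y => F (T y)) := rfl
    rw [h5] at h4
    linarith
  let Λl : CompactlySupportedContinuousMap X ℝ →ₗ[ℝ] ℝ :=
    { toFun := fun F => Λ F
      map_add' := fun F G => hadd F G F.continuous G.continuous
      map_smul' := fun c F => hsmul c F F.continuous }
  let Λp := PositiveLinearMap.mk₀ Λl (fun F hF => hpos F F.continuous (fun y => CompactlySupportedContinuousMap.le_def.1 hF y))
  have hint : ∀ F : X → ℝ, Continuous F → ∫ y, F y ∂(RealRMK.rieszMeasure Λp) = Λ F := by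
    intro F hF
    exact RealRMK.integral_rieszMeasure Λp
      (⟨⟨F, hF⟩, HasCompactSupport.of_compactSpace F⟩ : CompactlySupportedContinuousMap X ℝ)
  set μ := RealRMK.rieszMeasure Λp with hμ
  have hfin : IsFiniteMeasure μ := by
    refine ⟨?_⟩
    have : IsFiniteMeasureOnCompacts μ := inferInstance
    exact isCompact_univ.measure_lt_top
  have hprob : IsProbabilityMeasure μ := by
    refine ⟨?_⟩
    have h1 := hint (fun _ => 1) continuous_const
    rw [hone, integral_const, smul_eq_mul, mul_one, Measure.real] at h1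
    rw [← ENNReal.toReal_eq_one_iff]
    exact h1
  refine ⟨μ, hprob, ⟨hT.measurable, ?_⟩, fun F hF => ?_⟩
  · have : IsFiniteMeasure (μ.map T) := Measure.isFiniteMeasure_map μ T
    refine ext_of_forall_integral_eq_of_IsFiniteMeasure fun F => ?_
    rw [integral_map hT.aemeasurable F.continuous.aestronglyMeasurable]
    rw [hint (fun y => F (T y)) (F.continuous.comp hT), hint F F.continuous]
    exact hinv F F.continuous
  · rw [hint F hF]
    exact hΛ F hF

end Pool.Agent.Q87.BS
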