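import Pool.Agent.Q87.BS.Freq

set_option autoImplicit false

/-! # Project BS: words of length `6 L k` have density at most `1 / |C k|` -/

namespace Pool.Agent.Q87.BS

open Finset Filter Topology

/-- The data bit of the second symbol of a letter. -/
def bitOf (y : ℕ) : ZMod 2 := ((Nat.log 2 y / 10 - 1 : ℕ) : ZMod 2)

lemma bitOf_q (b : ℕ → ZMod 2) (n : ℕ) : bitOf (q b (3 * n + 1)) = b n := by
  rw [q_one]
  unfold bitOf
  rw [Nat.log_pow (by norm_num)]
  have : 10 * (c b n + 1) / 10 - 1 = c b n := by omega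
  rw [this]
  unfold c
  push_cast
  rw [ZMod.natCast_zmod_val]
  have h2 : (2 : ZMod 2) = 0 := by decide
  rw [h2, zero_mul, zero_add]

theorem small : S_small := by
  classical
  intro b hb hg k B x hx
  have hL := L_pos k
  set Λ := 3 * L k with hΛ
  have hΛ0 : 0 < Λ := by omega
  have hΛr : (0 : ℝ) < Λ := by exact_mod_cast hΛ0
  let u : ℕ → Fin (L k) → ZMod 2 := fun ρ r => bitOf (B (3 * r + 1 + ρ))
  -- counting
  have hcount : ∀ n : ℕ, cnt (occ (q b) (6 * L k) B) n ≤ ∑ ρ ∈ range Λ,
      ((range (n / Λ + 2)).filter fun J => (fun r : Fin (L k) => b (J * L k + r)) = u ρ).card := by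
    intro n
    rw [← Finset.card_sigma]
    unfold cnt
    have hJ : ∀ j, 1 ≤ j → j ≤ Λ * ((j + Λ - 1) / Λ) ∧ Λ * ((j + Λ - 1) / Λ) < j + Λ := by
      intro j hj
      have h1 := Nat.div_add_mod (j + Λ - 1) Λ
      have h2 := Nat.mod_lt (j + Λ - 1) hΛ0
      constructor <;> omega
    apply Finset.card_le_card_of_injOn
      (fun j => (⟨Λ * ((j + Λ - 1) / Λ) - j, (j + Λ - 1) / Λ⟩ : Σ _ : ℕ, ℕ))
    · intro j hj
      have hj' := Finset.mem_filter.mp (Finset.mem_coe.mp hj)
      rw [Finset.mem_Icc] at hj'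
      obtain ⟨⟨hj1, hjn⟩, hocc⟩ := hj'
      obtain ⟨a1, a2⟩ := hJ j hj1
      apply Finset.mem_coe.mpr
      rw [Finset.mem_sigma, Finset.mem_range, Finset.mem_filter, Finset.mem_range]
      refine ⟨by simp only; omega, ?_, ?_⟩
      · simp only
        have h1 : (j + Λ - 1) / Λ ≤ (n + Λ) / Λ := Nat.div_le_div_right (by omega)
        rw [Nat.add_div_right _ hΛ0] at h1
        omega
      · simp only
        funext r
        have hr := r.2
        have e1 : (j + Λ - 1) / Λ * L k + (r : ℕ) = (j + Λ - 1) / Λ * L k + r := rfl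
        have e2 : 3 * ((j + Λ - 1) / Λ * L k + r) + 1 =
            j + (3 * r + 1 + (Λ * ((j + Λ - 1) / Λ) - j)) := by
          have : 3 * ((j + Λ - 1) / Λ * L k) = Λ * ((j + Λ - 1) / Λ) := by rw [hΛ]; ring
          omega
        have e3 := hocc (3 * r + 1 + (Λ * ((j + Λ - 1) / Λ) - j)) (by omega)
        rw [← e2] at e3
        rw [← bitOf_q b, e3]
    · intro j hj j' hj' h
      have hj1 := (Finset.mem_Icc.mp (Finset.mem_filter.mp (Finset.mem_coe.mp hj)).1).1
      have hj1' := (Finset.mem_Icc.mp (Finset.mem_filter.mp (Finset.mem_coe.mp hj')).1).1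
      simp only [Sigma.mk.injEq, heq_eq_eq] at h
      obtain ⟨h1, h2⟩ := h
      have b1 := hJ j hj1
      have b2 := hJ j' hj1'
      rw [h2] at h1 b1
      omega
  -- limits
  have hX : ∀ ρ, ∃ y : ℝ, y ≤ 1 / (C k).card ∧ Tendsto (fun n : ℕ =>
      (((range n).filter fun j => (fun r : Fin (L k) => b (j * L k + r)) = u ρ).card : ℝ) / n)
        atTop (𝓝 y) := by
    intro ρ
    by_cases hu : u ρ ∈ C k
    · refine ⟨_, le_refl _, (hg k (u ρ) hu).congr ?_⟩
      intro n
      congr 3
      apply Finset.filter_congr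
      intro j _
      rw [funext_iff]
    · refine ⟨0, by positivity, ?_⟩
      have : ∀ n : ℕ, (((range n).filter fun j =>
          (fun r : Fin (L k) => b (j * L k + r)) = u ρ).card : ℝ) / n = 0 := by
        intro n
        rw [Finset.filter_eq_empty_iff.mpr]
        · simp
        · intro j _ h
          apply hu
          rw [← h]
          exact block_mem hb k j
      simp only [this]
      exact tendsto_const_nhds
  choose y hy1 hy2 using hX
  have hdiv : Tendsto (fun n : ℕ => ((n / Λ + 2 : ℕ) : ℝ) / n) atTop (𝓝 (1 / Λ)) := by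
    have h0 : Tendsto (fun n : ℕ => (2 : ℝ) / n) atTop (𝓝 0) :=
      tendsto_const_div_atTop_nhds_zero_nat _
    have h1 := (tendsto_div_nat Λ hΛ0).add h0
    rw [add_zero] at h1
    refine h1.congr ?_
    intro n
    push_cast
    rw [add_div]
  have hat : Tendsto (fun n : ℕ => n / Λ + 2) atTop atTop :=
    (tendsto_add_atTop_nat 2).comp (Nat.tendsto_div_const_atTop hΛ0.ne')
  have hlim : Tendsto (fun n : ℕ => ∑ ρ ∈ range Λ,
      (((range (n / Λ + 2)).filter fun J =>
        (fun r : Fin (L k) => b (J * L k + r)) = u ρ).card : ℝ) / ((n / Λ + 2 : ℕ) : ℝ) *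
          (((n / Λ + 2 : ℕ) : ℝ) / n)) atTop (𝓝 (∑ ρ ∈ range Λ, y ρ * (1 / Λ))) := by
    apply tendsto_finsetSum
    intro ρ _
    exact ((hy2 ρ).comp hat).mul hdiv
  have hle : x ≤ ∑ ρ ∈ range Λ, y ρ * (1 / Λ) := by
    refine le_of_tendsto_of_tendsto hx hlim ?_
    filter_upwards [eventually_ge_atTop 1] with n hn
    have hn0 : (0 : ℝ) < n := by exact_mod_cast hn
    have h1 : (cnt (occ (q b) (6 * L k) B) n : ℝ) ≤ ∑ ρ ∈ range Λ,
        (((range (n / Λ + 2)).filter fun J =>
          (fun r : Fin (L k) => b (J * L k + r)) = u ρ).card : ℝ) := by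
      exact_mod_cast hcount n
    calc (cnt (occ (q b) (6 * L k) B) n : ℝ) / n ≤ (∑ ρ ∈ range Λ,
          (((range (n / Λ + 2)).filter fun J =>
            (fun r : Fin (L k) => b (J * L k + r)) = u ρ).card : ℝ)) / n :=
          div_le_div_of_nonneg_right h1 hn0.le
      _ = _ := by
          rw [Finset.sum_div]
          apply Finset.sum_congr rfl
          intro ρ _
          have : (((n / Λ + 2 : ℕ)) : ℝ) ≠ 0 := by positivity
          field_simp
  refine hle.trans ?_
  calc ∑ ρ ∈ range Λ, y ρ * (1 / Λ) ≤ ∑ _ρ ∈ range Λ, 1 / ((C k).card : ℝ) * (1 / Λ) := by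
        apply Finset.sum_le_sum
        intro ρ _
        exact mul_le_mul_of_nonneg_right (hy1 ρ) (by positivity)
    _ = 1 / (C k).card := by
        rw [Finset.sum_const, card_range, nsmul_eq_mul]
        field_simp

end Pool.Agent.Q87.BS
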