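import Pool.Agent.Q87.BS.Orb

set_option autoImplicit false

namespace Pool.Agent.Q87.BS

open Filter Topology MeasureTheory Finset

theorem sys (h15 : S_riesz) (h16 : S_orb) (h17 : S_ent) : S_sys := by
  classical
  intro q M κ hB hF hκ hfr
  obtain ⟨hK, hsh, hbd, hocc, hav⟩ := h16 q M hB hF
  -- the system
  let X : Type := Orb q
  let T : X → X := fun y => ⟨shift y.1, hsh y.1 y.2⟩
  let f : X → ℕ := fun y => y.1 0
  have hq : q ∈ Orb q := by
    have := orb_mem q 0
    simpa using this
  let x : X := ⟨q, hq⟩
  have hTi : ∀ (n : ℕ) (y : X), (T^[n] y).1 = shift^[n] y.1 := by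
    intro n
    induction n with
    | zero => intro y; rfl
    | succ n ih =>
      intro y
      rw [Function.iterate_succ_apply', Function.iterate_succ_apply']
      show shift (T^[n] y).1 = _
      rw [ih]
  have hfT : ∀ (n : ℕ) (y : X), f (T^[n] y) = y.1 n := by
    intro n y
    show (T^[n] y).1 0 = _
    rw [hTi, shift_iter]
    rfl
  have hXc : CompactSpace X := isCompact_iff_compactSpace.1 hK
  have hPol : PolishSpace X := (isClosed_closure : IsClosed (Orb q)).polishSpace
  letI mX : MeasurableSpace X := borel X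
  haveI bX : BorelSpace X := ⟨rfl⟩
  have hTc : Continuous T := by
    refine Continuous.subtype_mk (continuous_pi fun i => ?_) _
    exact (continuous_apply (i + 1)).comp continuous_subtype_val
  have hfc : Continuous f := (continuous_apply 0).comp continuous_subtype_val
  have hav' : ∀ F : X → ℝ, Continuous F → ∃ l : ℝ,
      Tendsto (fun n : ℕ => (∑ i ∈ Icc 1 n, F (T^[i] x)) / n) atTop (𝓝 l) := by
    intro F hFc
    let F' : (ℕ → ℕ) → ℝ := fun y => if h : y ∈ Orb q then F ⟨y, h⟩ else 0
    have hF' : ∀ y : X, F' y.1 = F y := fun y => dif_pos y.2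
    obtain ⟨l, hl⟩ := hav F' (by
      rw [continuousOn_iff_continuous_domRestrict]
      have : (Orb q).domRestrict F' = F := funext fun y => hF' y
      rw [this]
      exact hFc)
    refine ⟨l, hl.congr fun n => ?_⟩
    congr 1
    refine sum_congr rfl fun i _ => ?_
    rw [← hF', hTi]
  obtain ⟨μ, hμ, hmp, hlim⟩ := h15 X T x hTc hav'
  -- cylinders
  have hcyl : ∀ (m : ℕ) (B : ℕ → ℕ) (d : ℝ), Dens (occ q m B) d →
      μ.real {z : X | ∀ i < m, z.1 i = B i} = d := by
    intro m B d hd
    set Z : Set X := {z : X | ∀ i < m, z.1 i = B i} with hZ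
    have hZc : IsClopen Z := by
      have : Z = ⋂ i ∈ range m, {z : X | z.1 i = B i} := by
        ext z
        simp [hZ]
      rw [this]
      refine isClopen_biInter_finset fun i _ => ?_
      have h1 : {z : X | z.1 i = B i} = (fun z : X => z.1 i) ⁻¹' {B i} := rfl
      rw [h1]
      exact (isClopen_discrete _).preimage ((continuous_apply i).comp continuous_subtype_val)
    have hind : Continuous (Z.indicator (fun _ => (1 : ℝ))) := continuous_const.indicator
      (by
        rw [hZc.frontier_eq]
        simp)
    have h1 := hlim _ hind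
    rw [integral_indicator_const _ hZc.isOpen.measurableSet, smul_eq_mul, mul_one] at h1
    refine tendsto_nhds_unique h1 (hd.congr fun n => ?_)
    congr 1
    rw [cnt, card_filter]
    push_cast
    refine sum_congr rfl fun i _ => ?_
    rw [Set.indicator_apply]
    refine if_congr ?_ rfl rfl
    show (∀ j < m, q (i + j) = B j) ↔ ∀ j < m, (T^[i] x).1 j = B j
    rw [hTi]
    show _ ↔ ∀ j < m, shift^[i] q j = B j
    rw [shift_iter]
  have hsupp : ∀ U : Set X, IsOpen U → U.Nonempty → 0 < μ U := by
    rintro U hU ⟨y0, hy0⟩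
    obtain ⟨V, hV, rfl⟩ := isOpen_induced_iff.1 hU
    obtain ⟨I, u, hu, hIV⟩ := isOpen_pi_iff.1 hV y0.1 hy0
    let m := I.sup id + 1
    obtain ⟨d, hd, hpos⟩ := hF m y0.1
    have h1 := hcyl m y0.1 d hd
    have h2 : 0 < d := hpos (hocc y0.1 y0.2 m)
    have h3 : {z : X | ∀ i < m, z.1 i = y0.1 i} ⊆ Subtype.val ⁻¹' V := by
      intro z hz
      refine hIV fun i hi => ?_
      rw [hz i (Nat.lt_succ_of_le (Finset.le_sup (f := id) hi))]
      exact (hu i hi).2
    refine lt_of_lt_of_le ?_ (measure_mono h3)
    rw [← h1, Measure.real] at h2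
    exact (ENNReal.toReal_pos_iff.1 h2).1
  refine ⟨X, inferInstance, hPol, mX, bX, μ, T, f, x, hμ, hsupp, hTc, hmp, hfc,
    fun y => (hbd y.1 y.2 0).1, ?_, fun F hFc _ => hlim F hFc, fun n _ => (hfT n x).symm, ?_⟩
  · apply le_antisymm
    · refine le_generateFrom ?_
      rintro _ ⟨n, a, rfl⟩
      have h1 : {y : X | f (T^[n] y) = a} = (fun z : X => z.1 n) ⁻¹' {a} := by
        ext z
        show f (T^[n] z) = a ↔ z.1 n = a
        rw [hfT]
      rw [h1]
      exact (isOpen_discrete _).preimage ((continuous_apply n).comp continuous_subtype_val)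
    · refine continuous_iff_le_induced.1 ?_
      refine @continuous_pi X ℕ (fun _ => ℕ) (TopologicalSpace.generateFrom _) _ _ fun n => ?_
      refine @Continuous.mk X ℕ (TopologicalSpace.generateFrom _) _ _ fun s _ => ?_
      have h1 : (fun z : X => z.1 n) ⁻¹' s = ⋃ a ∈ s, {y : X | f (T^[n] y) = a} := by
        ext z
        simp only [Set.mem_preimage, Set.mem_iUnion, Set.mem_ofPred_eq, hfT, exists_prop,
          exists_eq_right']
      rw [h1]
      refine @isOpen_biUnion X ℕ (TopologicalSpace.generateFrom _) s _ fun a _ => ?_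
      exact TopologicalSpace.isOpen_generateFrom_of_mem ⟨n, a, rfl⟩
  · let g : X → Fin (M + 1) := fun y => ⟨y.1 0, Nat.lt_succ_of_le (hbd y.1 y.2 0).2⟩
    have hg : Measurable g := by
      have : Continuous g := by
        refine continuous_discrete_rng.2 fun a => ?_
        have h1 : g ⁻¹' {a} = (fun z : X => z.1 0) ⁻¹' {(a : ℕ)} := by
          ext z
          exact Fin.ext_iff
        rw [h1]
        exact (isOpen_discrete _).preimage ((continuous_apply 0).comp continuous_subtype_val)
      exact this.measurable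
    refine h17 X μ T hTc.measurable (M + 1) g hg κ hκ (hfr.mono fun m hm w => ?_)
    obtain ⟨d, hd, -⟩ := hF m (ext w)
    have h1 : {y : X | ∀ i : Fin m, g (T^[i] y) = w i} = {z : X | ∀ i < m, z.1 i = ext w i} := by
      ext z
      constructor
      · intro h i hi
        have h2 := congrArg Fin.val (h ⟨i, hi⟩)
        rw [ext, dif_pos hi, ← h2]
        exact (hfT i z).symm
      · intro h i
        apply Fin.ext
        have h2 := h i i.2
        rw [ext, dif_pos i.2] at h2
        rw [← h2]
        exact hfT i z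
    rw [h1, hcyl m (ext w) d hd]
    exact hm _ _ hd

end Pool.Agent.Q87.BS
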