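import Pool.Agent.Q87.BS.Defs

set_option autoImplicit false

namespace Pool.Agent.Q87.BS

open Filter Topology MeasureTheory Finset

theorem ud_cnt_eq (A : ℕ → Prop) [DecidablePred A] (n : ℕ) :
    cnt A n = ((Icc 1 n).filter A).card := by
  rw [cnt]
  congr

theorem ud_cnt_congr (A A' : ℕ → Prop) (n : ℕ) (h : ∀ j ∈ Icc 1 n, (A j ↔ A' j)) :
    cnt A n = cnt A' n := by
  classical
  rw [ud_cnt_eq, ud_cnt_eq, filter_congr h]

/-- the number with the digits `D` in the mixed radix `B` -/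
def uE (B D : ℕ → ℕ) : ℕ → ℕ
  | 0 => 0
  | m + 1 => uE B D m * B m + D m

/-- the product of the first bases -/
def uP (B : ℕ → ℕ) (m : ℕ) : ℕ := ∏ i ∈ range m, B i

theorem uP_succ (B : ℕ → ℕ) (m : ℕ) : uP B (m + 1) = uP B m * B m := prod_range_succ _ _

theorem uE_congr (B D D' : ℕ → ℕ) (m : ℕ) (h : ∀ i < m, D i = D' i) : uE B D m = uE B D' m := by
  induction m with
  | zero => rfl
  | succ m ih =>
    rw [uE, uE, ih fun i hi => h i (by omega), h m (by omega)]

theorem uE_congr' (B B' D : ℕ → ℕ) (m : ℕ) (h : ∀ i < m, B i = B' i) : uE B D m = uE B' D m := by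
  induction m with
  | zero => rfl
  | succ m ih =>
    rw [uE, uE, ih fun i hi => h i (by omega), h m (by omega)]

theorem uP_congr (B B' : ℕ → ℕ) (m : ℕ) (h : ∀ i < m, B i = B' i) : uP B m = uP B' m :=
  prod_congr rfl fun i hi => h i (mem_range.1 hi)

theorem uE_lt (B D : ℕ → ℕ) (m : ℕ) (h : ∀ i < m, D i < B i) : uE B D m < uP B m := by
  induction m with
  | zero => simp [uE, uP]
  | succ m ih =>
    have h1 := ih fun i hi => h i (by omega)
    have h2 := h m (by omega)
    rw [uE, uP_succ]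
    calc uE B D m * B m + D m < uE B D m * B m + B m := by omega
      _ = (uE B D m + 1) * B m := by ring
      _ ≤ uP B m * B m := Nat.mul_le_mul_right _ h1

theorem uE_surj (B : ℕ → ℕ) (m : ℕ) (hB : ∀ i < m, 0 < B i) :
    ∀ e < uP B m, ∃ D : ℕ → ℕ, (∀ i < m, D i < B i) ∧ uE B D m = e := by
  induction m with
  | zero =>
    intro e he
    refine ⟨fun _ => 0, fun i hi => by omega, ?_⟩
    simp only [uP, range_zero, prod_empty] at he
    rw [uE]
    omega
  | succ m ih =>
    intro e he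
    rw [uP_succ] at he
    have hBm := hB m (by omega)
    obtain ⟨D, hD, hE⟩ := ih (fun i hi => hB i (by omega)) (e / B m)
      ((Nat.div_lt_iff_lt_mul hBm).2 he)
    refine ⟨Function.update D m (e % B m), fun i hi => ?_, ?_⟩
    · rcases Nat.lt_or_ge i m with h | h
      · rw [Function.update_of_ne (by omega)]
        exact hD i h
      · have : i = m := by omega
        rw [this, Function.update_self]
        exact Nat.mod_lt _ hBm
    · rw [uE, Function.update_self, uE_congr B _ D m (fun i hi => Function.update_of_ne (by omega) _ _),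
        hE]
      exact Nat.div_add_mod' e (B m)

theorem uE_inj (B D D' : ℕ → ℕ) (m : ℕ) (h : ∀ i < m, D i < B i) (h' : ∀ i < m, D' i < B i)
    (he : uE B D m = uE B D' m) : ∀ i < m, D i = D' i := by
  induction m with
  | zero => intro i hi; omega
  | succ m ih =>
    rw [uE, uE] at he
    have h1 := h m (by omega)
    have h2 := h' m (by omega)
    have hBm : 0 < B m := by omega
    have h3 : D m = D' m := by
      have := congrArg (· % B m) he
      simp only [Nat.mul_add_mod_self_right, Nat.mod_eq_of_lt h1, Nat.mod_eq_of_lt h2] at this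
      exact this
    have h4 : uE B D m = uE B D' m := by
      rw [h3] at he
      exact Nat.eq_of_mul_eq_mul_right hBm (by omega)
    intro i hi
    rcases Nat.lt_or_ge i m with h5 | h5
    · exact ih (fun i hi => h i (by omega)) (fun i hi => h' i (by omega)) h4 i h5
    · have : i = m := by omega
      rw [this, h3]

theorem uE_add (B D : ℕ → ℕ) (n m : ℕ) : uE B D (n + m) =
    uE B D n * uP (fun i => B (n + i)) m + uE (fun i => B (n + i)) (fun i => D (n + i)) m := by
  induction m with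
  | zero => simp [uE, uP]
  | succ m ih =>
    rw [← add_assoc, uE, ih, uP_succ, uE]
    ring

theorem uP_add (B : ℕ → ℕ) (n m : ℕ) : uP B (n + m) = uP B n * uP (fun i => B (n + i)) m := by
  rw [uP, uP, uP, prod_range_add]

theorem P_eq (q : ℕ → ℕ) (n : ℕ) : P q n = uP (fun i => q (1 + i)) n := by
  induction n with
  | zero => simp [P, uP]
  | succ n ih =>
    rw [uP_succ, ← ih, P, P, prod_Icc_succ_top (by omega), add_comm 1 n]

theorem V_eq (m : ℕ) (B D : ℕ → ℕ) (h : ∀ i < m, D i < B i) : V m B D = ((uP B m : ℝ))⁻¹ := by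
  rw [V, uP]
  push_cast
  rw [← prod_inv_distrib]
  exact prod_congr rfl fun i hi => if_pos (h i (mem_range.1 hi))

/-- the fractional parts lie in the intervals given by the blocks -/
theorem fract_mem (q d : ℕ → ℕ) (M : ℕ) (x : ℝ) (hB : Bd q M) (hx : IsExp q d x) (n m : ℕ) :
    (uE (fun i => q (n + 1 + i)) (fun i => d (n + 1 + i)) m : ℝ) / uP (fun i => q (n + 1 + i)) m ≤
      Int.fract (P q n * x) ∧
    Int.fract (P q n * x) ≤
      ((uE (fun i => q (n + 1 + i)) (fun i => d (n + 1 + i)) m : ℝ) + 1) /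
        uP (fun i => q (n + 1 + i)) m := by
  obtain ⟨hdig, hfr, hsum⟩ := hx
  set B : ℕ → ℕ := fun i => q (1 + i) with hBdef
  set D : ℕ → ℕ := fun i => d (1 + i) with hDdef
  have hBpos : ∀ i, 0 < B i := fun i => by have := (hB (1 + i)).1; simp only [hBdef]; omega
  have hDB : ∀ i, D i < B i := fun i => hdig (1 + i) (by omega)
  have hPpos : ∀ k, 0 < uP B k := fun k => prod_pos fun i _ => hBpos i
  have hPr : ∀ k, (0 : ℝ) < uP B k := fun k => by exact_mod_cast hPpos k
  -- partial sums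
  let S : ℕ → ℝ := fun k => ∑ i ∈ range k, (d (i + 1) : ℝ) / P q (i + 1)
  have hS : ∀ k, S k = (uE B D k : ℝ) / uP B k := by
    intro k
    induction k with
    | zero => simp [S, uE]
    | succ k ih =>
      show ∑ i ∈ range (k + 1), (d (i + 1) : ℝ) / P q (i + 1) = _
      rw [sum_range_succ]
      show S k + _ = _
      rw [ih, P_eq, ← hBdef, uP_succ, uE]
      have h1 : (B k : ℝ) ≠ 0 := by exact_mod_cast (hBpos k).ne'
      have h2 := (hPr k).ne'
      have h3 : (d (k + 1) : ℝ) = (D k : ℝ) := by rw [hDdef, add_comm k 1]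
      rw [h3]
      push_cast
      field_simp
  have hSx : Tendsto S atTop (𝓝 x) := hsum.tendsto_sum_nat
  have hSmono : Monotone S := monotone_nat_of_le_succ fun k => by
    show S k ≤ ∑ i ∈ range (k + 1), (d (i + 1) : ℝ) / P q (i + 1)
    rw [sum_range_succ]
    have : (0 : ℝ) ≤ (d (k + 1) : ℝ) / P q (k + 1) := by positivity
    show S k ≤ S k + _
    linarith
  have hSle : ∀ k, S k ≤ x := fun k => hSmono.ge_of_tendsto hSx k
  let g : ℕ → ℝ := fun k => S k + 1 / uP B k
  have hgstep : ∀ k, g (k + 1) = g k - ((B k : ℝ) - 1 - D k) / uP B (k + 1) := by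
    intro k
    simp only [g, hS, uP_succ, uE]
    have h1 : (B k : ℝ) ≠ 0 := by exact_mod_cast (hBpos k).ne'
    have h2 := (hPr k).ne'
    push_cast
    field_simp
    ring
  have hDB' : ∀ k, (0 : ℝ) ≤ (B k : ℝ) - 1 - D k := by
    intro k
    have : (D k : ℝ) + 1 ≤ B k := by exact_mod_cast hDB k
    linarith
  have hganti : Antitone g := antitone_nat_of_succ_le fun k => by
    rw [hgstep]
    have := div_nonneg (hDB' k) (hPr (k + 1)).le
    linarith
  have hxg : ∀ k, x ≤ g k := by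
    intro k
    refine le_of_tendsto hSx ?_
    filter_upwards [eventually_ge_atTop k] with N hN
    have h1 := hganti hN
    have h2 : S N ≤ g N := by
      have : (0 : ℝ) < 1 / uP B N := by have := hPr N; positivity
      show S N ≤ S N + 1 / uP B N
      linarith
    linarith
  have hxg' : ∀ k, x < g k := by
    intro k
    obtain ⟨i, hi, hne⟩ := (frequently_atTop.1 hfr) (k + 1)
    obtain ⟨j, rfl⟩ : ∃ j, i = 1 + j := ⟨i - 1, by omega⟩
    have h1 : (D j : ℝ) + 2 ≤ B j := by
      have h2 : d (1 + j) < q (1 + j) := hDB j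
      have h3 : d (1 + j) + 2 ≤ q (1 + j) := by omega
      exact_mod_cast h3
    have h2 : g (j + 1) < g j := by
      rw [hgstep]
      have : 0 < ((B j : ℝ) - 1 - D j) / uP B (j + 1) := div_pos (by linarith) (hPr _)
      linarith
    have h3 : g j ≤ g k := hganti (by omega)
    linarith [hxg (j + 1)]
  -- the formula
  set Bn : ℕ → ℕ := fun i => q (n + 1 + i) with hBn
  set Dn : ℕ → ℕ := fun i => d (n + 1 + i) with hDn
  have eB : (fun i => B (n + i)) = Bn := by
    funext i; simp only [hBdef, hBn]; congr 1; omega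
  have eD : (fun i => D (n + i)) = Dn := by
    funext i; simp only [hDdef, hDn]; congr 1; omega
  have hPn : uP B (n + m) = uP B n * uP Bn m := by rw [uP_add, eB]
  have hEn : uE B D (n + m) = uE B D n * uP Bn m + uE Bn Dn m := by rw [uE_add, eB, eD]
  have hLampos : (0 : ℝ) < uP Bn m := by
    have : 0 < uP Bn m := prod_pos fun i _ => by have := (hB (n + 1 + i)).1; simp only [hBn]; omega
    exact_mod_cast this
  set R : ℝ := x - S (n + m) with hR
  have hR0 : 0 ≤ R := sub_nonneg.2 (hSle _)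
  have hR1 : R < 1 / uP B (n + m) := by
    have := hxg' (n + m)
    show x - S (n + m) < _
    have h : g (n + m) = S (n + m) + 1 / uP B (n + m) := rfl
    linarith
  set t : ℝ := (uE Bn Dn m : ℝ) / uP Bn m + uP B n * R with ht
  have hPx : (P q n : ℝ) * x = (uE B D n : ℝ) + t := by
    have h1 : x = S (n + m) + R := by rw [hR]; ring
    rw [P_eq, ← hBdef, h1, hS, hPn, hEn, ht]
    have h2 := (hPr n).ne'
    have h3 := hLampos.ne'
    push_cast
    field_simp
    ring
  have hE1 : (uE Bn Dn m : ℝ) + 1 ≤ uP Bn m := by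
    exact_mod_cast uE_lt Bn Dn m fun i _ => hdig (n + 1 + i) (by omega)
  have hPR : (uP B n : ℝ) * R < 1 / uP Bn m := by
    have h1 : (uP B n : ℝ) * R < uP B n * (1 / uP B (n + m)) := mul_lt_mul_of_pos_left hR1 (hPr n)
    have h2 : (uP B n : ℝ) * (1 / uP B (n + m)) = 1 / uP Bn m := by
      rw [hPn]
      have h2 := (hPr n).ne'
      have h3 := hLampos.ne'
      push_cast
      field_simp
    rwa [h2] at h1
  have hPR0 : 0 ≤ (uP B n : ℝ) * R := mul_nonneg (hPr n).le hR0
  have ht0 : 0 ≤ t := add_nonneg (by positivity) hPR0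
  have ht2 : t ≤ ((uE Bn Dn m : ℝ) + 1) / uP Bn m := by
    rw [add_div, ht]
    linarith
  have ht1 : t < 1 := by
    have h1 : t < ((uE Bn Dn m : ℝ) + 1) / uP Bn m := by
      rw [add_div, ht]
      linarith
    have h2 : ((uE Bn Dn m : ℝ) + 1) / uP Bn m ≤ 1 := by
      rw [div_le_one hLampos]
      exact hE1
    linarith
  have hfrt : Int.fract ((P q n : ℝ) * x) = t := by
    rw [hPx, Int.fract_natCast_add]
    exact Int.fract_eq_self.2 ⟨ht0, ht1⟩
  rw [hfrt]
  refine ⟨?_, ht2⟩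
  rw [ht]
  linarith

/-- the lower density -/
theorem ud_low (q d : ℕ → ℕ) (M : ℕ) (x : ℝ) (hB : Bd q M) (hF : HasFreq q) (hx : IsExp q d x)
    (hJ : Joint q d) (u v : ℝ) (hu : 0 ≤ u) (huv : u ≤ v) (hv : v ≤ 1) (ε : ℝ) (hε : 0 < ε) :
    ∀ᶠ n : ℕ in atTop, v - u - ε ≤
      (cnt (fun n => u ≤ Int.fract (P q n * x) ∧ Int.fract (P q n * x) < v) n : ℝ) / n := by
  classical
  obtain ⟨m, hm⟩ : ∃ m : ℕ, (1 / 2 : ℝ) ^ m < ε / 8 :=
    exists_pow_lt_of_lt_one (by positivity) (by norm_num)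
  have hdig := hx.1
  -- the blocks
  let 𝓑 : Finset (Fin m → Fin (M + 1)) := univ.filter fun B => ∀ i < m, 2 ≤ ext B i
  have hdens : ∀ B : Fin m → Fin (M + 1), ∃ y : ℝ, Dens (occ q m (ext B)) y := fun B => by
    obtain ⟨y, hy, -⟩ := hF m (ext B)
    exact ⟨y, hy⟩
  choose y hy using hdens
  have hy0 : ∀ B, 0 ≤ y B := fun B => ge_of_tendsto' (hy B) fun n => by positivity
  let blk : ℕ → (Fin m → Fin (M + 1)) := fun j i => ⟨q (j + i), Nat.lt_succ_of_le (hB (j + i)).2⟩
  have hblk : ∀ j, ∀ i < m, ext (blk j) i = q (j + i) := by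
    intro j i hi
    rw [ext, dif_pos hi]
  have hblkmem : ∀ j, blk j ∈ 𝓑 := by
    intro j
    simp only [𝓑, mem_filter, mem_univ, true_and]
    intro i hi
    rw [hblk j i hi]
    exact (hB _).1
  have hocc : ∀ j B, occ q m (ext B) j ↔ B = blk j := by
    intro j B
    constructor
    · intro h
      funext i
      apply Fin.ext
      have h1 := h i i.2
      rw [ext, dif_pos i.2] at h1
      exact h1.symm
    · rintro rfl i hi
      exact (hblk j i hi).symm
  -- the sets of numerators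
  let I : ℕ → Finset ℕ := fun Λ => Ico ⌈u * Λ⌉₊ (⌈v * Λ⌉₊ - 1)
  have hIcard : ∀ Λ : ℕ, (v - u) * Λ - 2 ≤ ((I Λ).card : ℝ) := by
    intro Λ
    simp only [I, Nat.card_Ico]
    have h1 : (v * Λ : ℝ) ≤ ⌈v * Λ⌉₊ := Nat.le_ceil _
    have h2 : (⌈u * Λ⌉₊ : ℝ) < u * Λ + 1 := Nat.ceil_lt_add_one (by positivity)
    have h3 : ((⌈v * Λ⌉₊ : ℝ) - 1) - ⌈u * Λ⌉₊ ≤ ((⌈v * Λ⌉₊ - 1 - ⌈u * Λ⌉₊ : ℕ) : ℝ) := by
      have h4 : (⌈v * Λ⌉₊ : ℕ) ≤ (⌈v * Λ⌉₊ - 1 - ⌈u * Λ⌉₊) + ⌈u * Λ⌉₊ + 1 := by omega
      have h5 : (⌈v * Λ⌉₊ : ℝ) ≤ ((⌈v * Λ⌉₊ - 1 - ⌈u * Λ⌉₊ : ℕ) : ℝ) + ⌈u * Λ⌉₊ + 1 := by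
        exact_mod_cast h4
      linarith
    linarith
  have hIsub : ∀ Λ : ℕ, ∀ e ∈ I Λ, e < Λ := by
    intro Λ e he
    simp only [I, mem_Ico] at he
    have h1 : ⌈v * Λ⌉₊ ≤ Λ := by
      refine Nat.ceil_le.2 ?_
      have : (0 : ℝ) ≤ Λ := Nat.cast_nonneg _
      nlinarith
    omega
  -- the numerator at the place `j`
  let En : ℕ → ℕ := fun j => uE (fun i => q (j + i)) (fun i => d (j + i)) m
  let Q : ℕ → Prop := fun j => En j ∈ I (uP (ext (blk j)) m)
  have hQA : ∀ n, Q (n + 1) → u ≤ Int.fract (P q n * x) ∧ Int.fract (P q n * x) < v := by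
    intro n hQ
    obtain ⟨h1, h2⟩ := fract_mem q d M x hB hx n m
    have e1 : uP (ext (blk (n + 1))) m = uP (fun i => q (n + 1 + i)) m :=
      uP_congr _ _ m (hblk (n + 1))
    have hQ' : En (n + 1) ∈ I (uP (fun i => q (n + 1 + i)) m) := by
      rw [← e1]; exact hQ
    set Λ := uP (fun i => q (n + 1 + i)) m with hLam
    have hLam0 : 0 < Λ := prod_pos fun i _ => by
      have := (hB (n + 1 + i)).1
      show 0 < q (n + 1 + i)
      omega
    have hLamr : (0 : ℝ) < Λ := by exact_mod_cast hLam0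
    simp only [I, mem_Ico] at hQ'
    obtain ⟨h3, h4⟩ := hQ'
    have h5 : u * Λ ≤ En (n + 1) := Nat.ceil_le.1 h3
    have h6 : ((En (n + 1) : ℝ) + 1) < v * Λ := by
      have h7 : En (n + 1) + 1 < ⌈v * Λ⌉₊ := by omega
      have h8 := Nat.lt_ceil.1 h7
      exact_mod_cast h8
    constructor
    · refine le_trans ?_ h1
      rw [le_div_iff₀ hLamr]
      exact h5
    · refine lt_of_le_of_lt h2 ?_
      rw [div_lt_iff₀ hLamr]
      exact h6
  -- the density of `Q`
  have hpiece : ∀ B ∈ 𝓑, ∀ e ∈ I (uP (ext B) m), Tendsto (fun n : ℕ =>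
      (cnt (fun j => occ q m (ext B) j ∧ En j = e) n : ℝ) / n) atTop
        (𝓝 (y B * ((uP (ext B) m : ℝ))⁻¹)) := by
    intro B hBm e he
    have hB2 : ∀ i < m, 2 ≤ ext B i := (mem_filter.1 hBm).2
    obtain ⟨D, hD, hDE⟩ := uE_surj (ext B) m (fun i hi => by have := hB2 i hi; omega) e
      (hIsub _ e he)
    have h1 := hJ m (ext B) D (y B) (hy B)
    rw [V_eq m (ext B) D hD] at h1
    refine h1.congr fun n => ?_
    congr 2
    refine ud_cnt_congr _ _ n fun j hj => ?_
    rw [mem_Icc] at hj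
    refine and_congr_right fun ho => ?_
    have hE : En j = uE (ext B) (fun i => d (j + i)) m :=
      uE_congr' _ _ _ m fun i hi => ho i hi
    have hd : ∀ i < m, d (j + i) < ext B i := by
      intro i hi
      rw [← ho i hi]
      exact hdig (j + i) (by omega)
    rw [hE]
    constructor
    · intro h
      rw [uE_congr (ext B) _ D m h, hDE]
    · intro h
      exact uE_inj (ext B) _ D m hd hD (h.trans hDE.symm)
  have hcount : ∀ n, (cnt Q n : ℝ) = ∑ B ∈ 𝓑, ∑ e ∈ I (uP (ext B) m),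
      (cnt (fun j => occ q m (ext B) j ∧ En j = e) n : ℝ) := by
    intro n
    simp only [cnt, card_filter]
    push_cast
    have h1 : ∀ j, (if Q j then (1 : ℝ) else 0) = ∑ B ∈ 𝓑, ∑ e ∈ I (uP (ext B) m),
        if (occ q m (ext B) j ∧ En j = e) then (1 : ℝ) else 0 := by
      intro j
      rw [sum_eq_single (blk j)]
      · have h2 : ∀ e, (if (occ q m (ext (blk j)) j ∧ En j = e) then (1 : ℝ) else 0) =
            if En j = e then 1 else 0 := by
          intro e
          simp only [(hocc j (blk j)).2 rfl, true_and]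
        simp only [h2, sum_ite_eq, Q]
      · intro B _ hne
        refine sum_eq_zero fun e _ => ?_
        rw [if_neg]
        rintro ⟨h, -⟩
        exact hne ((hocc j B).1 h)
      · intro h
        exact absurd (hblkmem j) h
    rw [sum_congr rfl fun j _ => h1 j, sum_comm]
    refine sum_congr rfl fun B _ => ?_
    rw [sum_comm]
  have hQlim : Tendsto (fun n : ℕ => (cnt Q n : ℝ) / n) atTop
      (𝓝 (∑ B ∈ 𝓑, ∑ e ∈ I (uP (ext B) m), y B * ((uP (ext B) m : ℝ))⁻¹)) := by
    have h1 : Tendsto (fun n : ℕ => ∑ B ∈ 𝓑, ∑ e ∈ I (uP (ext B) m),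
        (cnt (fun j => occ q m (ext B) j ∧ En j = e) n : ℝ) / n) atTop
        (𝓝 (∑ B ∈ 𝓑, ∑ e ∈ I (uP (ext B) m), y B * ((uP (ext B) m : ℝ))⁻¹)) :=
      tendsto_finsetSum _ fun B hB' => tendsto_finsetSum _ fun e he => hpiece B hB' e he
    refine h1.congr fun n => ?_
    rw [hcount n, sum_div]
    exact sum_congr rfl fun B _ => (sum_div _ _ _).symm
  -- the sum of the frequencies is one
  have hysum : ∑ B ∈ 𝓑, y B = 1 := by
    have h1 : Tendsto (fun n : ℕ => ∑ B ∈ 𝓑, (cnt (occ q m (ext B)) n : ℝ) / n) atTop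
        (𝓝 (∑ B ∈ 𝓑, y B)) := tendsto_finsetSum _ fun B _ => hy B
    refine tendsto_nhds_unique h1 (tendsto_const_nhds.congr' ?_)
    filter_upwards [eventually_ge_atTop 1] with n hn
    have hn0 : (n : ℝ) ≠ 0 := by positivity
    rw [← sum_div, eq_div_iff hn0, one_mul]
    simp only [cnt, card_filter]
    push_cast
    rw [sum_comm]
    have h2 : ∀ j, ∑ B ∈ 𝓑, (if occ q m (ext B) j then (1 : ℝ) else 0) = 1 := by
      intro j
      rw [sum_eq_single (blk j)]
      · rw [if_pos ((hocc j (blk j)).2 rfl)]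
      · intro B _ hne
        rw [if_neg fun h => hne ((hocc j B).1 h)]
      · intro h
        exact absurd (hblkmem j) h
    rw [sum_congr rfl fun j _ => h2 j]
    simp
  have hlow : v - u - ε / 4 ≤ ∑ B ∈ 𝓑, ∑ e ∈ I (uP (ext B) m), y B * ((uP (ext B) m : ℝ))⁻¹ := by
    have h1 : ∀ B ∈ 𝓑, y B * (v - u - ε / 4) ≤
        ∑ e ∈ I (uP (ext B) m), y B * ((uP (ext B) m : ℝ))⁻¹ := by
      intro B hBm
      have hB2 : ∀ i < m, 2 ≤ ext B i := (mem_filter.1 hBm).2
      have hLam2 : 2 ^ m ≤ uP (ext B) m := by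
        calc 2 ^ m = ∏ _i ∈ range m, 2 := by simp
          _ ≤ uP (ext B) m := prod_le_prod (fun _ _ => by norm_num) fun i hi => hB2 i (mem_range.1 hi)
      have hLam2r : (2 : ℝ) ^ m ≤ uP (ext B) m := by exact_mod_cast hLam2
      have hLamr : (0 : ℝ) < uP (ext B) m := lt_of_lt_of_le (by positivity) hLam2r
      rw [sum_const, nsmul_eq_mul]
      have h2 := hIcard (uP (ext B) m)
      have h3 : v - u - ε / 4 ≤ ((I (uP (ext B) m)).card : ℝ) * ((uP (ext B) m : ℝ))⁻¹ := by
        rw [← div_eq_mul_inv, le_div_iff₀ hLamr]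
        have h4 : 1 ≤ (1 / 2 : ℝ) ^ m * uP (ext B) m := by
          calc (1 : ℝ) = (1 / 2 : ℝ) ^ m * 2 ^ m := by rw [← mul_pow]; norm_num
            _ ≤ (1 / 2 : ℝ) ^ m * uP (ext B) m := by gcongr
        nlinarith
      calc y B * (v - u - ε / 4) ≤ y B * (((I (uP (ext B) m)).card : ℝ) * ((uP (ext B) m : ℝ))⁻¹) :=
            mul_le_mul_of_nonneg_left h3 (hy0 B)
        _ = _ := by ring
    calc v - u - ε / 4 = ∑ B ∈ 𝓑, y B * (v - u - ε / 4) := by
          rw [← sum_mul, hysum, one_mul]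
      _ ≤ _ := sum_le_sum h1
  -- the shift by one
  have hshift : ∀ n : ℕ, (cnt Q n : ℝ) ≤
      (cnt (fun n => u ≤ Int.fract (P q n * x) ∧ Int.fract (P q n * x) < v) n : ℝ) + 1 := by
    intro n
    have h1 : (Icc 1 n).filter Q ⊆ insert 1 (((Icc 1 n).filter
        (fun n => u ≤ Int.fract (P q n * x) ∧ Int.fract (P q n * x) < v)).image (· + 1)) := by
      intro j hj
      rw [mem_filter, mem_Icc] at hj
      rcases Nat.lt_or_ge j 2 with h | h
      · rw [mem_insert]
        left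
        omega
      · obtain ⟨k, rfl⟩ : ∃ k, j = k + 1 := ⟨j - 1, by omega⟩
        rw [mem_insert]
        right
        rw [mem_image]
        refine ⟨k, mem_filter.2 ⟨mem_Icc.2 (by omega), hQA k hj.2⟩, rfl⟩
    have h2 : cnt Q n ≤
        cnt (fun n => u ≤ Int.fract (P q n * x) ∧ Int.fract (P q n * x) < v) n + 1 := by
      rw [ud_cnt_eq, ud_cnt_eq]
      refine (card_le_card h1).trans ((card_insert_le _ _).trans ?_)
      exact Nat.add_le_add_right card_image_le 1
    exact_mod_cast h2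
  have hlim0 : Tendsto (fun n : ℕ => (1 : ℝ) / n) atTop (𝓝 0) := tendsto_const_div_atTop_nhds_zero_nat 1
  have hlim1 := hQlim.sub hlim0
  rw [sub_zero] at hlim1
  have h1 : ∀ᶠ n : ℕ in atTop, v - u - ε < (cnt Q n : ℝ) / n - 1 / n :=
    (tendsto_order.1 hlim1).1 _ (by linarith)
  filter_upwards [h1, eventually_ge_atTop 1] with n hn hn1
  have hn0 : (0 : ℝ) < n := by exact_mod_cast hn1
  refine hn.le.trans ?_
  rw [← sub_div]
  refine div_le_div_of_nonneg_right ?_ hn0.le
  linarith [hshift n]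

theorem ud : S_ud := by
  classical
  intro q M d x hB hF hx hJ u v hu huv hv
  have hlow := ud_low q d M x hB hF hx hJ
  rw [Dens, Metric.tendsto_atTop']
  intro ε hε
  have h1 := hlow u v hu huv.le hv (ε / 2) (by positivity)
  have h2 := hlow 0 u le_rfl hu (by linarith) (ε / 4) (by positivity)
  have h3 := hlow v 1 (by linarith) hv le_rfl (ε / 4) (by positivity)
  obtain ⟨N₀, hN⟩ := eventually_atTop.1 ((h1.and (h2.and h3)).and (eventually_ge_atTop 1))
  refine ⟨N₀, fun n hn => ?_⟩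
  obtain ⟨⟨h1, h2, h3⟩, hn1⟩ := hN n hn.le
  have hn0 : (0 : ℝ) < n := by exact_mod_cast hn1
  have hsum : (cnt (fun n => u ≤ Int.fract (P q n * x) ∧ Int.fract (P q n * x) < v) n : ℝ) +
      cnt (fun n => (0 : ℝ) ≤ Int.fract (P q n * x) ∧ Int.fract (P q n * x) < u) n +
      cnt (fun n => v ≤ Int.fract (P q n * x) ∧ Int.fract (P q n * x) < 1) n = n := by
    simp only [cnt, card_filter]
    push_cast
    rw [← sum_add_distrib, ← sum_add_distrib]
    have h4 : ∀ k : ℕ, (((if u ≤ Int.fract (P q k * x) ∧ Int.fract (P q k * x) < v then (1 : ℝ) else 0) +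
        if (0 : ℝ) ≤ Int.fract (P q k * x) ∧ Int.fract (P q k * x) < u then (1 : ℝ) else 0) +
        if v ≤ Int.fract (P q k * x) ∧ Int.fract (P q k * x) < 1 then (1 : ℝ) else 0) = 1 := by
      intro k
      have h5 := Int.fract_nonneg ((P q k : ℝ) * x)
      have h6 := Int.fract_lt_one ((P q k : ℝ) * x)
      rcases lt_or_ge (Int.fract ((P q k : ℝ) * x)) u with h7 | h7
      · rw [if_neg (by rintro ⟨h8, -⟩; linarith), if_pos ⟨h5, h7⟩,
          if_neg (by rintro ⟨h8, -⟩; linarith)]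
        norm_num
      · rcases lt_or_ge (Int.fract ((P q k : ℝ) * x)) v with h8 | h8
        · rw [if_pos ⟨h7, h8⟩, if_neg (by rintro ⟨-, h9⟩; linarith),
            if_neg (by rintro ⟨h9, -⟩; linarith)]
          norm_num
        · rw [if_neg (by rintro ⟨-, h9⟩; linarith), if_neg (by rintro ⟨-, h9⟩; linarith),
            if_pos ⟨h8, h6⟩]
          norm_num
    rw [sum_congr rfl fun k _ => h4 k]
    simp
  set a := (cnt (fun n => u ≤ Int.fract (P q n * x) ∧ Int.fract (P q n * x) < v) n : ℝ)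
  set b := (cnt (fun n => (0 : ℝ) ≤ Int.fract (P q n * x) ∧ Int.fract (P q n * x) < u) n : ℝ)
  set c' := (cnt (fun n => v ≤ Int.fract (P q n * x) ∧ Int.fract (P q n * x) < 1) n : ℝ)
  have h5 : a / n + b / n + c' / n = 1 := by
    rw [← add_div, ← add_div, hsum, div_self hn0.ne']
  rw [Real.dist_eq, abs_lt]
  constructor <;> linarith

end Pool.Agent.Q87.BS
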