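import Pool.Agent.Q87.BS.Joint

set_option autoImplicit false

/-! # Project BS: uniform normality -/

namespace Pool.Agent.Q87.BS

open Finset Filter Topology

theorem unif : S_unif := by
  classical
  intro q M d hB hF hdig hJ m hm B D hinf
  obtain ⟨x, hx, hpos⟩ := hF m B
  have hsum : ∀ n, ∑ j ∈ Icc 1 n, (if occ q m B j then V m B D else 0) =
      (cnt (occ q m B) n : ℝ) * V m B D := by
    intro n
    rw [cnt_eq_sum, Finset.sum_mul]
    apply Finset.sum_congr rfl
    intro j _
    split_ifs <;> simp
  have hV : 0 < V m B D := by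
    rcases (V_nonneg m B D).eq_or_lt with h | h
    · exfalso
      have hz : ∀ n, ∑ j ∈ Icc 1 n, (if occ q m B j then V m B D else 0) = 0 := by
        intro n; rw [hsum, ← h, mul_zero]
      simp only [hz] at hinf
      exact not_tendsto_const_atTop (0 : ℝ) atTop hinf
    · exact h
  have hx0 : 0 < x := by
    apply hpos
    by_contra hcon
    push Not at hcon
    have : ∀ n, cnt (occ q m B) n = 0 := by
      intro n
      unfold cnt
      rw [Finset.card_eq_zero, Finset.filter_eq_empty_iff]
      intro j _
      exact hcon j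
    have hz : ∀ n, ∑ j ∈ Icc 1 n, (if occ q m B j then V m B D else 0) = 0 := by
      intro n; rw [hsum, this, Nat.cast_zero, zero_mul]
    simp only [hz] at hinf
    exact not_tendsto_const_atTop (0 : ℝ) atTop hinf
  have h1 := hJ m B D x hx
  unfold Dens at h1 hx
  have h2 := h1.div (hx.mul_const (V m B D)) (by positivity)
  rw [div_self (by positivity)] at h2
  refine h2.congr' ?_
  filter_upwards [hinf.eventually_gt_atTop 0, eventually_ge_atTop 1] with n hn hn1
  rw [hsum] at hn
  simp only [Pi.div_apply]
  rw [hsum]
  have hn0 : (n : ℝ) ≠ 0 := by positivity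
  have hc0 : (cnt (occ q m B) n : ℝ) ≠ 0 := by
    intro h
    rw [h, zero_mul] at hn
    exact lt_irrefl _ hn
  field_simp

end Pool.Agent.Q87.BS
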