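import Pool.Agent.Q87.BS.Main
import Pool.Agent.Q87.BS.Bridge
import Pool.Agent.Q87.BS.Base
import Pool.Agent.Q87.BS.Ent
import Pool.Agent.Q87.BS.Unif
import Pool.Agent.Q87.BS.Small
import Pool.Agent.Q87.BS.Gen
import Pool.Agent.Q87.BS.Pr
import Pool.Agent.Q87.BS.Prob
import Pool.Agent.Q87.BS.Dec
import Pool.Agent.Q87.BS.UD
import Pool.Agent.Q87.BS.Riesz
import Pool.Agent.Q87.BS.Orb
import Pool.Agent.Q87.BS.Sys

set_option autoImplicit false

/-! # Project BS: the main theorem -/

namespace Pool.Agent.Q87.BS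

theorem main :
    ∃ q : ℕ → ℕ, NonDet q ∧ (∃ M, Bd q M) ∧ ∀ d x, IsExp q d x → Normal q d →
      UNormal q d ∧ UD (fun n => Int.fract (P q n * x)) :=
  main_of sig_all (dec pr_all (prob sig_all (base sig_all) (step sig_all) pr_all)) (joint pr_all)
    unif ud gen card (freq sig_all lf) small (sys riesz orb ent)

end Pool.Agent.Q87.BS
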