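import Pool.Agent.Q87.BS.Sig

set_option autoImplicit false

/-! # Project BS: the words with the parity condition -/

namespace Pool.Agent.Q87.BS

open Finset

lemma nsmul_N (k : ℕ) (x : ZMod 2) : N k • x = 0 := by
  have h : N k = 2 ^ (k + 2) * 2 := by unfold N; ring
  rw [h, mul_nsmul', two_nsmul, CharTwo.add_self_eq_zero, nsmul_zero]

lemma L_split {k' k : ℕ} (h : k' < k) : ∃ s, 0 < s ∧ L k = s * L (k' + 1) := by
  obtain ⟨s, hs⟩ := L_dvd (show k' + 1 ≤ k by omega)
  refine ⟨s, ?_, by rw [hs]; ring⟩
  rcases Nat.eq_zero_or_pos s with h0 | h0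
  · rw [h0, mul_zero] at hs
    have := L_pos k
    omega
  · exact h0

/-- Construction of sequences with the parity condition from blocks of level `k`. -/
lemma par_build (k : ℕ) (G : ℕ → ℕ → ZMod 2)
    (h1 : ∀ J, ∀ k' < k, ∀ i r, r < L k' → i * L (k' + 1) + L (k' + 1) ≤ L k →
      ∑ t ∈ range (N k'), G J (i * L (k' + 1) + t * L k' + r) = 0)
    (h2 : ∀ k', k ≤ k' → ∀ i r, r < L k' →
      ∑ t ∈ range (N k'), G ((i * L (k' + 1) + t * L k' + r) / L k) (r % L k) = 0) :
    Par (fun n => G (n / L k) (n % L k)) := by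
  intro k' i r hr
  have hLk := L_pos k
  have hL' := L_pos k'
  rcases Nat.lt_or_ge k' k with hk | hk
  · obtain ⟨s, hs0, hs⟩ := L_split hk
    have hlt : ∀ t < N k', t * L k' + r < L (k' + 1) := by
      intro t ht
      rw [L_succ]
      calc t * L k' + r < t * L k' + L k' := by omega
        _ = (t + 1) * L k' := by ring
        _ ≤ N k' * L k' := Nat.mul_le_mul_right _ ht
    have his : i % s < s := Nat.mod_lt _ hs0
    have hle : i % s * L (k' + 1) + L (k' + 1) ≤ L k := by
      rw [hs]
      calc i % s * L (k' + 1) + L (k' + 1) = (i % s + 1) * L (k' + 1) := by ring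
        _ ≤ s * L (k' + 1) := Nat.mul_le_mul_right _ his
    have hdec : ∀ t < N k', i * L (k' + 1) + t * L k' + r =
        L k * (i / s) + (i % s * L (k' + 1) + t * L k' + r) := by
      intro t _
      have : i = s * (i / s) + i % s := (Nat.div_add_mod _ _).symm
      conv_lhs => rw [this]
      rw [hs]; ring
    have hdiv : ∀ t < N k', (i * L (k' + 1) + t * L k' + r) / L k = i / s := by
      intro t ht
      have h5 := hlt t ht
      rw [hdec t ht, Nat.mul_add_div hLk,
        Nat.div_eq_of_lt (show i % s * L (k' + 1) + t * L k' + r < L k by omega), add_zero]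
    have hmod : ∀ t < N k', (i * L (k' + 1) + t * L k' + r) % L k =
        i % s * L (k' + 1) + t * L k' + r := by
      intro t ht
      rw [hdec t ht, Nat.mul_add_mod, Nat.mod_eq_of_lt]
      have := hlt t ht
      omega
    change ∑ t ∈ range (N k'), G ((i * L (k' + 1) + t * L k' + r) / L k)
      ((i * L (k' + 1) + t * L k' + r) % L k) = 0
    rw [Finset.sum_congr rfl fun t ht => by
      rw [hdiv t (mem_range.mp ht), hmod t (mem_range.mp ht)]]
    exact h1 (i / s) k' hk (i % s) r hr hle
  · obtain ⟨s, hs⟩ := L_dvd hk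
    have hmod : ∀ t, (i * L (k' + 1) + t * L k' + r) % L k = r % L k := by
      intro t
      rw [L_succ, hs, show i * (N k' * (L k * s)) + t * (L k * s) + r =
        r + L k * (i * N k' * s + t * s) by ring, Nat.add_mul_mod_self_left]
    change ∑ t ∈ range (N k'), G ((i * L (k' + 1) + t * L k' + r) / L k)
      ((i * L (k' + 1) + t * L k' + r) % L k) = 0
    rw [Finset.sum_congr rfl fun t _ => by rw [hmod t]]
    exact h2 k' hk i r hr

/-- Periodic repetition of a block. -/
lemma par_periodic {b : ℕ → ZMod 2} (hb : Par b) (k j : ℕ) :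
    Par (fun n => b (j * L k + n % L k)) := by
  apply par_build k (fun _ r => b (j * L k + r))
  · intro J k' hk i r hr _
    obtain ⟨s, _, hs⟩ := L_split hk
    have := hb k' (j * s + i) r hr
    rw [← this]
    apply Finset.sum_congr rfl
    intro t _
    congr 1
    rw [hs]; ring
  · intro k' _ i r _
    rw [Finset.sum_const, card_range]
    exact nsmul_N k' _

lemma mem_C {k : ℕ} {u : Fin (L k) → ZMod 2} :
    u ∈ C k ↔ ∃ b : ℕ → ZMod 2, Par b ∧ ∀ r : Fin (L k), u r = b r := by
  classical
  unfold C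
  rw [Finset.mem_filter]
  exact ⟨fun h => h.2, fun h => ⟨Finset.mem_univ _, h⟩⟩

lemma block_mem {b : ℕ → ZMod 2} (hb : Par b) (k j : ℕ) :
    (fun r : Fin (L k) => b (j * L k + r)) ∈ C k := by
  rw [mem_C]
  refine ⟨_, par_periodic hb k j, fun r => ?_⟩
  rw [Nat.mod_eq_of_lt r.2]

lemma par_add {b b' : ℕ → ZMod 2} (h : Par b) (h' : Par b') : Par (b + b') := by
  intro k j r hr
  simp only [Pi.add_apply, Finset.sum_add_distrib]
  rw [h k j r hr, h' k j r hr, add_zero]

lemma par_zero : Par 0 := by
  intro k j r _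
  simp

lemma par_sum {ι : Type} (S : Finset ι) (b : ι → ℕ → ZMod 2) (h : ∀ i ∈ S, Par (b i)) :
    Par (∑ i ∈ S, b i) := by
  classical
  induction S using Finset.induction_on with
  | empty => rw [Finset.sum_empty]; exact par_zero
  | insert a S ha ih =>
    rw [Finset.sum_insert ha]
    exact par_add (h a (Finset.mem_insert_self _ _))
      (ih fun i hi => h i (Finset.mem_insert_of_mem hi))

/-- Concatenation of `N k` blocks of level `k` with sum zero. -/
lemma par_mix (k : ℕ) (B : ℕ → ℕ → ZMod 2) (hB : ∀ t, Par (B t))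
    (hsum : ∀ r < L k, ∑ t ∈ range (N k), B t r = 0) :
    Par (fun n => B ((n / L k) % N k) (n % L k)) := by
  apply par_build k (fun J r => B (J % N k) r)
  · intro J k' _ i r hr _
    exact hB _ k' i r hr
  · intro k' hk i r hr
    have hLk := L_pos k
    rcases hk.eq_or_lt with h0 | h0
    · subst h0
      have hd : ∀ t ∈ range (N k), ((i * L (k + 1) + t * L k + r) / L k) % N k = t := by
        intro t ht
        rw [L_succ, show i * (N k * L k) + t * L k + r = L k * (i * N k + t) + r by ring,
          Nat.mul_add_div hLk, Nat.div_eq_of_lt hr, add_zero, Nat.mul_comm i, Nat.mul_add_mod,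
          Nat.mod_eq_of_lt (mem_range.mp ht)]
      rw [Finset.sum_congr rfl fun t ht => by rw [hd t ht, Nat.mod_eq_of_lt hr]]
      exact hsum r hr
    · obtain ⟨s, _, hs⟩ := L_split h0
      have hd : ∀ t, ((i * L (k' + 1) + t * L k' + r) / L k) % N k = (r / L k) % N k := by
        intro t
        rw [L_succ k', hs, L_succ k,
          show i * (N k' * (s * (N k * L k))) + t * (s * (N k * L k)) + r =
            L k * (N k * (i * N k' * s + t * s)) + r by ring, Nat.mul_add_div hLk,
          Nat.mul_add_mod]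
      rw [Finset.sum_congr rfl fun t _ => by rw [hd t], Finset.sum_const, card_range]
      exact nsmul_N k' _

lemma card_succ (k : ℕ) : (C k).card ^ (N k - 1) ≤ (C (k + 1)).card := by
  classical
  have hN := N_ge k
  have hLk := L_pos k
  -- extensions of the words
  have hch : ∀ u : {u // u ∈ C k}, ∃ b : ℕ → ZMod 2, Par b ∧ ∀ r : Fin (L k), u.1 r = b r :=
    fun u => mem_C.mp u.2
  choose E hE1 hE2 using hch
  let B : (Fin (N k - 1) → {u // u ∈ C k}) → ℕ → ℕ → ZMod 2 := fun f t =>
    if h : t < N k - 1 then E (f ⟨t, h⟩) else ∑ s : Fin (N k - 1), E (f s)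
  have hB : ∀ f t, Par (B f t) := by
    intro f t
    simp only [B]
    split_ifs
    · exact hE1 _
    · exact par_sum _ _ fun s _ => hE1 _
  have hsum : ∀ f, ∀ r < L k, ∑ t ∈ range (N k), B f t r = 0 := by
    intro f r _
    have h1 : N k = (N k - 1) + 1 := by omega
    rw [h1, Finset.sum_range_succ]
    have h2 : B f (N k - 1) r = ∑ s : Fin (N k - 1), E (f s) r := by
      simp only [B]
      rw [dif_neg (lt_irrefl _), Finset.sum_apply]
    have h3 : ∑ t ∈ range (N k - 1), B f t r = ∑ s : Fin (N k - 1), E (f s) r := by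
      rw [Finset.sum_range]
      apply Finset.sum_congr rfl
      intro s _
      simp only [B]
      rw [dif_pos s.2]
    rw [h2, h3]
    exact CharTwo.add_self_eq_zero _
  let F : (Fin (N k - 1) → {u // u ∈ C k}) → {v // v ∈ C (k + 1)} := fun f =>
    ⟨fun r => B f ((r / L k) % N k) (r % L k), by
      rw [mem_C]
      exact ⟨_, par_mix k (B f) (hB f) (hsum f), fun r => rfl⟩⟩
  have hF : Function.Injective F := by
    intro f g hfg
    funext t
    apply Subtype.ext
    funext r
    have h1 := congrFun (congrArg Subtype.val hfg)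
      ⟨t * L k + r, by
        rw [L_succ]
        have ht := t.2
        have hr := r.2
        calc (t : ℕ) * L k + r < t * L k + L k := by omega
          _ = (t + 1) * L k := by ring
          _ ≤ N k * L k := Nat.mul_le_mul_right _ (by omega)⟩
    simp only [F] at h1
    have ht := t.2
    have hd : ((t : ℕ) * L k + r) / L k % N k = t := by
      rw [Nat.mul_comm, Nat.mul_add_div hLk, Nat.div_eq_of_lt r.2, add_zero,
        Nat.mod_eq_of_lt (by omega)]
    have hm : ((t : ℕ) * L k + r) % L k = r := by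
      rw [Nat.mul_comm, Nat.mul_add_mod, Nat.mod_eq_of_lt r.2]
    rw [hd, hm] at h1
    simp only [B] at h1
    rw [dif_pos ht, dif_pos ht] at h1
    rw [hE2, hE2]
    exact h1
  have := Fintype.card_le_of_injective F hF
  simpa [Fintype.card_pi, Fintype.card_coe] using this

/-- The number of free places. -/
def Fr : ℕ → ℕ
  | 0 => 1
  | k + 1 => (N k - 1) * Fr k

lemma card_ge (k : ℕ) : 2 ^ Fr k ≤ (C k).card := by
  induction k with
  | zero =>
    have : (C 0).card = 2 := by
      have h1 : C 0 = Finset.univ := by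
        apply Finset.eq_univ_of_forall
        intro u
        rw [mem_C]
        have hL : L 0 = 1 := rfl
        refine ⟨fun _ => u ⟨0, by rw [hL]; omega⟩, ?_, ?_⟩
        · intro k j r _
          rw [Finset.sum_const, card_range]
          exact nsmul_N k _
        · intro r
          congr 1
          apply Fin.ext
          have := r.2
          simp only [hL] at this
          simp only
          omega
      rw [h1, Finset.card_univ]
      change Fintype.card (Fin 1 → ZMod 2) = 2
      rw [Fintype.card_fun, ZMod.card, Fintype.card_fin]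
      norm_num
    rw [this]
    simp [Fr]
  | succ k ih =>
    calc 2 ^ Fr (k + 1) = (2 ^ Fr k) ^ (N k - 1) := by
          rw [← pow_mul]; congr 1; simp only [Fr]; ring
      _ ≤ (C k).card ^ (N k - 1) := Nat.pow_le_pow_left ih _
      _ ≤ _ := card_succ k

lemma Fr_ge (k : ℕ) : (3 * 2 ^ k + 1) * L k ≤ 4 * Fr k * 2 ^ k := by
  induction k with
  | zero => simp [Fr, L]
  | succ k ih =>
    have hN : N k = 8 * 2 ^ k := by unfold N; ring
    obtain ⟨z, hz⟩ : ∃ z, z = 2 ^ k := ⟨_, rfl⟩
    have hz1 : 1 ≤ z := by rw [hz]; exact Nat.one_le_two_pow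
    rw [L_succ, Fr, hN, pow_succ, ← hz]
    rw [← hz] at ih
    obtain ⟨y, hy⟩ : ∃ y, 8 * z - 1 = y := ⟨_, rfl⟩
    rw [hy]
    have hy' : y + 1 = 8 * z := by omega
    -- (3 * (z*2) + 1) * (8 z L) ≤ 4 * (y * Fr) * (z * 2)
    have h1 : (6 * z + 1) * (8 * z) ≤ 2 * (3 * z + 1) * y := by
      have : y = 8 * z - 1 := by omega
      have hyz : (y : ℤ) = 8 * z - 1 := by omega
      have h2 : ((6 * z + 1) * (8 * z) : ℤ) ≤ 2 * (3 * z + 1) * y := by
        rw [hyz]
        have : (1 : ℤ) ≤ z := by exact_mod_cast hz1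
        nlinarith
      exact_mod_cast h2
    calc (3 * (z * 2) + 1) * (8 * z * L k) = ((6 * z + 1) * (8 * z)) * L k := by ring
      _ ≤ (2 * (3 * z + 1) * y) * L k := Nat.mul_le_mul_right _ h1
      _ = 2 * y * ((3 * z + 1) * L k) := by ring
      _ ≤ 2 * y * (4 * Fr k * z) := Nat.mul_le_mul_left _ ih
      _ = 4 * (y * Fr k) * (z * 2) := by ring

theorem card : S_card := by
  refine ⟨?_, fun b hb k j => block_mem hb k j⟩
  intro k
  have h1 := Fr_ge k
  have hz : 0 < 2 ^ k := by positivity
  have h2 : 3 * L k ≤ Fr k * 4 := by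
    by_contra hcon
    push Not at hcon
    have h3 : 4 * Fr k * 2 ^ k < 3 * L k * 2 ^ k := by
      apply Nat.mul_lt_mul_of_pos_right _ hz
      omega
    have h4 : (3 * 2 ^ k + 1) * L k = 3 * L k * 2 ^ k + L k := by ring
    omega
  calc 2 ^ (3 * L k) ≤ 2 ^ (Fr k * 4) := Nat.pow_le_pow_right (by norm_num) h2
    _ = (2 ^ Fr k) ^ 4 := by rw [pow_mul]
    _ ≤ (C k).card ^ 4 := Nat.pow_le_pow_left (card_ge k) _

end Pool.Agent.Q87.BS
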