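import Pool.Agent.Q87.BS.Defs

set_option autoImplicit false

/-! # Project BS: counting and lower densities -/

namespace Pool.Agent.Q87.BS

open Finset Filter Topology

lemma cnt_le_of {A B : ℕ → Prop} {n : ℕ} (h : ∀ j, 1 ≤ j → j ≤ n → A j → B j) :
    cnt A n ≤ cnt B n := by
  classical
  unfold cnt
  apply Finset.card_le_card
  intro j hj
  rw [Finset.mem_filter, Finset.mem_Icc] at hj ⊢
  exact ⟨hj.1, h j hj.1.1 hj.1.2 hj.2⟩

lemma cnt_congr {A B : ℕ → Prop} {n : ℕ} (h : ∀ j, 1 ≤ j → j ≤ n → (A j ↔ B j)) :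
    cnt A n = cnt B n :=
  le_antisymm (cnt_le_of fun j h1 h2 => (h j h1 h2).1) (cnt_le_of fun j h1 h2 => (h j h1 h2).2)

lemma cnt_le (A : ℕ → Prop) (n : ℕ) : cnt A n ≤ n := by
  classical
  unfold cnt
  calc _ ≤ (Icc 1 n).card := Finset.card_filter_le _ _
    _ = n := by simp

lemma cnt_add_not (A : ℕ → Prop) (n : ℕ) : cnt A n + cnt (fun j => ¬ A j) n = n := by
  classical
  unfold cnt
  rw [Finset.card_filter_add_card_filter_not]
  simp

open Classical in
lemma cnt_eq_sum (A : ℕ → Prop) (n : ℕ) :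
    (cnt A n : ℝ) = ∑ j ∈ Icc 1 n, if A j then (1 : ℝ) else 0 := by
  unfold cnt
  rw [Finset.sum_boole]

/-- Shifting changes the count by at most the shift. -/
lemma cnt_shift (A : ℕ → Prop) (a n : ℕ) : cnt (fun j => A (j + a)) n ≤ cnt A n + a := by
  classical
  unfold cnt
  have h1 : ((Icc 1 n).filter fun j => A (j + a)).card =
      ((((Icc 1 n).filter fun j => A (j + a))).image (fun j => j + a)).card :=
    (Finset.card_image_of_injective _ (fun x y h => by simpa using h)).symm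
  rw [h1]
  have h2 : (((Icc 1 n).filter fun j => A (j + a))).image (fun j => j + a) ⊆
      ((Icc 1 n).filter A) ∪ (Icc (n + 1) (n + a)) := by
    intro j hj
    rw [Finset.mem_image] at hj
    obtain ⟨i, hi, rfl⟩ := hj
    rw [Finset.mem_filter, Finset.mem_Icc] at hi
    rw [Finset.mem_union, Finset.mem_filter, Finset.mem_Icc, Finset.mem_Icc]
    by_cases h : i + a ≤ n
    · left; exact ⟨⟨by omega, h⟩, hi.2⟩
    · right; omega
  calc _ ≤ (((Icc 1 n).filter A) ∪ (Icc (n + 1) (n + a))).card := Finset.card_le_card h2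
    _ ≤ ((Icc 1 n).filter A).card + (Icc (n + 1) (n + a)).card := Finset.card_union_le _ _
    _ = _ := by simp

lemma cnt_shift' (A : ℕ → Prop) (a n : ℕ) : cnt A n ≤ cnt (fun j => A (j + a)) n + a := by
  classical
  unfold cnt
  have h2 : ((Icc 1 n).filter A) ⊆
      (((Icc 1 n).filter fun j => A (j + a))).image (fun j => j + a) ∪ (Icc 1 a) := by
    intro j hj
    rw [Finset.mem_filter, Finset.mem_Icc] at hj
    rw [Finset.mem_union, Finset.mem_image, Finset.mem_Icc]
    by_cases h : j ≤ a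
    · right; omega
    · left
      refine ⟨j - a, ?_, by omega⟩
      rw [Finset.mem_filter, Finset.mem_Icc]
      refine ⟨by omega, ?_⟩
      rw [show j - a + a = j by omega]
      exact hj.2
  calc _ ≤ ((((Icc 1 n).filter fun j => A (j + a))).image (fun j => j + a) ∪ (Icc 1 a)).card :=
        Finset.card_le_card h2
    _ ≤ ((((Icc 1 n).filter fun j => A (j + a))).image (fun j => j + a)).card + (Icc 1 a).card :=
        Finset.card_union_le _ _
    _ ≤ _ := by
        have := Finset.card_image_le (s := ((Icc 1 n).filter fun j => A (j + a)))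
          (f := fun j => j + a)
        simp only [Nat.card_Icc, Nat.add_sub_cancel]
        omega

lemma dens_shift {A : ℕ → Prop} {x : ℝ} (a : ℕ) (h : Dens A x) : Dens (fun j => A (j + a)) x := by
  unfold Dens at h ⊢
  have h0 : Tendsto (fun n : ℕ => (a : ℝ) / n) atTop (𝓝 0) := tendsto_const_div_atTop_nhds_zero_nat _
  have hl : Tendsto (fun n : ℕ => (cnt A n : ℝ) / n - (a : ℝ) / n) atTop (𝓝 x) := by
    simpa using h.sub h0
  have hu : Tendsto (fun n : ℕ => (cnt A n : ℝ) / n + (a : ℝ) / n) atTop (𝓝 x) := by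
    simpa using h.add h0
  refine tendsto_of_tendsto_of_tendsto_of_le_of_le hl hu ?_ ?_
  · intro n
    simp only
    rw [← sub_div]
    apply div_le_div_of_nonneg_right _ (Nat.cast_nonneg n)
    have : (cnt A n : ℝ) ≤ cnt (fun j => A (j + a)) n + a := by exact_mod_cast cnt_shift' A a n
    linarith
  · intro n
    simp only
    rw [← add_div]
    apply div_le_div_of_nonneg_right _ (Nat.cast_nonneg n)
    have : (cnt (fun j => A (j + a)) n : ℝ) ≤ cnt A n + a := by exact_mod_cast cnt_shift A a n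
    linarith

lemma dens_congr {A B : ℕ → Prop} {x : ℝ} (h : ∀ j, 1 ≤ j → (A j ↔ B j)) (hA : Dens A x) :
    Dens B x := by
  unfold Dens at hA ⊢
  refine hA.congr ?_
  intro n
  rw [cnt_congr fun j h1 _ => h j h1]

lemma dens_zero {A : ℕ → Prop} (h : ∀ j, 1 ≤ j → ¬ A j) : Dens A 0 := by
  unfold Dens
  have : ∀ n, cnt A n = 0 := by
    intro n
    classical
    unfold cnt
    rw [Finset.card_eq_zero, Finset.filter_eq_empty_iff]
    intro j hj
    exact h j (Finset.mem_Icc.mp hj).1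
  simp [this]

lemma dens_unique {A : ℕ → Prop} {x y : ℝ} (h : Dens A x) (h' : Dens A y) : x = y :=
  tendsto_nhds_unique h h'

lemma dens_nonneg {A : ℕ → Prop} {x : ℝ} (h : Dens A x) : 0 ≤ x :=
  ge_of_tendsto' h fun n => by positivity

/-- `A` has lower density at least `x`. -/
def LD (A : ℕ → Prop) (x : ℝ) : Prop :=
  ∀ η : ℝ, 0 < η → ∀ᶠ n : ℕ in atTop, (x - η) * n ≤ cnt A n

lemma LD_of_dens {A : ℕ → Prop} {x : ℝ} (h : Dens A x) : LD A x := by
  intro η hη
  have h1 := h.eventually (lt_mem_nhds (show x - η < x by linarith))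
  filter_upwards [h1, eventually_ge_atTop 1] with n hn hn1
  have hn0 : (0 : ℝ) < n := by exact_mod_cast hn1
  exact ((lt_div_iff₀ hn0).mp hn).le

lemma LD_mono {A B : ℕ → Prop} {x : ℝ} (h : ∀ j, 1 ≤ j → A j → B j) (hA : LD A x) : LD B x := by
  intro η hη
  filter_upwards [hA η hη] with n hn
  refine hn.trans ?_
  exact_mod_cast cnt_le_of fun j h1 _ => h j h1

lemma LD_le {A : ℕ → Prop} {x y : ℝ} (hxy : y ≤ x) (hA : LD A x) : LD A y := by
  intro η hη
  filter_upwards [hA η hη] with n hn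
  refine le_trans ?_ hn
  exact mul_le_mul_of_nonneg_right (by linarith) (Nat.cast_nonneg n)

lemma LD_of_forall {A : ℕ → Prop} {x : ℝ} (h : ∀ ε : ℝ, 0 < ε → LD A (x - ε)) : LD A x := by
  intro η hη
  filter_upwards [h (η / 2) (by linarith) (η / 2) (by linarith)] with n hn
  refine le_trans ?_ hn
  exact mul_le_mul_of_nonneg_right (by linarith) (Nat.cast_nonneg n)

lemma LD_zero (A : ℕ → Prop) : LD A 0 := by
  intro η hη
  filter_upwards with n
  have h1 : (0 : ℝ) ≤ cnt A n := Nat.cast_nonneg _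
  have h2 : (0 - η) * n ≤ 0 := by
    have : (0 : ℝ) ≤ n := Nat.cast_nonneg _
    nlinarith
  linarith

lemma LD_unshift {A : ℕ → Prop} {x : ℝ} (a : ℕ) (h : LD (fun j => A (j + a)) x) : LD A x := by
  intro η hη
  obtain ⟨n0, hn0⟩ := exists_nat_gt ((a : ℝ) / (η / 2))
  filter_upwards [h (η / 2) (by linarith), eventually_ge_atTop n0] with n hn hn1
  have h1 : (cnt (fun j => A (j + a)) n : ℝ) ≤ cnt A n + a := by exact_mod_cast cnt_shift A a n
  have h2 : (a : ℝ) ≤ η / 2 * n := by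
    have h3 : (n0 : ℝ) ≤ n := by exact_mod_cast hn1
    have h4 : (a : ℝ) / (η / 2) ≤ n := by linarith
    rw [div_le_iff₀ (by linarith)] at h4
    linarith
  nlinarith

lemma sum_cnt_le {ι : Type} (S : Finset ι) (A : ι → ℕ → Prop) (B : ℕ → Prop)
    (hdisj : ∀ j, 1 ≤ j → ∀ i ∈ S, ∀ i' ∈ S, A i j → A i' j → i = i')
    (hsub : ∀ j, 1 ≤ j → ∀ i ∈ S, A i j → B j) (n : ℕ) :
    ∑ i ∈ S, cnt (A i) n ≤ cnt B n := by
  classical
  unfold cnt
  rw [← Finset.card_biUnion]
  · apply Finset.card_le_card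
    intro j hj
    rw [Finset.mem_biUnion] at hj
    obtain ⟨i, hi, hj⟩ := hj
    rw [Finset.mem_filter, Finset.mem_Icc] at hj ⊢
    exact ⟨hj.1, hsub j hj.1.1 i hi hj.2⟩
  · intro i hi i' hi' hne
    rw [Function.onFun, Finset.disjoint_left]
    intro j hj hj'
    rw [Finset.mem_filter, Finset.mem_Icc] at hj hj'
    exact hne (hdisj j hj.1.1 i hi i' hi' hj.2 hj'.2)

lemma LD_sum {ι : Type} (S : Finset ι) (A : ι → ℕ → Prop) (B : ℕ → Prop) (x : ι → ℝ)
    (hdisj : ∀ j, 1 ≤ j → ∀ i ∈ S, ∀ i' ∈ S, A i j → A i' j → i = i')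
    (hsub : ∀ j, 1 ≤ j → ∀ i ∈ S, A i j → B j) (hA : ∀ i ∈ S, LD (A i) (x i)) :
    LD B (∑ i ∈ S, x i) := by
  intro η hη
  have hpos : (0 : ℝ) < S.card + 1 := by positivity
  have h1 : ∀ i ∈ S, ∀ᶠ n : ℕ in atTop, (x i - η / (S.card + 1)) * n ≤ cnt (A i) n :=
    fun i hi => hA i hi _ (by positivity)
  have h2 : ∀ᶠ n : ℕ in atTop, ∀ i ∈ S, (x i - η / (S.card + 1)) * n ≤ cnt (A i) n :=
    (Filter.eventually_all_finset S).mpr h1
  filter_upwards [h2] with n hn
  have h3 : ((∑ i ∈ S, cnt (A i) n : ℕ) : ℝ) ≤ cnt B n := by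
    exact_mod_cast sum_cnt_le S A B hdisj hsub n
  refine le_trans ?_ h3
  push_cast
  refine le_trans ?_ (Finset.sum_le_sum hn)
  rw [← Finset.sum_mul, Finset.sum_sub_distrib, Finset.sum_const, nsmul_eq_mul]
  apply mul_le_mul_of_nonneg_right _ (Nat.cast_nonneg n)
  have h4 : (S.card : ℝ) * (η / (S.card + 1)) ≤ η := by
    rw [mul_div_assoc', div_le_iff₀ hpos]
    nlinarith
  linarith

lemma dens_of_two {A : ℕ → Prop} {x : ℝ} (h1 : LD A x) (h2 : LD (fun j => ¬ A j) (1 - x)) :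
    Dens A x := by
  unfold Dens
  rw [Metric.tendsto_atTop]
  intro ε hε
  obtain ⟨n1, hn1⟩ := Filter.eventually_atTop.mp (h1 (ε / 2) (by linarith))
  obtain ⟨n2, hn2⟩ := Filter.eventually_atTop.mp (h2 (ε / 2) (by linarith))
  refine ⟨max 1 (max n1 n2), fun n hn => ?_⟩
  have hn0 : (0 : ℝ) < n := by
    have : 1 ≤ n := le_trans (le_max_left _ _) hn
    exact_mod_cast this
  have a1 := hn1 n (le_trans (le_trans (le_max_left _ _) (le_max_right _ _)) hn)
  have a2 := hn2 n (le_trans (le_trans (le_max_right _ _) (le_max_right _ _)) hn)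
  have a3 : (cnt A n : ℝ) + cnt (fun j => ¬ A j) n = n := by exact_mod_cast cnt_add_not A n
  rw [Real.dist_eq, abs_lt]
  constructor
  · have : x - ε / 2 ≤ (cnt A n : ℝ) / n := by rw [le_div_iff₀ hn0]; exact a1
    linarith
  · have : (cnt A n : ℝ) / n ≤ x + ε / 2 := by
      rw [div_le_iff₀ hn0]
      nlinarith
    linarith

lemma dens_of_LD {ι : Type} [DecidableEq ι] (S : Finset ι) (A : ι → ℕ → Prop) (x : ι → ℝ)
    (hdisj : ∀ j, 1 ≤ j → ∀ i ∈ S, ∀ i' ∈ S, A i j → A i' j → i = i')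
    (hsum : ∑ i ∈ S, x i = 1) (hA : ∀ i ∈ S, LD (A i) (x i)) :
    ∀ i ∈ S, Dens (A i) (x i) := by
  intro i hi
  apply dens_of_two (hA i hi)
  have h1 : LD (fun j => ¬ A i j) (∑ i' ∈ S.erase i, x i') := by
    apply LD_sum (S.erase i) A
    · intro j hj i1 hi1 i2 hi2
      exact hdisj j hj i1 (Finset.mem_of_mem_erase hi1) i2 (Finset.mem_of_mem_erase hi2)
    · intro j hj i' hi' hA' hAi
      exact (Finset.ne_of_mem_erase hi')
        (hdisj j hj i' (Finset.mem_of_mem_erase hi') i hi hA' hAi)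
    · intro i' hi'
      exact hA i' (Finset.mem_of_mem_erase hi')
  have h2 : ∑ i' ∈ S.erase i, x i' = 1 - x i := by
    rw [← hsum, ← Finset.add_sum_erase S x hi]; ring
  rw [h2] at h1
  exact h1

end Pool.Agent.Q87.BS
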