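import Mathlib

set_option autoImplicit false

/-!
# Project BS: definitions and statements

Basic sequences of positive entropy all of whose normal numbers are uniformly normal and
distribution normal.  Mixed radix expansion with the bases `N k = 2 ^ (k + 3)`; a letter at the
place `n` consists of a structure mark `sig 0 n` in `{0, 1, 2, 3}` and a data bit `b n`; the data
satisfy the parity condition `Par` in every aligned block of every level; a letter is coded by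
three symbols.  All statements `S_...` of the lemma jobs are here.
-/

namespace Pool.Agent.Q87.BS

open Filter Topology MeasureTheory Finset

/-! ## The mixed radix and the structure marks -/

/-- The number of level `k` blocks in a level `k + 1` block. -/
def N (k : ℕ) : ℕ := 2 ^ (k + 3)

/-- The number of letters in a level `k` block. -/
def L : ℕ → ℕ
  | 0 => 1
  | k + 1 => N k * L k

lemma N_ge (k : ℕ) : 8 ≤ N k := by
  unfold N
  calc 8 = 2 ^ 3 := by norm_num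
    _ ≤ 2 ^ (k + 3) := Nat.pow_le_pow_right (by norm_num) (by omega)

lemma L_pos (k : ℕ) : 0 < L k := by
  induction k with
  | zero => simp [L]
  | succ k ih => exact Nat.mul_pos (by have := N_ge k; omega) ih

lemma L_succ (k : ℕ) : L (k + 1) = N k * L k := rfl

/-- The mark of a digit. -/
def pat (t : ℕ) : ℕ := if t = 1 then 1 else if t = 2 then 2 else if t = 3 then 3 else 0

/-- The mark of the level `k` block of index `j`: digits of `j` in the bases
`N k, N (k + 1), ...` equal to `0` or `4` are skipped, the first other digit gives the mark;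
`0` if there is none. -/
def sig (k j : ℕ) : ℕ :=
  if _h : j = 0 then 0
  else if j % N k = 0 ∨ j % N k = 4 then sig (k + 1) (j / N k) else pat (j % N k)
termination_by j
decreasing_by exact Nat.div_lt_self (Nat.pos_of_ne_zero _h) (by have := N_ge k; omega)

/-- All digits of `r` below level `k` are `0` or `4`. -/
def Star (k r : ℕ) : Prop := ∀ i < k, (r / L i) % N i = 0 ∨ (r / L i) % N i = 4

/-- Job BS1. -/
def S_sig : Prop :=
  (∀ k j, sig k j ≤ 3) ∧
  (∀ k j, (j % N k = 0 ∨ j % N k = 4) → sig k j = sig (k + 1) (j / N k)) ∧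
  (∀ k j, ¬ (j % N k = 0 ∨ j % N k = 4) → sig k j = pat (j % N k)) ∧
  (∀ k j r, r < L k → Star k r → sig 0 (j * L k + r) = sig k j) ∧
  (∀ k j r, r < L k → ¬ Star k r → sig 0 (j * L k + r) = sig 0 r)

/-! ## Letters and symbols -/

/-- The letter at the place `n` for the data `b`, a number below `8`. -/
def c (b : ℕ → ZMod 2) (n : ℕ) : ℕ := 2 * sig 0 n + (b n).val

/-- The basic sequence of the data `b`. -/
def q (b : ℕ → ZMod 2) (m : ℕ) : ℕ :=
  if m % 3 = 0 then 2 ^ 90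
  else if m % 3 = 1 then 2 ^ (10 * (c b (m / 3) + 1)) else 2 ^ (10 * (8 - c b (m / 3)))

/-- The parity condition at all levels. -/
def Par (b : ℕ → ZMod 2) : Prop :=
  ∀ k j r, r < L k → ∑ t ∈ range (N k), b (j * L (k + 1) + t * L k + r) = 0

/-- The word `w` decodes the level `k` block of index `J`: every place where the basic sequence
admits `w` as a word of digits is the beginning of a level `k` block with the same symbols. -/
def SG (b : ℕ → ZMod 2) (k J : ℕ) (w : ℕ → ℕ) : Prop :=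
  ∀ p, (∀ i < 3 * L k, w i < q b (p + i)) →
    3 * L k ∣ p ∧ ∀ i < 3 * L k, q b (p + i) = q b (3 * (J * L k) + i)

/-- Job BS2. -/
def S_base : Prop :=
  ∀ (b : ℕ → ZMod 2) (n : ℕ) (w : ℕ → ℕ), (∀ i < 3, q b (3 * n + i) ≤ 2 ^ 10 * w i) → SG b 0 n w

/-- Job BS3. -/
def S_step : Prop :=
  ∀ b : ℕ → ZMod 2, Par b → ∀ (k J : ℕ) (w : ℕ → ℕ) (t0 : ℕ),
    (∀ t < N k, t ≠ t0 → SG b k (J * N k + t) (fun i => w (3 * (t * L k) + i))) →
    SG b (k + 1) J w

/-! ## Probabilities of words of digits -/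

/-- Extension of a finite word by zeros. -/
def ext {m M : ℕ} (w : Fin m → Fin M) (i : ℕ) : ℕ := if h : i < m then (w ⟨i, h⟩ : ℕ) else 0

/-- The probability of the word of digits `w 0, ..., w (m - 1)` at the place `j`. -/
noncomputable def W (q : ℕ → ℕ) (j m : ℕ) (w : ℕ → ℕ) : ℝ :=
  ∏ i ∈ range m, if w i < q (j + i) then ((q (j + i) : ℝ))⁻¹ else 0

open Classical in
/-- The probability of the set `E` of words of `m` digits at the place `j`. -/
noncomputable def pr (q : ℕ → ℕ) (M j m : ℕ) (E : (ℕ → ℕ) → Prop) : ℝ :=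
  ∑ w : Fin m → Fin M, if E (ext w) then W q j m (ext w) else 0

/-- `E` depends only on the first `m` digits. -/
def Loc (m : ℕ) (E : (ℕ → ℕ) → Prop) : Prop :=
  ∀ w w' : ℕ → ℕ, (∀ i < m, w i = w' i) → (E w ↔ E w')

/-- Bounds for a basic sequence. -/
def Bd (q : ℕ → ℕ) (M : ℕ) : Prop := ∀ n, 2 ≤ q n ∧ q n ≤ M

/-- Job BS4. -/
def S_pr : Prop :=
  (∀ q M j m, Bd q M → pr q M j m (fun _ => True) = 1) ∧
  (∀ q M j m a m' E, Bd q M → a + m' ≤ m → Loc m' E →
    pr q M j m (fun w => E (fun i => w (a + i))) = pr q M (j + a) m' E) ∧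
  (∀ q M j m a1 m1 a2 m2 E1 E2, Bd q M → a1 + m1 ≤ a2 → a2 + m2 ≤ m → Loc m1 E1 → Loc m2 E2 →
    pr q M j m (fun w => E1 (fun i => w (a1 + i)) ∧ E2 (fun i => w (a2 + i))) =
      pr q M (j + a1) m1 E1 * pr q M (j + a2) m2 E2)

/-- Job BS5. -/
def S_prob : Prop :=
  ∀ b : ℕ → ZMod 2, Par b → ∀ k J,
    pr (q b) (2 ^ 90) (3 * (J * L k)) (3 * L k) (fun w => ¬ SG b k J w) ≤ 1 / (256 * 4 ^ k)

/-- The word `w` of `m` digits determines the symbols at the places `a, ..., a + l - 1`. -/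
def Dec (q : ℕ → ℕ) (m a l : ℕ) (w : ℕ → ℕ) : Prop :=
  ∀ p p', (∀ i < m, w i < q (p + i)) → (∀ i < m, w i < q (p' + i)) →
    ∀ i < l, q (p + a + i) = q (p' + a + i)

/-- Most words of digits determine their basic block. -/
def DecHyp (q : ℕ → ℕ) (M : ℕ) : Prop :=
  ∀ l : ℕ, ∀ ε : ℝ, 0 < ε → ∃ m a, a + l ≤ m ∧
    ∀ᶠ n : ℕ in atTop, ∑ j ∈ Icc 1 n, pr q M j m (fun w => ¬ Dec q m a l w) ≤ ε * n

/-- Job BS6. -/
def S_dec : Prop := ∀ b : ℕ → ZMod 2, Par b → DecHyp (q b) (2 ^ 90)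

/-! ## Frequencies and normality -/

/-- The block `B 0, ..., B (m - 1)` occurs in `q` at the place `j`. -/
def occ (q : ℕ → ℕ) (m : ℕ) (B : ℕ → ℕ) (j : ℕ) : Prop := ∀ i < m, q (j + i) = B i

open Classical in
/-- The number of `j`, `1 ≤ j ≤ n`, with `A j`. -/
noncomputable def cnt (A : ℕ → Prop) (n : ℕ) : ℕ := ((Icc 1 n).filter A).card

/-- `A` has the density `x`. -/
def Dens (A : ℕ → Prop) (x : ℝ) : Prop := Tendsto (fun n : ℕ => (cnt A n : ℝ) / n) atTop (𝓝 x)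

/-- All blocks have densities, positive if the block occurs. -/
def HasFreq (q : ℕ → ℕ) : Prop :=
  ∀ (m : ℕ) (B : ℕ → ℕ), ∃ x : ℝ, Dens (occ q m B) x ∧ ((∃ p, occ q m B p) → 0 < x)

/-- `d` is a sequence of digits. -/
def IsDig (q d : ℕ → ℕ) : Prop := ∀ n, 1 ≤ n → d n < q n

/-- Normality of a sequence of digits. -/
def Normal (q d : ℕ → ℕ) : Prop :=
  ∀ m, 1 ≤ m → ∀ D : ℕ → ℕ, Tendsto (fun n => ∑ j ∈ Icc 1 n, W q j m D) atTop atTop →
    Tendsto (fun n => (cnt (occ d m D) n : ℝ) / ∑ j ∈ Icc 1 n, W q j m D) atTop (𝓝 1)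

/-- The probability of the digits `D` in the basic block `B`. -/
noncomputable def V (m : ℕ) (B D : ℕ → ℕ) : ℝ :=
  ∏ i ∈ range m, if D i < B i then ((B i : ℝ))⁻¹ else 0

/-- The joint densities are the expected ones. -/
def Joint (q d : ℕ → ℕ) : Prop :=
  ∀ (m : ℕ) (B D : ℕ → ℕ) (x : ℝ), Dens (occ q m B) x →
    Dens (fun j => occ q m B j ∧ occ d m D j) (x * V m B D)

/-- Job BS7. -/
def S_joint : Prop :=
  ∀ q M d, Bd q M → HasFreq q → DecHyp q M → IsDig q d → Normal q d → Joint q d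

open Classical in
/-- Uniform normality of a sequence of digits. -/
def UNormal (q d : ℕ → ℕ) : Prop :=
  ∀ m, 1 ≤ m → ∀ B D : ℕ → ℕ,
    Tendsto (fun n => ∑ j ∈ Icc 1 n, if occ q m B j then V m B D else 0) atTop atTop →
    Tendsto (fun n => (cnt (fun j => occ q m B j ∧ occ d m D j) n : ℝ) /
      ∑ j ∈ Icc 1 n, if occ q m B j then V m B D else 0) atTop (𝓝 1)

/-- Job BS8. -/
def S_unif : Prop := ∀ q M d, Bd q M → HasFreq q → IsDig q d → Joint q d → UNormal q d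

/-- Uniform distribution in `[0, 1)` of the sequence `y 1, y 2, ...`. -/
def UD (y : ℕ → ℝ) : Prop :=
  ∀ u v : ℝ, 0 ≤ u → u < v → v ≤ 1 → Dens (fun n => u ≤ y n ∧ y n < v) (v - u)

/-- `P q n = q 1 ⋯ q n`. -/
def P (q : ℕ → ℕ) (n : ℕ) : ℕ := ∏ i ∈ Icc 1 n, q i

/-- `d` is the sequence of digits of `x`. -/
def IsExp (q d : ℕ → ℕ) (x : ℝ) : Prop :=
  IsDig q d ∧ (∃ᶠ n in atTop, d n ≠ q n - 1) ∧
    HasSum (fun n : ℕ => (d (n + 1) : ℝ) / P q (n + 1)) x

/-- Job BS9. -/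
def S_ud : Prop :=
  ∀ q M d x, Bd q M → HasFreq q → IsExp q d x → Joint q d → UD (fun n => Int.fract (P q n * x))

/-! ## The data -/

/-- The parity condition for a word of length `L k`. -/
def ParW (k : ℕ) (u : Fin (L k) → ZMod 2) : Prop :=
  ∃ b : ℕ → ZMod 2, Par b ∧ ∀ r : Fin (L k), u r = b r

open Classical in
/-- The words of length `L k` with the parity condition. -/
noncomputable def C (k : ℕ) : Finset (Fin (L k) → ZMod 2) := univ.filter (ParW k)

open Classical in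
/-- Every word of `C k` has the frequency `1 / |C k|` among the level `k` blocks. -/
def Gen (b : ℕ → ZMod 2) : Prop :=
  ∀ k, ∀ u ∈ C k, Tendsto (fun n : ℕ =>
    (((range n).filter fun j => ∀ r : Fin (L k), b (j * L k + r) = u r).card : ℝ) / n) atTop
      (𝓝 (1 / (C k).card))

/-- Job BS10. -/
def S_gen : Prop := ∃ b : ℕ → ZMod 2, Par b ∧ Gen b

/-- Job BS11. -/
def S_card : Prop :=
  (∀ k, 2 ^ (3 * L k) ≤ (C k).card ^ 4) ∧
  (∀ b : ℕ → ZMod 2, Par b → ∀ k j, (fun r : Fin (L k) => b (j * L k + r)) ∈ C k)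

/-- Job BS12. -/
def S_lf : Prop :=
  ∀ A : ℕ → Prop,
    (∀ ε : ℝ, 0 < ε → ∃ (Λ : ℕ) (F : Type) (_ : Fintype F) (_ : DecidableEq F) (w : ℕ → F)
      (R : Finset ℕ) (φ : F → ℕ → Prop),
      0 < Λ ∧ (∀ u : F, ∃ x : ℝ, Tendsto (fun n : ℕ =>
        (((range n).filter fun j => w j = u).card : ℝ) / n) atTop (𝓝 x)) ∧
      (R.card : ℝ) ≤ ε * Λ ∧
      (∀ J, ∀ r < Λ, r ∉ R → (A (Λ * J + r) ↔ φ (w J) r))) →
    ∃ x : ℝ, Dens A x

/-- Job BS13. -/
def S_freq : Prop := ∀ b : ℕ → ZMod 2, Par b → Gen b → HasFreq (q b)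

/-- Job BS14. -/
def S_small : Prop :=
  ∀ b : ℕ → ZMod 2, Par b → Gen b → ∀ (k : ℕ) (B : ℕ → ℕ) (x : ℝ),
    Dens (occ (q b) (6 * L k) B) x → x ≤ 1 / (C k).card

/-! ## Dynamical systems -/

/-- The entropy of the first `n` refinements of the partition given by `g`. -/
noncomputable def partEntropy {X : Type} [MeasurableSpace X] (μ : Measure X) (T : X → X) (r : ℕ)
    (g : X → Fin r) (n : ℕ) : ℝ :=
  ∑ w : Fin n → Fin r, Real.negMulLog (μ.real {x | ∀ i : Fin n, g (T^[i] x) = w i})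

/-- The Kolmogorov-Sinai entropy. -/
noncomputable def ksEntropy {X : Type} [MeasurableSpace X] (μ : Measure X) (T : X → X) : EReal :=
  ⨆ (r : ℕ) (g : X → Fin r) (_ : Measurable g),
    limsup (fun n : ℕ => ((partEntropy μ T r g n / n : ℝ) : EReal)) atTop

/-- `q` is generated by a dynamical system of positive entropy. -/
def NonDet (q : ℕ → ℕ) : Prop :=
  ∃ (X : Type) (tX : TopologicalSpace X) (_ : PolishSpace X) (_ : MeasurableSpace X)
    (_ : BorelSpace X) (μ : Measure X) (T : X → X) (f : X → ℕ) (x : X),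
    IsProbabilityMeasure μ ∧ (∀ U : Set X, IsOpen U → U.Nonempty → 0 < μ U) ∧
    Continuous T ∧ MeasurePreserving T μ μ ∧ Continuous f ∧ (∀ y, 2 ≤ f y) ∧
    tX = TopologicalSpace.generateFrom {U | ∃ n a, U = {y | f (T^[n] y) = a}} ∧
    (∀ F : X → ℝ, Continuous F → Integrable F μ →
      Tendsto (fun n : ℕ => (∑ i ∈ Icc 1 n, F (T^[i] x)) / n) atTop (𝓝 (∫ y, F y ∂μ))) ∧
    (∀ n, 1 ≤ n → q n = f (T^[n] x)) ∧ 0 < ksEntropy μ T

/-- Job BS15. -/
def S_riesz : Prop :=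
  ∀ (X : Type) [TopologicalSpace X] [CompactSpace X] [TopologicalSpace.MetrizableSpace X]
    [MeasurableSpace X] [BorelSpace X] (T : X → X) (x : X), Continuous T →
    (∀ F : X → ℝ, Continuous F → ∃ l : ℝ,
      Tendsto (fun n : ℕ => (∑ i ∈ Icc 1 n, F (T^[i] x)) / n) atTop (𝓝 l)) →
    ∃ μ : Measure X, IsProbabilityMeasure μ ∧ MeasurePreserving T μ μ ∧
      ∀ F : X → ℝ, Continuous F →
        Tendsto (fun n : ℕ => (∑ i ∈ Icc 1 n, F (T^[i] x)) / n) atTop (𝓝 (∫ y, F y ∂μ))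

/-- The shift. -/
def shift (y : ℕ → ℕ) : ℕ → ℕ := fun i => y (i + 1)

/-- The orbit closure of `q` under the shift. -/
def Orb (q : ℕ → ℕ) : Set (ℕ → ℕ) := closure (Set.range fun n i => q (n + i))

/-- Job BS16. -/
def S_orb : Prop :=
  ∀ q M, Bd q M → HasFreq q →
    IsCompact (Orb q) ∧ (∀ y ∈ Orb q, shift y ∈ Orb q) ∧ (∀ y ∈ Orb q, ∀ n, 2 ≤ y n ∧ y n ≤ M) ∧
    (∀ y ∈ Orb q, ∀ m, ∃ p, occ q m y p) ∧
    (∀ F : (ℕ → ℕ) → ℝ, ContinuousOn F (Orb q) → ∃ l : ℝ,
      Tendsto (fun n : ℕ => (∑ i ∈ Icc 1 n, F (shift^[i] q)) / n) atTop (𝓝 l))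

/-- Job BS17. -/
def S_ent : Prop :=
  ∀ (X : Type) [MeasurableSpace X] (μ : Measure X) [IsProbabilityMeasure μ] (T : X → X),
    Measurable T → ∀ (r : ℕ) (g : X → Fin r), Measurable g → ∀ κ : ℝ, 0 < κ →
    (∃ᶠ m : ℕ in atTop, ∀ w : Fin m → Fin r,
      μ.real {x | ∀ i : Fin m, g (T^[i] x) = w i} ≤ Real.exp (-(κ * m))) →
    0 < ksEntropy μ T

/-- Job BS18. -/
def S_sys : Prop :=
  ∀ q M κ, Bd q M → HasFreq q → 0 < κ →
    (∃ᶠ m : ℕ in atTop, ∀ (B : ℕ → ℕ) (x : ℝ), Dens (occ q m B) x → x ≤ Real.exp (-(κ * m))) →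
    NonDet q

end Pool.Agent.Q87.BS
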