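import Pool.Agent.Q87.BS.Defs

set_option autoImplicit false

/-! # Project BS: the decoding step -/

namespace Pool.Agent.Q87.BS

open Finset

lemma zmod2_val_lt (x : ZMod 2) : x.val < 2 := ZMod.val_lt x

lemma c_lt (h : S_sig) (b : ℕ → ZMod 2) (n : ℕ) : c b n ≤ 7 := by
  have h1 := h.1 0 n
  have h2 := zmod2_val_lt (b n)
  unfold c; omega

lemma q_one (b : ℕ → ZMod 2) (n : ℕ) : q b (3 * n + 1) = 2 ^ (10 * (c b n + 1)) := by
  unfold q
  have h1 : (3 * n + 1) % 3 = 1 := by omega
  have h2 : (3 * n + 1) / 3 = n := by omega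
  rw [h1, h2]; simp

lemma q_zero (b : ℕ → ZMod 2) (n : ℕ) : q b (3 * n) = 2 ^ 90 := by
  unfold q
  have h1 : (3 * n) % 3 = 0 := by omega
  rw [h1]; simp

lemma q_two (b : ℕ → ZMod 2) (n : ℕ) : q b (3 * n + 2) = 2 ^ (10 * (8 - c b n)) := by
  unfold q
  have h1 : (3 * n + 2) % 3 = 2 := by omega
  have h2 : (3 * n + 2) / 3 = n := by omega
  rw [h1, h2]; simp

/-- Equal second symbols of two letters: equal letters. -/
lemma c_eq_of_q {b b' : ℕ → ZMod 2} {n n' : ℕ} (h : q b (3 * n + 1) = q b' (3 * n' + 1)) :
    c b n = c b' n' := by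
  rw [q_one, q_one] at h
  have := Nat.pow_right_injective (le_refl 2) h
  omega

lemma q_eq_of_c {b b' : ℕ → ZMod 2} {n n' : ℕ} (h : c b n = c b' n') (i : ℕ) (hi : i < 3) :
    q b (3 * n + i) = q b' (3 * n' + i) := by
  interval_cases i
  · simp only [add_zero]; rw [q_zero, q_zero]
  · rw [q_one, q_one, h]
  · rw [q_two, q_two, h]

lemma sig_eq_of_c {b b' : ℕ → ZMod 2} {n n' : ℕ} (h : c b n = c b' n') :
    sig 0 n = sig 0 n' ∧ b n = b' n' := by
  have h1 := zmod2_val_lt (b n)
  have h2 := zmod2_val_lt (b' n')
  unfold c at h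
  have h3 : sig 0 n = sig 0 n' := by omega
  have h4 : (b n).val = (b' n').val := by omega
  exact ⟨h3, ZMod.val_injective 2 h4⟩

lemma star_zero (k : ℕ) : Star k 0 := by
  intro i _
  left; simp

/-- Blocks with the same symbols have the same letters. -/
lemma c_of_block {b : ℕ → ZMod 2} {k A A' : ℕ}
    (h : ∀ i < 3 * L k, q b (3 * (A * L k) + i) = q b (3 * (A' * L k) + i)) :
    ∀ r < L k, c b (A * L k + r) = c b (A' * L k + r) := by
  intro r hr
  apply c_eq_of_q
  have := h (3 * r + 1) (by omega)
  rw [show 3 * (A * L k + r) + 1 = 3 * (A * L k) + (3 * r + 1) by ring,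
    show 3 * (A' * L k + r) + 1 = 3 * (A' * L k) + (3 * r + 1) by ring]
  exact this

lemma block_of_c {b : ℕ → ZMod 2} {k A A' : ℕ}
    (h : ∀ r < L k, c b (A * L k + r) = c b (A' * L k + r)) :
    ∀ i < 3 * L k, q b (3 * (A * L k) + i) = q b (3 * (A' * L k) + i) := by
  intro i hi
  have h1 : i = 3 * (i / 3) + i % 3 := by omega
  have h2 : i / 3 < L k := by omega
  have := q_eq_of_c (h (i / 3) h2) (i % 3) (by omega)
  rw [show 3 * (A * L k) + i = 3 * (A * L k + i / 3) + i % 3 by omega,
    show 3 * (A' * L k) + i = 3 * (A' * L k + i / 3) + i % 3 by omega]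
  exact this

theorem step (h : S_sig) : S_step := by
  obtain ⟨hs3, hstar, hpat, hsS, hsN⟩ := h
  intro b hb k J w t0 hw p hp
  have hN := N_ge k
  have hL := L_pos k
  have hLs := L_succ k
  -- the sub-blocks
  have key : ∀ t < N k, t ≠ t0 → 3 * L k ∣ p + 3 * (t * L k) ∧
      ∀ i < 3 * L k, q b (p + 3 * (t * L k) + i) = q b (3 * ((J * N k + t) * L k) + i) := by
    intro t ht htt
    apply hw t ht htt (p + 3 * (t * L k))
    intro i hi
    have h1 : t * L k + L k ≤ N k * L k := by
      calc t * L k + L k = (t + 1) * L k := by ring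
        _ ≤ N k * L k := Nat.mul_le_mul_right _ ht
    have := hp (3 * (t * L k) + i) (by rw [hLs]; omega)
    rw [← add_assoc] at this
    exact this
  -- p is a multiple of 3 L k
  obtain ⟨t1, ht1, ht10⟩ : ∃ t < N k, t ≠ t0 := by
    by_cases h0 : t0 = 0
    · exact ⟨1, by omega, by omega⟩
    · exact ⟨0, by omega, fun h => h0 h.symm⟩
  have hdiv : 3 * L k ∣ p := by
    have h1 := (key t1 ht1 ht10).1
    have h2 : 3 * L k ∣ 3 * (t1 * L k) := ⟨t1, by ring⟩
    exact (Nat.dvd_add_left h2).mp h1
  obtain ⟨A, hA⟩ := hdiv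
  -- letters
  have hc : ∀ t < N k, t ≠ t0 → ∀ r < L k,
      c b ((A + t) * L k + r) = c b ((J * N k + t) * L k + r) := by
    intro t ht htt
    apply c_of_block
    intro i hi
    have := (key t ht htt).2 i hi
    rw [show p + 3 * (t * L k) + i = 3 * ((A + t) * L k) + i by rw [hA]; ring] at this
    exact this
  have hsg : ∀ t < N k, t ≠ t0 → sig k (A + t) = sig k (J * N k + t) := by
    intro t ht htt
    have h1 := (sig_eq_of_c (hc t ht htt 0 hL)).1
    rw [hsS k _ 0 hL (star_zero k), hsS k _ 0 hL (star_zero k)] at h1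
    exact h1
  have hmod : ∀ t < N k, (J * N k + t) % N k = t := by
    intro t ht
    rw [Nat.mul_comm, Nat.mul_add_mod, Nat.mod_eq_of_lt ht]
  -- A is a multiple of N k
  have hAN : A % N k = 0 := by
    by_contra hne
    have hs : A % N k < N k := Nat.mod_lt _ (by omega)
    have hmain : ∀ t, (t = 1 ∨ t = 2 ∨ t = 3) → t ≠ t0 →
        (A + t) % N k = 0 ∨ (A + t) % N k = 4 := by
      intro t ht htt
      by_contra hcon
      have h1 := hsg t (by omega) htt
      rw [hpat k (A + t) hcon] at h1
      have h2 : ¬ ((J * N k + t) % N k = 0 ∨ (J * N k + t) % N k = 4) := by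
        rw [hmod t (by omega)]; omega
      rw [hpat k (J * N k + t) h2, hmod t (by omega)] at h1
      have h3 : (A + t) % N k = t := by
        unfold pat at h1
        rcases ht with rfl | rfl | rfl <;> split_ifs at h1 <;> omega
      have h4 : (A + t) % N k = (A % N k + t) % N k := by
        rw [Nat.mod_add_mod]
      rw [h4] at h3
      rcases Nat.lt_or_ge (A % N k + t) (N k) with h5 | h5
      · rw [Nat.mod_eq_of_lt h5] at h3; omega
      · rw [Nat.mod_eq_sub_mod h5, Nat.mod_eq_of_lt (by omega)] at h3; omega
    have hval : ∀ t, t ≤ 3 → (A + t) % N k = 0 ∨ (A + t) % N k = 4 →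
        (A % N k + t = N k ∨ A % N k + t = 4 ∨ A % N k + t = N k + 4 ∨ A % N k + t = 0) := by
      intro t ht h0
      have h4 : (A + t) % N k = (A % N k + t) % N k := by rw [Nat.mod_add_mod]
      rw [h4] at h0
      rcases Nat.lt_or_ge (A % N k + t) (N k) with h5 | h5
      · rw [Nat.mod_eq_of_lt h5] at h0; omega
      · rw [Nat.mod_eq_sub_mod h5, Nat.mod_eq_of_lt (by omega)] at h0; omega
    by_cases e1 : t0 = 1
    · have a2 := hval 2 (by omega) (hmain 2 (by omega) (by omega))
      have a3 := hval 3 (by omega) (hmain 3 (by omega) (by omega))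
      omega
    · by_cases e2 : t0 = 2
      · have a2 := hval 1 (by omega) (hmain 1 (by omega) (by omega))
        have a3 := hval 3 (by omega) (hmain 3 (by omega) (by omega))
        omega
      · have a2 := hval 1 (by omega) (hmain 1 (by omega) (by omega))
        have a3 := hval 2 (by omega) (hmain 2 (by omega) (by omega))
        omega
  obtain ⟨A', hA'⟩ := Nat.dvd_of_mod_eq_zero hAN
  refine ⟨⟨A', by rw [hA, hA', hLs]; ring⟩, ?_⟩
  -- the exceptional sub-block
  have hall : ∀ t < N k, ∀ r < L k,
      c b ((A + t) * L k + r) = c b ((J * N k + t) * L k + r) := by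
    intro t ht r hr
    by_cases htt : t = t0
    · subst htt
      have hmodA : ∀ t < N k, (A + t) % N k = t := by
        intro t ht
        rw [hA', Nat.mul_add_mod, Nat.mod_eq_of_lt ht]
      -- data
      have hdat : b ((A + t) * L k + r) = b ((J * N k + t) * L k + r) := by
        have p1 := hb k A' r hr
        have p2 := hb k J r hr
        have e1 : ∀ s, A' * L (k + 1) + s * L k + r = (A + s) * L k + r := by
          intro s; rw [hLs, hA']; ring
        have e2 : ∀ s, J * L (k + 1) + s * L k + r = (J * N k + s) * L k + r := by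
          intro s; rw [hLs]; ring
        simp only [e1] at p1
        simp only [e2] at p2
        rw [← Finset.add_sum_erase _ _ (mem_range.mpr ht)] at p1 p2
        have p3 : ∑ x ∈ (range (N k)).erase t, b ((A + x) * L k + r) =
            ∑ x ∈ (range (N k)).erase t, b ((J * N k + x) * L k + r) := by
          apply Finset.sum_congr rfl
          intro x hx
          rw [Finset.mem_erase, mem_range] at hx
          exact (sig_eq_of_c (hc x hx.2 hx.1 r hr)).2
        rw [p3] at p1
        have p4 := p1.trans p2.symm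
        exact add_right_cancel p4
      -- marks
      have hmark : sig 0 ((A + t) * L k + r) = sig 0 ((J * N k + t) * L k + r) := by
        by_cases hS : Star k r
        · rw [hsS k _ r hr hS, hsS k _ r hr hS]
          by_cases h04 : t = 0 ∨ t = 4
          · have hdivA : ∀ t < N k, (A + t) / N k = A' := by
              intro t ht
              rw [hA', Nat.mul_add_div (by omega), Nat.div_eq_of_lt ht, add_zero]
            have hdivJ : ∀ t < N k, (J * N k + t) / N k = J := by
              intro t ht
              rw [Nat.mul_comm, Nat.mul_add_div (by omega), Nat.div_eq_of_lt ht, add_zero]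
            have hlev : ∀ t < N k, (t = 0 ∨ t = 4) → sig k (A + t) = sig (k + 1) A' ∧
                sig k (J * N k + t) = sig (k + 1) J := by
              intro t ht h0
              constructor
              · rw [hstar k (A + t) (by rw [hmodA t ht]; exact h0), hdivA t ht]
              · rw [hstar k (J * N k + t) (by rw [hmod t ht]; exact h0), hdivJ t ht]
            have hJ : sig (k + 1) A' = sig (k + 1) J := by
              rcases h04 with h0 | h0
              · have h5 := hsg 4 (by omega) (by omega)
                rw [(hlev 4 (by omega) (by omega)).1, (hlev 4 (by omega) (by omega)).2] at h5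
                exact h5
              · have h5 := hsg 0 (by omega) (by omega)
                rw [(hlev 0 (by omega) (by omega)).1, (hlev 0 (by omega) (by omega)).2] at h5
                exact h5
            rw [(hlev t ht h04).1, (hlev t ht h04).2, hJ]
          · rw [hpat k (A + t) (by rw [hmodA t ht]; exact h04),
              hpat k (J * N k + t) (by rw [hmod t ht]; exact h04), hmodA t ht, hmod t ht]
        · rw [hsN k _ r hr hS, hsN k _ r hr hS]
      unfold c
      rw [hmark, hdat]
    · exact hc t ht htt r hr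
  intro i hi
  have hi' : i / 3 < N k * L k := by
    rw [hLs] at hi
    omega
  have e : i / 3 = (i / 3 / L k) * L k + (i / 3) % L k := by
    rw [Nat.mul_comm]; exact (Nat.div_add_mod _ _).symm
  have ht : i / 3 / L k < N k := Nat.div_lt_of_lt_mul (by rw [Nat.mul_comm]; exact hi')
  have hr : (i / 3) % L k < L k := Nat.mod_lt _ hL
  have hcc := hall _ ht _ hr
  have h1 : c b (A * L k + i / 3) = c b (J * L (k + 1) + i / 3) := by
    rw [show A * L k + i / 3 = (A + i / 3 / L k) * L k + (i / 3) % L k by
        conv_lhs => rw [e]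
        ring,
      show J * L (k + 1) + i / 3 = (J * N k + i / 3 / L k) * L k + (i / 3) % L k by
        conv_lhs => rw [e, hLs]
        ring]
    exact hcc
  have h2 := q_eq_of_c h1 (i % 3) (by omega)
  have hpA : p = 3 * (A * L k) := by rw [hA]; ring
  rw [hpA, show 3 * (A * L k) + i = 3 * (A * L k + i / 3) + i % 3 by omega,
    show 3 * (J * L (k + 1)) + i = 3 * (J * L (k + 1) + i / 3) + i % 3 by omega]
  exact h2

end Pool.Agent.Q87.BS
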