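import Pool.Agent.Q87.BS.LF
import Pool.Agent.Q87.BS.Card
import Pool.Agent.Q87.BS.Step

set_option autoImplicit false

/-! # Project BS: the densities of the blocks of the basic sequence -/

namespace Pool.Agent.Q87.BS

open Finset Filter Topology

lemma c_congr {b b' : ℕ → ZMod 2} {n n' : ℕ} (h1 : sig 0 n = sig 0 n') (h2 : b n = b' n') :
    c b n = c b' n' := by
  unfold c; rw [h1, h2]

lemma q_congr {b b' : ℕ → ZMod 2} {A s : ℕ} (h : c b (A + s / 3) = c b' (s / 3)) :
    q b (3 * A + s) = q b' s := by
  have e1 : 3 * A + s = 3 * (A + s / 3) + s % 3 := by omega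
  have e2 : s = 3 * (s / 3) + s % 3 := by omega
  rw [e1]
  conv_rhs => rw [e2]
  exact q_eq_of_c h (s % 3) (by omega)

open Classical in
/-- The star places below `L k`. -/
noncomputable def St (k : ℕ) : Finset ℕ := (range (L k)).filter (Star k)

lemma card_St_succ (k : ℕ) : (St (k + 1)).card ≤ 2 * (St k).card := by
  classical
  have hL := L_pos k
  have hsub : St (k + 1) ⊆ (({0, 4} : Finset ℕ) ×ˢ St k).image fun z => z.1 * L k + z.2 := by
    intro r hr
    unfold St at hr
    rw [Finset.mem_filter, Finset.mem_range] at hr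
    have hr' : r % L k < L k := Nat.mod_lt _ hL
    have hrt : r = (r / L k) * L k + r % L k := by
      rw [Nat.mul_comm]; exact (Nat.div_add_mod _ _).symm
    have htN : r / L k < N k := by
      have := hr.1
      rw [L_succ] at this
      exact Nat.div_lt_of_lt_mul (by rw [Nat.mul_comm]; exact this)
    have hs := hr.2
    rw [hrt, star_succ k _ _ hr', Nat.mod_eq_of_lt htN] at hs
    rw [Finset.mem_image]
    refine ⟨(r / L k, r % L k), ?_, hrt.symm⟩
    rw [Finset.mem_product]
    constructor
    · simp only [Finset.mem_insert, Finset.mem_singleton]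
      exact hs.2
    · unfold St
      rw [Finset.mem_filter, Finset.mem_range]
      exact ⟨hr', hs.1⟩
  calc (St (k + 1)).card ≤ _ := Finset.card_le_card hsub
    _ ≤ (({0, 4} : Finset ℕ) ×ˢ St k).card := Finset.card_image_le
    _ = 2 * (St k).card := by rw [Finset.card_product]; rfl

lemma card_St (k : ℕ) : 4 ^ k * (St k).card ≤ L k := by
  classical
  induction k with
  | zero =>
    have : (St 0).card ≤ 1 := by
      unfold St
      calc _ ≤ (range (L 0)).card := Finset.card_filter_le _ _
        _ = 1 := by simp [L]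
    simpa [L] using this
  | succ k ih =>
    have h1 := card_St_succ k
    have h2 := N_ge k
    calc 4 ^ (k + 1) * (St (k + 1)).card ≤ 4 ^ (k + 1) * (2 * (St k).card) :=
          Nat.mul_le_mul_left _ h1
      _ = 8 * (4 ^ k * (St k).card) := by ring
      _ ≤ 8 * L k := Nat.mul_le_mul_left _ ih
      _ ≤ N k * L k := Nat.mul_le_mul_right _ h2

lemma four_pow_le (k : ℕ) : 4 ^ k ≤ L k := by
  have h1 := card_St k
  have h2 : 1 ≤ (St k).card := by
    classical
    rw [Nat.one_le_iff_ne_zero, Finset.card_ne_zero]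
    refine ⟨0, ?_⟩
    unfold St
    rw [Finset.mem_filter, Finset.mem_range]
    exact ⟨L_pos k, star_zero k⟩
  calc 4 ^ k = 4 ^ k * 1 := by ring
    _ ≤ 4 ^ k * (St k).card := Nat.mul_le_mul_left _ h2
    _ ≤ _ := h1

open Classical in
lemma block_freq {b : ℕ → ZMod 2} (hb : Par b) (hg : Gen b) (k : ℕ) (u : Fin (L k) → ZMod 2) :
    ∃ x : ℝ, Tendsto (fun n : ℕ =>
      (((range n).filter fun j => (fun r : Fin (L k) => b (j * L k + r)) = u).card : ℝ) / n)
        atTop (𝓝 x) := by
  by_cases hu : u ∈ C k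
  · refine ⟨_, (hg k u hu).congr ?_⟩
    intro n
    congr 3
    apply Finset.filter_congr
    intro j _
    rw [funext_iff]
  · refine ⟨0, ?_⟩
    have : ∀ n : ℕ, (((range n).filter fun j =>
        (fun r : Fin (L k) => b (j * L k + r)) = u).card : ℝ) / n = 0 := by
      intro n
      rw [Finset.filter_eq_empty_iff.mpr]
      · simp
      · intro j _ h
        apply hu
        rw [← h]
        exact block_mem hb k j
    simp only [this]
    exact tendsto_const_nhds

lemma exists_dens (h1 : S_sig) (h12 : S_lf) {b : ℕ → ZMod 2} (hb : Par b) (hg : Gen b)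
    (m : ℕ) (B : ℕ → ℕ) : ∃ x : ℝ, Dens (occ (q b) m B) x := by
  classical
  apply h12
  intro ε hε
  obtain ⟨K, hK⟩ := pow_unbounded_of_one_lt (4 * (m : ℝ) / (3 * ε)) (by norm_num : (1 : ℝ) < 4)
  have hL := L_pos K
  let ez : (Fin (L K) → ZMod 2) → ℕ → ZMod 2 := fun u n => if h : n < L K then u ⟨n, h⟩ else 0
  refine ⟨3 * L K, Fin (L K) → ZMod 2, inferInstance, inferInstance,
    fun J r => b (J * L K + r),
    (range (3 * L K)).filter fun r => 3 * L K < r + m ∨ ∃ i < m, r + i < 3 * L K ∧
      Star K ((r + i) / 3),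
    fun u r => ∀ i < m, q (ez u) (r + i) = B i, by omega, ?_, ?_, ?_⟩
  · intro u
    have := block_freq hb hg K u
    convert this
  · -- the cardinality of the bad set
    have hsub : ((range (3 * L K)).filter fun r => 3 * L K < r + m ∨ ∃ i < m, r + i < 3 * L K ∧
        Star K ((r + i) / 3)) ⊆ (Ico (3 * L K - m) (3 * L K)) ∪
        ((range m ×ˢ (range 3 ×ˢ St K)).image fun z => 3 * z.2.2 + z.2.1 - z.1) := by
      intro r hr
      rw [Finset.mem_filter, Finset.mem_range] at hr
      rw [Finset.mem_union]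
      rcases hr.2 with h | ⟨i, hi, h2, h3⟩
      · left; rw [Finset.mem_Ico]; omega
      · right
        rw [Finset.mem_image]
        refine ⟨(i, (r + i) % 3, (r + i) / 3), ?_, ?_⟩
        · rw [Finset.mem_product, Finset.mem_product, Finset.mem_range, Finset.mem_range]
          refine ⟨hi, Nat.mod_lt _ (by norm_num), ?_⟩
          unfold St
          rw [Finset.mem_filter, Finset.mem_range]
          refine ⟨?_, h3⟩
          simp only
          omega
        · simp only; omega
    have hcard : ((range (3 * L K)).filter fun r => 3 * L K < r + m ∨ ∃ i < m,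
        r + i < 3 * L K ∧ Star K ((r + i) / 3)).card ≤ m + m * (3 * (St K).card) := by
      refine (Finset.card_le_card hsub).trans ?_
      refine (Finset.card_union_le _ _).trans ?_
      apply Nat.add_le_add
      · rw [Nat.card_Ico]; omega
      · refine Finset.card_image_le.trans ?_
        rw [Finset.card_product, Finset.card_product, card_range, card_range]
    have hS := card_St K
    have h4 := four_pow_le K
    have h5 : 4 ^ K * (m + m * (3 * (St K).card)) ≤ 4 * m * L K := by
      calc 4 ^ K * (m + m * (3 * (St K).card)) =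
            m * 4 ^ K + 3 * m * (4 ^ K * (St K).card) := by ring
        _ ≤ m * L K + 3 * m * L K := Nat.add_le_add (Nat.mul_le_mul_left _ h4)
            (Nat.mul_le_mul_left _ hS)
        _ = 4 * m * L K := by ring
    have h6 : (4 : ℝ) ^ K * ((m + m * (3 * (St K).card) : ℕ) : ℝ) ≤ 4 * m * L K := by
      exact_mod_cast h5
    have h7 : 4 * (m : ℝ) ≤ 3 * ε * 4 ^ K := by
      rw [div_lt_iff₀ (by positivity)] at hK
      linarith
    have h8 : (4 : ℝ) ^ K * ((m + m * (3 * (St K).card) : ℕ) : ℝ) ≤
        4 ^ K * (ε * ((3 * L K : ℕ) : ℝ)) := by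
      refine h6.trans ?_
      have hL0 : (0 : ℝ) ≤ L K := Nat.cast_nonneg _
      calc 4 * (m : ℝ) * L K ≤ 3 * ε * 4 ^ K * L K := mul_le_mul_of_nonneg_right h7 hL0
        _ = 4 ^ K * (ε * ((3 * L K : ℕ) : ℝ)) := by push_cast; ring
    have h9 := le_of_mul_le_mul_left h8 (by positivity)
    refine le_trans ?_ h9
    exact_mod_cast hcard
  · intro J r hr hR
    have hm : r + m ≤ 3 * L K := by
      by_contra hcon
      apply hR
      rw [Finset.mem_filter, Finset.mem_range]
      exact ⟨hr, Or.inl (by omega)⟩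
    have hst : ∀ i < m, ¬ Star K ((r + i) / 3) := by
      intro i hi hS
      apply hR
      rw [Finset.mem_filter, Finset.mem_range]
      exact ⟨hr, Or.inr ⟨i, hi, by omega, hS⟩⟩
    have key : ∀ i < m, q b (3 * L K * J + r + i) =
        q (ez fun r => b (J * L K + r)) (r + i) := by
      intro i hi
      have hlt : (r + i) / 3 < L K := by omega
      rw [show 3 * L K * J + r + i = 3 * (J * L K) + (r + i) by ring]
      apply q_congr
      apply c_congr
      · exact h1.2.2.2.2 K J _ hlt (hst i hi)
      · simp only [ez]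
        rw [dif_pos hlt]
    unfold occ
    constructor
    · intro h i hi
      rw [← key i hi]
      exact h i hi
    · intro h i hi
      rw [key i hi]
      exact h i hi

lemma pos_dens (h1 : S_sig) {b : ℕ → ZMod 2} (hb : Par b) (hg : Gen b)
    (m : ℕ) (B : ℕ → ℕ) (x : ℝ) (hx : Dens (occ (q b) m B) x) (p : ℕ)
    (hp : occ (q b) m B p) : 0 < x := by
  classical
  obtain ⟨K, hK⟩ : ∃ K, p + m ≤ 3 * L K := by
    refine ⟨p + m, ?_⟩
    have : ∀ k, k ≤ L k := by
      intro k
      have := four_pow_le k
      have h2 : k < 4 ^ k := Nat.lt_pow_self (by norm_num)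
      omega
    have := this (p + m)
    omega
  have hL := L_pos K
  have hN := N_ge K
  -- the word v
  let B' : ℕ → ℕ → ZMod 2 := fun t => if t = 5 ∨ t = 6 then fun n => b (0 * L K + n % L K) else 0
  have hB' : ∀ t, Par (B' t) := by
    intro t
    simp only [B']
    split_ifs
    · exact par_periodic hb K 0
    · exact par_zero
  have hsum : ∀ r < L K, ∑ t ∈ range (N K), B' t r = 0 := by
    intro r hr
    rw [Finset.sum_eq_add_of_mem 5 6 (by rw [mem_range]; omega) (by rw [mem_range]; omega)
      (by norm_num)]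
    · simp only [B']
      simp only [true_or, or_true, if_true]
      exact CharTwo.add_self_eq_zero _
    · intro t _ ht
      simp only [B']
      rw [if_neg (by omega)]
      rfl
  let v : Fin (L (K + 1)) → ZMod 2 := fun r => B' ((r / L K) % N K) (r % L K)
  have hv : v ∈ C (K + 1) := mem_C.mpr ⟨_, par_mix K B' hB' hsum, fun r => rfl⟩
  have hfreq := hg (K + 1) v hv
  have hCpos : (0 : ℝ) < (C (K + 1)).card := by
    have : 0 < (C (K + 1)).card := Finset.card_pos.mpr ⟨v, hv⟩
    exact_mod_cast this
  -- occurrences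
  have hocc : ∀ J, (∀ r : Fin (L (K + 1)), b (J * L (K + 1) + r) = v r) →
      occ (q b) m B (3 * (J * L (K + 1) + 5 * L K) + p) := by
    intro J hJ i hi
    have hlt : (p + i) / 3 < L K := by omega
    rw [← hp i hi, add_assoc]
    apply q_congr
    apply c_congr
    · have e : J * L (K + 1) + 5 * L K = (J * N K + 5) * L K := by rw [L_succ]; ring
      rw [e]
      have hmod : (J * N K + 5) % N K = 5 := by
        rw [Nat.mul_comm, Nat.mul_add_mod, Nat.mod_eq_of_lt (by omega)]
      by_cases hS : Star K ((p + i) / 3)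
      · rw [h1.2.2.2.1 K _ _ hlt hS]
        have h0 := h1.2.2.2.1 K 0 _ hlt hS
        rw [zero_mul, zero_add] at h0
        rw [h0, sig_zero, sig_not K _ (by rw [hmod]; omega), hmod]
        rfl
      · rw [h1.2.2.2.2 K _ _ hlt hS]
    · have hlt2 : 5 * L K + (p + i) / 3 < L (K + 1) := by
        rw [L_succ]
        calc 5 * L K + (p + i) / 3 < 5 * L K + L K := by omega
          _ = 6 * L K := by ring
          _ ≤ N K * L K := Nat.mul_le_mul_right _ (by omega)
      have := hJ ⟨5 * L K + (p + i) / 3, hlt2⟩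
      simp only at this
      rw [← add_assoc] at this
      rw [this]
      simp only [v, B']
      have e1 : (5 * L K + (p + i) / 3) / L K % N K = 5 := by
        rw [Nat.mul_comm, Nat.mul_add_div hL, Nat.div_eq_of_lt hlt, add_zero,
          Nat.mod_eq_of_lt (by omega)]
      have e2 : (5 * L K + (p + i) / 3) % L K = (p + i) / 3 := by
        rw [Nat.mul_comm, Nat.mul_add_mod, Nat.mod_eq_of_lt hlt]
      rw [e1, e2]
      simp only [true_or, if_true]
      rw [zero_mul, zero_add, Nat.mod_eq_of_lt hlt]
  set Λ := 3 * L (K + 1) with hΛ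
  have hΛ0 : 0 < Λ := by have := L_pos (K + 1); omega
  have hcount : ∀ n : ℕ, ((range n).filter fun J => ∀ r : Fin (L (K + 1)),
      b (J * L (K + 1) + r) = v r).card ≤ cnt (occ (q b) m B) (Λ * n) := by
    intro n
    unfold cnt
    apply Finset.card_le_card_of_injOn (fun J => 3 * (J * L (K + 1) + 5 * L K) + p)
    · intro J hJ
      have hJ' := Finset.mem_filter.mp (Finset.mem_coe.mp hJ)
      rw [Finset.mem_range] at hJ'
      apply Finset.mem_coe.mpr
      rw [Finset.mem_filter, Finset.mem_Icc]
      refine ⟨⟨?_, ?_⟩, hocc J hJ'.2⟩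
      · change 1 ≤ 3 * (J * L (K + 1) + 5 * L K) + p
        have := Nat.zero_le (J * L (K + 1))
        omega
      have h8 : 8 * L K ≤ L (K + 1) := by rw [L_succ]; exact Nat.mul_le_mul_right _ hN
      calc 3 * (J * L (K + 1) + 5 * L K) + p ≤ 3 * (J * L (K + 1) + L (K + 1)) := by omega
        _ = Λ * (J + 1) := by rw [hΛ]; ring
        _ ≤ Λ * n := Nat.mul_le_mul_left _ hJ'.1
    · intro J _ J' _ hJJ
      simp only at hJJ
      have hL1 := L_pos (K + 1)
      have : J * L (K + 1) = J' * L (K + 1) := by omega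
      exact Nat.eq_of_mul_eq_mul_right hL1 this
  have hlim1 : Tendsto (fun n : ℕ => (cnt (occ (q b) m B) (Λ * n) : ℝ) / ((Λ * n : ℕ) : ℝ)) atTop
      (𝓝 x) := by
    have hat : Tendsto (fun n : ℕ => Λ * n) atTop atTop :=
      tendsto_id.const_mul_atTop' hΛ0
    exact hx.comp hat
  have hlim2 := hfreq.mul_const ((Λ : ℝ)⁻¹)
  have hle : 1 / ((C (K + 1)).card : ℝ) * (Λ : ℝ)⁻¹ ≤ x := by
    refine le_of_tendsto_of_tendsto hlim2 hlim1 ?_
    filter_upwards [eventually_ge_atTop 1] with n hn
    have hn0 : (0 : ℝ) < n := by exact_mod_cast hn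
    have hΛr : (0 : ℝ) < Λ := by exact_mod_cast hΛ0
    rw [div_mul_eq_mul_div, div_le_div_iff₀ hn0 (by push_cast; positivity)]
    have h3 : (((range n).filter fun J => ∀ r : Fin (L (K + 1)),
      b (J * L (K + 1) + r) = v r).card : ℝ) ≤ cnt (occ (q b) m B) (Λ * n) := by
      exact_mod_cast hcount n
    push_cast
    calc (((range n).filter fun J => ∀ r : Fin (L (K + 1)),
          b (J * L (K + 1) + r) = v r).card : ℝ) * (Λ : ℝ)⁻¹ * (Λ * n) =
          (((range n).filter fun J => ∀ r : Fin (L (K + 1)),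
          b (J * L (K + 1) + r) = v r).card : ℝ) * n := by field_simp
      _ ≤ _ := mul_le_mul_of_nonneg_right h3 hn0.le
  have hΛr : (0 : ℝ) < Λ := by exact_mod_cast hΛ0
  have : 0 < 1 / ((C (K + 1)).card : ℝ) * (Λ : ℝ)⁻¹ := by positivity
  linarith

theorem freq (h1 : S_sig) (h12 : S_lf) : S_freq := by
  intro b hb hg m B
  obtain ⟨x, hx⟩ := exists_dens h1 h12 hb hg m B
  exact ⟨x, hx, fun ⟨p, hp⟩ => pos_dens h1 hb hg m B x hx p hp⟩

end Pool.Agent.Q87.BS
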