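import Pool.Agent.Q87.BS.Cnt

set_option autoImplicit false

/-! # Project BS: normal sequences of digits have the expected joint densities -/

namespace Pool.Agent.Q87.BS

open Finset Filter Topology

lemma ext_lt {m M : ℕ} (w : Fin m → Fin M) {i : ℕ} (hi : i < m) : ext w i = w ⟨i, hi⟩ := by
  unfold ext; rw [dif_pos hi]

/-- The block of `y` at the place `j`, with values below `M`. -/
def blk (y : ℕ → ℕ) (M : ℕ) (hy : ∀ n, 1 ≤ n → y n < M) (m j : ℕ) (hj : 1 ≤ j) : Fin m → Fin M :=
  fun i => ⟨y (j + i), hy _ (by omega)⟩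

lemma occ_ext_iff (y : ℕ → ℕ) {M m : ℕ} (w : Fin m → Fin M) (j : ℕ) :
    occ y m (ext w) j ↔ ∀ i : Fin m, y (j + i) = w i := by
  unfold occ
  constructor
  · intro h i
    rw [h i i.2, ext_lt w i.2]
  · intro h i hi
    rw [ext_lt w hi]
    exact h ⟨i, hi⟩

lemma occ_ext_unique (y : ℕ → ℕ) {M m : ℕ} {w w' : Fin m → Fin M} {j : ℕ}
    (h : occ y m (ext w) j) (h' : occ y m (ext w') j) : w = w' := by
  rw [occ_ext_iff] at h h'
  funext i
  apply Fin.ext
  rw [← h i, ← h' i]

lemma exists_occ_ext (y : ℕ → ℕ) {M : ℕ} (hy : ∀ n, 1 ≤ n → y n < M) (m j : ℕ) (hj : 1 ≤ j) :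
    ∃ w : Fin m → Fin M, occ y m (ext w) j :=
  ⟨blk y M hy m j hj, (occ_ext_iff _ _ _).mpr fun _ => rfl⟩

open Classical in
/-- Averages of a function of the block. -/
lemma sum_block (y : ℕ → ℕ) {M : ℕ} (hy : ∀ n, 1 ≤ n → y n < M) (m n : ℕ)
    (G : ℕ → ℝ) (g : (Fin m → Fin M) → ℝ)
    (hG : ∀ j, 1 ≤ j → ∀ w : Fin m → Fin M, occ y m (ext w) j → G j = g w) :
    ∑ j ∈ Icc 1 n, G j = ∑ w : Fin m → Fin M, g w * cnt (occ y m (ext w)) n := by
  have h1 : ∀ j ∈ Icc 1 n, G j = ∑ w : Fin m → Fin M, if occ y m (ext w) j then g w else 0 := by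
    intro j hj
    have hj1 := (Finset.mem_Icc.mp hj).1
    obtain ⟨w, hw⟩ := exists_occ_ext y hy m j hj1
    rw [Finset.sum_eq_single w]
    · rw [if_pos hw, hG j hj1 w hw]
    · intro w' _ hne
      rw [if_neg fun h => hne (occ_ext_unique y h hw)]
    · intro h; exact absurd (Finset.mem_univ w) h
  rw [Finset.sum_congr rfl h1, Finset.sum_comm]
  apply Finset.sum_congr rfl
  intro w _
  rw [cnt_eq_sum, Finset.mul_sum]
  apply Finset.sum_congr rfl
  intro j _
  split_ifs <;> simp

lemma tendsto_block (y : ℕ → ℕ) {M : ℕ} (hy : ∀ n, 1 ≤ n → y n < M) (m : ℕ)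
    (X : (Fin m → Fin M) → ℝ) (hX : ∀ w, Dens (occ y m (ext w)) (X w))
    (G : ℕ → ℝ) (g : (Fin m → Fin M) → ℝ)
    (hG : ∀ j, 1 ≤ j → ∀ w : Fin m → Fin M, occ y m (ext w) j → G j = g w) :
    Tendsto (fun n : ℕ => (∑ j ∈ Icc 1 n, G j) / n) atTop
      (𝓝 (∑ w : Fin m → Fin M, g w * X w)) := by
  have h1 : ∀ n : ℕ, (∑ j ∈ Icc 1 n, G j) / n =
      ∑ w : Fin m → Fin M, g w * ((cnt (occ y m (ext w)) n : ℝ) / n) := by
    intro n
    rw [sum_block y hy m n G g hG, Finset.sum_div]
    apply Finset.sum_congr rfl
    intro w _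
    rw [mul_div_assoc]
  simp only [h1]
  apply tendsto_finsetSum
  intro w _
  exact (hX w).const_mul _

lemma W_of_occ {q : ℕ → ℕ} {m j : ℕ} {B w : ℕ → ℕ} (h : occ q m B j) : W q j m w = V m B w := by
  unfold W V
  apply Finset.prod_congr rfl
  intro i hi
  rw [h i (Finset.mem_range.mp hi)]

lemma W_nonneg (q : ℕ → ℕ) (j m : ℕ) (w : ℕ → ℕ) : 0 ≤ W q j m w := by
  unfold W
  apply Finset.prod_nonneg
  intro i _
  split_ifs
  · positivity
  · exact le_refl _

lemma fits_of_W {q : ℕ → ℕ} {j m : ℕ} {w : ℕ → ℕ} (h : W q j m w ≠ 0) :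
    ∀ i < m, w i < q (j + i) := by
  intro i hi
  by_contra hcon
  apply h
  unfold W
  apply Finset.prod_eq_zero (Finset.mem_range.mpr hi)
  rw [if_neg hcon]

lemma V_nonneg (m : ℕ) (B D : ℕ → ℕ) : 0 ≤ V m B D := by
  unfold V
  apply Finset.prod_nonneg
  intro i _
  split_ifs
  · positivity
  · exact le_refl _

open Classical in
/-- The probability of a single block. -/
lemma pr_block (q : ℕ → ℕ) (M j l : ℕ) (D : ℕ → ℕ) (hq : Bd q M) :
    pr q M j l (fun w => ∀ i < l, w i = D i) = W q j l D := by
  unfold pr
  by_cases hD : ∀ i < l, D i < M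
  · let w0 : Fin l → Fin M := fun i => ⟨D i, hD i i.2⟩
    rw [Finset.sum_eq_single w0]
    · have h1 : ∀ i < l, ext w0 i = D i := fun i hi => by rw [ext_lt w0 hi]
      rw [if_pos h1]
      unfold W
      apply Finset.prod_congr rfl
      intro i hi
      rw [h1 i (Finset.mem_range.mp hi)]
    · intro w _ hne
      rw [if_neg]
      intro h
      apply hne
      funext i
      apply Fin.ext
      have := h i i.2
      rw [ext_lt w i.2] at this
      exact this
    · intro h; exact absurd (Finset.mem_univ _) h
  · have h0 : W q j l D = 0 := by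
      by_contra hne
      apply hD
      intro i hi
      exact lt_of_lt_of_le (fits_of_W hne i hi) (hq _).2
    rw [h0]
    apply Finset.sum_eq_zero
    intro w _
    rw [if_neg]
    intro h
    apply hD
    intro i hi
    rw [← h i hi, ext_lt w hi]
    exact (w _).2

open Classical in
lemma pr_mono (q : ℕ → ℕ) (M j m : ℕ) {E E' : (ℕ → ℕ) → Prop} (h : ∀ w, E w → E' w) :
    pr q M j m E ≤ pr q M j m E' := by
  unfold pr
  apply Finset.sum_le_sum
  intro w _
  have := W_nonneg q j m (ext w)
  split_ifs with h1 h2 h2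
  · exact le_refl _
  · exact absurd (h _ h1) h2
  · exact this
  · exact le_refl _

lemma pr_nonneg (q : ℕ → ℕ) (M j m : ℕ) (E : (ℕ → ℕ) → Prop) : 0 ≤ pr q M j m E := by
  classical
  unfold pr
  apply Finset.sum_nonneg
  intro w _
  have := W_nonneg q j m (ext w)
  split_ifs
  · exact this
  · exact le_refl _

open Classical in
/-- The sum of `V` over all blocks of digits is one. -/
lemma sum_V (M l : ℕ) (B : ℕ → ℕ) (hB : ∀ i < l, 1 ≤ B i ∧ B i ≤ M) :
    ∑ D : Fin l → Fin M, V l B (ext D) = 1 := by
  have h1 : ∀ D : Fin l → Fin M, V l B (ext D) =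
      ∏ i : Fin l, if (D i : ℕ) < B i then ((B i : ℝ))⁻¹ else 0 := by
    intro D
    unfold V
    rw [Finset.prod_range]
    apply Finset.prod_congr rfl
    intro i _
    rw [ext_lt D i.2]
  simp only [h1]
  have hps := Finset.prod_univ_sum (fun _ : Fin l => (Finset.univ : Finset (Fin M)))
    (fun i x => if (x : ℕ) < B i then ((B i : ℝ))⁻¹ else 0)
  rw [Fintype.piFinset_univ] at hps
  rw [← hps]
  apply Finset.prod_eq_one
  intro i _
  rw [Finset.sum_ite, Finset.sum_const_zero, add_zero, Finset.sum_const, nsmul_eq_mul]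
  have h2 : (Finset.univ.filter fun x : Fin M => (x : ℕ) < B i).card = B i := by
    rw [Fin.card_filter_val_lt]
    exact min_eq_right (hB i i.2).2
  rw [h2]
  have h3 : (B i : ℝ) ≠ 0 := by
    have := (hB i i.2).1
    positivity
  exact mul_inv_cancel₀ h3

/-- Lower densities of words of digits. -/
lemma LD_word {q : ℕ → ℕ} {d : ℕ → ℕ} (hd : Normal q d) {m : ℕ}
    (hm : 1 ≤ m) (w : ℕ → ℕ) (ν : ℝ)
    (hν : Tendsto (fun n : ℕ => (∑ j ∈ Icc 1 n, W q j m w) / n) atTop (𝓝 ν)) :
    LD (occ d m w) ν := by
  have hν0 : 0 ≤ ν := ge_of_tendsto' hν fun n => by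
    apply div_nonneg _ (Nat.cast_nonneg n)
    exact Finset.sum_nonneg fun j _ => W_nonneg q j m w
  rcases hν0.eq_or_lt with h0 | h0
  · rw [← h0]; exact LD_zero _
  · apply LD_of_dens
    have hinf : Tendsto (fun n => ∑ j ∈ Icc 1 n, W q j m w) atTop atTop := by
      have h1 : Tendsto (fun n : ℕ => (∑ j ∈ Icc 1 n, W q j m w) / n * n) atTop atTop :=
        hν.pos_mul_atTop h0 tendsto_natCast_atTop_atTop
      refine h1.congr' ?_
      filter_upwards [eventually_ge_atTop 1] with n hn
      have : (n : ℝ) ≠ 0 := by positivity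
      field_simp
    have h2 := hd m hm w hinf
    have h3 := h2.mul hν
    rw [one_mul] at h3
    unfold Dens
    refine h3.congr' ?_
    filter_upwards [hinf.eventually_gt_atTop 0] with n hn
    field_simp

theorem joint (h4 : S_pr) : S_joint := by
  classical
  intro q M d hB hF hD hdig hN
  have hdM : ∀ n, 1 ≤ n → d n < M := fun n hn => lt_of_lt_of_le (hdig n hn) (hB n).2
  have hqM : ∀ n, 1 ≤ n → q n < M + 1 := fun n _ => Nat.lt_succ_of_le (hB n).2
  -- lower bounds
  have lower : ∀ (l : ℕ) (B D : ℕ → ℕ) (x : ℝ), Dens (occ q l B) x →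
      LD (fun j => occ q l B j ∧ occ d l D j) (x * V l B D) := by
    intro l B D x hx
    apply LD_of_forall
    intro ε hε
    obtain ⟨m, a, ham, hev⟩ := hD (l + 1) ε hε
    have hm : 1 ≤ m := by omega
    apply LD_unshift a
    -- the words
    let S : Finset (Fin m → Fin M) := Finset.univ.filter fun w =>
      Dec q m a (l + 1) (ext w) ∧ (∀ i < l, ext w (a + i) = D i) ∧
        ∃ p, (∀ i < m, ext w i < q (p + i)) ∧ ∀ i < l, q (p + a + i) = B i
    -- densities of blocks
    have hXex : ∀ B' : Fin m → Fin (M + 1), ∃ x : ℝ, Dens (occ q m (ext B')) x :=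
      fun B' => (hF m (ext B')).imp fun x h => h.1
    choose X hX using hXex
    have hν : ∀ w : ℕ → ℕ, Tendsto (fun n : ℕ => (∑ j ∈ Icc 1 n, W q j m w) / n) atTop
        (𝓝 (∑ B' : Fin m → Fin (M + 1), V m (ext B') w * X B')) := by
      intro w
      exact tendsto_block q hqM m X hX _ (fun B' => V m (ext B') w) fun j _ B' h => W_of_occ h
    set ν : (Fin m → Fin M) → ℝ := fun w => ∑ B' : Fin m → Fin (M + 1), V m (ext B') (ext w) * X B'
      with hνdef
    have h1 : LD (fun j => occ q l B (j + a) ∧ occ d l D (j + a)) (∑ w ∈ S, ν w) := by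
      apply LD_sum S (fun w => occ d m (ext w))
      · intro j _ w _ w' _ hw hw'
        exact occ_ext_unique d hw hw'
      · intro j hj w hw hocc
        rw [Finset.mem_filter] at hw
        obtain ⟨-, hdec, hwD, p, hp, hpB⟩ := hw
        have hfit : ∀ i < m, ext w i < q (j + i) := by
          intro i hi
          rw [← hocc i hi]
          exact hdig _ (by omega)
        constructor
        · intro i hi
          have := hdec j p hfit hp i (by omega)
          rw [this]
          exact hpB i hi
        · intro i hi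
          rw [← hwD i hi, ← hocc (a + i) (by omega)]
          congr 1
          omega
      · intro w _
        exact LD_word hN hm (ext w) (ν w) (hν (ext w))
    refine LD_le ?_ h1
    -- comparison of the limits
    have hlim1 : Tendsto (fun n : ℕ => (∑ j ∈ Icc 1 n, ∑ w ∈ S, W q j m (ext w)) / n) atTop
        (𝓝 (∑ w ∈ S, ν w)) := by
      have : ∀ n : ℕ, (∑ j ∈ Icc 1 n, ∑ w ∈ S, W q j m (ext w)) / n =
          ∑ w ∈ S, (∑ j ∈ Icc 1 n, W q j m (ext w)) / n := by
        intro n
        rw [Finset.sum_comm, Finset.sum_div]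
      simp only [this]
      apply tendsto_finsetSum
      intro w _
      exact hν (ext w)
    have hlim2 : Tendsto (fun n : ℕ => (cnt (fun j => occ q l B (j + a)) n : ℝ) / n * V l B D - ε)
        atTop (𝓝 (x * V l B D - ε)) :=
      ((dens_shift a hx).mul_const _).sub_const _
    refine le_of_tendsto_of_tendsto hlim2 hlim1 ?_
    filter_upwards [hev, eventually_ge_atTop 1] with n hn hn1
    have hn0 : (0 : ℝ) < n := by exact_mod_cast hn1
    rw [le_div_iff₀ hn0]
    have key : ∀ j ∈ Icc 1 n, (if occ q l B (j + a) then V l B D else 0) -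
        pr q M j m (fun w => ¬ Dec q m a (l + 1) w) ≤ ∑ w ∈ S, W q j m (ext w) := by
      intro j _
      by_cases hocc : occ q l B (j + a)
      · rw [if_pos hocc]
        have e1 : V l B D = pr q M j m (fun w => ∀ i < l, w (a + i) = D i) := by
          rw [h4.2.1 q M j m a l (fun w => ∀ i < l, w i = D i) hB (by omega)
            (by
              intro w w' hww
              constructor
              · intro h i hi; rw [← hww i hi]; exact h i hi
              · intro h i hi; rw [hww i hi]; exact h i hi), pr_block q M (j + a) l D hB,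
            W_of_occ hocc]
        rw [e1]
        have e2 : ∑ w ∈ S, W q j m (ext w) =
            ∑ w : Fin m → Fin M, if w ∈ S then W q j m (ext w) else 0 := by
          rw [Finset.sum_ite_mem]; simp
        rw [e2]
        unfold pr
        rw [← Finset.sum_sub_distrib]
        apply Finset.sum_le_sum
        intro w _
        have hW := W_nonneg q j m (ext w)
        by_cases hW0 : W q j m (ext w) = 0
        · rw [hW0]; simp
        · by_cases c1 : ∀ i < l, ext w (a + i) = D i
          · by_cases c2 : Dec q m a (l + 1) (ext w)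
            · have hwS : w ∈ S := by
                rw [Finset.mem_filter]
                refine ⟨Finset.mem_univ _, c2, c1, j, fits_of_W hW0, ?_⟩
                intro i hi
                exact hocc i hi
              rw [if_pos c1, if_neg (not_not.mpr c2), if_pos hwS, sub_zero]
            · rw [if_pos c1, if_pos c2, sub_self]
              split_ifs
              · exact hW
              · exact le_refl _
          · rw [if_neg c1, zero_sub]
            split_ifs <;> linarith
      · rw [if_neg hocc, zero_sub]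
        have p1 := pr_nonneg q M j m (fun w => ¬ Dec q m a (l + 1) w)
        have p2 : 0 ≤ ∑ w ∈ S, W q j m (ext w) := Finset.sum_nonneg fun w _ => W_nonneg q j m _
        linarith
    have hsum := Finset.sum_le_sum key
    rw [Finset.sum_sub_distrib] at hsum
    have e3 : ∑ j ∈ Icc 1 n, (if occ q l B (j + a) then V l B D else 0) =
        (cnt (fun j => occ q l B (j + a)) n : ℝ) * V l B D := by
      rw [cnt_eq_sum, Finset.sum_mul]
      apply Finset.sum_congr rfl
      intro j _
      split_ifs <;> simp
    rw [e3] at hsum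
    have e4 : ((cnt (fun j => occ q l B (j + a)) n : ℝ) / n * V l B D - ε) * n =
        (cnt (fun j => occ q l B (j + a)) n : ℝ) * V l B D - ε * n := by
      field_simp
    rw [e4]
    linarith
  -- all joint densities
  intro l B D x hx
  by_cases hrange : (∀ i < l, B i < M + 1) ∧ ∀ i < l, D i < M
  · obtain ⟨hBr, hDr⟩ := hrange
    have hXex : ∀ B' : Fin l → Fin (M + 1), ∃ x : ℝ, Dens (occ q l (ext B')) x :=
      fun B' => (hF l (ext B')).imp fun x h => h.1
    choose X hX using hXex
    have hsum : ∑ z : (Fin l → Fin (M + 1)) × (Fin l → Fin M), X z.1 * V l (ext z.1) (ext z.2)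
        = 1 := by
      rw [Fintype.sum_prod_type]
      simp only [← Finset.mul_sum]
      have h1 : ∀ B' : Fin l → Fin (M + 1), X B' * ∑ D' : Fin l → Fin M, V l (ext B') (ext D') =
          X B' := by
        intro B'
        by_cases hB' : ∀ i < l, 1 ≤ ext B' i ∧ ext B' i ≤ M
        · rw [sum_V M l (ext B') hB', mul_one]
        · have : X B' = 0 := by
            apply dens_unique (hX B')
            apply dens_zero
            intro j _ hocc
            apply hB'
            intro i hi
            rw [← hocc i hi]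
            have := hB (j + i)
            omega
          rw [this, zero_mul]
      rw [Finset.sum_congr rfl fun B' _ => h1 B']
      have h2 := tendsto_block q hqM l X hX (fun _ => (1 : ℝ)) (fun _ => 1) fun _ _ _ _ => rfl
      simp only [one_mul] at h2
      apply tendsto_nhds_unique h2
      refine Tendsto.congr' ?_ tendsto_const_nhds
      filter_upwards [eventually_ge_atTop 1] with n hn
      have : (n : ℝ) ≠ 0 := by positivity
      rw [Finset.sum_const, nsmul_eq_mul, mul_one, Nat.card_Icc, Nat.add_sub_cancel,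
        div_self this]
    have hall := dens_of_LD (Finset.univ : Finset ((Fin l → Fin (M + 1)) × (Fin l → Fin M)))
      (fun z j => occ q l (ext z.1) j ∧ occ d l (ext z.2) j)
      (fun z => X z.1 * V l (ext z.1) (ext z.2))
      (by
        intro j _ z _ z' _ h h'
        exact Prod.ext (occ_ext_unique q h.1 h'.1) (occ_ext_unique d h.2 h'.2))
      hsum (fun z _ => lower l (ext z.1) (ext z.2) (X z.1) (hX z.1))
    let B0 : Fin l → Fin (M + 1) := fun i => ⟨B i, hBr i i.2⟩
    let D0 : Fin l → Fin M := fun i => ⟨D i, hDr i i.2⟩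
    have eB : ∀ i < l, ext B0 i = B i := fun i hi => by rw [ext_lt B0 hi]
    have eD : ∀ i < l, ext D0 i = D i := fun i hi => by rw [ext_lt D0 hi]
    have oB : ∀ j, occ q l (ext B0) j ↔ occ q l B j := by
      intro j
      constructor
      · intro h i hi; rw [h i hi, eB i hi]
      · intro h i hi; rw [h i hi, eB i hi]
    have oD : ∀ j, occ d l (ext D0) j ↔ occ d l D j := by
      intro j
      constructor
      · intro h i hi; rw [h i hi, eD i hi]
      · intro h i hi; rw [h i hi, eD i hi]
    have hV : V l (ext B0) (ext D0) = V l B D := by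
      unfold V
      apply Finset.prod_congr rfl
      intro i hi
      rw [eB i (Finset.mem_range.mp hi), eD i (Finset.mem_range.mp hi)]
    have hx0 : X B0 = x := dens_unique (dens_congr (fun j _ => oB j) (hX B0)) hx
    have := hall (B0, D0) (Finset.mem_univ _)
    simp only at this
    rw [hx0, hV] at this
    exact dens_congr (fun j _ => by rw [oB j, oD j]) this
  · have hzero : x * V l B D = 0 := by
      by_contra hne
      have hV : V l B D ≠ 0 := fun h => hne (by rw [h, mul_zero])
      have hx0 : x ≠ 0 := fun h => hne (by rw [h, zero_mul])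
      apply hrange
      have hBr : ∀ i < l, B i < M + 1 := by
        by_contra hcon
        push Not at hcon
        obtain ⟨i, hi, hBi⟩ := hcon
        apply hx0
        apply dens_unique hx
        apply dens_zero
        intro j _ hocc
        have h1 := hocc i hi
        have h2 := (hB (j + i)).2
        omega
      refine ⟨hBr, ?_⟩
      intro i hi
      by_contra hcon
      apply hV
      unfold V
      apply Finset.prod_eq_zero (Finset.mem_range.mpr hi)
      rw [if_neg]
      have := hBr i hi
      omega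
    rw [hzero]
    apply dens_zero
    intro j hj hboth
    apply hrange
    constructor
    · intro i hi
      rw [← hboth.1 i hi]
      exact hqM _ (by omega)
    · intro i hi
      rw [← hboth.2 i hi]
      exact hdM _ (by omega)

end Pool.Agent.Q87.BS
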