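import Pool.Agent.Q87.BS.Cnt

set_option autoImplicit false

/-! # Project BS: densities from block frequencies -/

namespace Pool.Agent.Q87.BS

open Finset Filter Topology

lemma tendsto_div_nat (Λ : ℕ) (h : 0 < Λ) :
    Tendsto (fun n : ℕ => ((n / Λ : ℕ) : ℝ) / n) atTop (𝓝 (1 / Λ)) := by
  have hΛ : (0 : ℝ) < Λ := by exact_mod_cast h
  have h0 : Tendsto (fun n : ℕ => 1 / (Λ : ℝ) - 1 / (n : ℝ)) atTop (𝓝 (1 / Λ)) := by
    simpa using (tendsto_const_nhds (x := 1 / (Λ : ℝ))).sub tendsto_one_div_atTop_nhds_zero_nat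
  refine tendsto_of_tendsto_of_tendsto_of_le_of_le' h0 tendsto_const_nhds ?_ ?_
  · filter_upwards [eventually_ge_atTop 1] with n hn
    have hn0 : (0 : ℝ) < n := by exact_mod_cast hn
    rw [div_sub_div _ _ hΛ.ne' hn0.ne', div_le_div_iff₀ (by positivity) hn0]
    have h1 : (n : ℝ) ≤ Λ * ((n / Λ : ℕ) : ℝ) + Λ := by
      have h2 := Nat.div_add_mod n Λ
      have h3 := Nat.mod_lt n h
      have h4 : n ≤ Λ * (n / Λ) + Λ := by omega
      exact_mod_cast h4
    nlinarith
  · filter_upwards [eventually_ge_atTop 1] with n hn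
    have hn0 : (0 : ℝ) < n := by exact_mod_cast hn
    rw [div_le_div_iff₀ hn0 hΛ, one_mul]
    have h4 : (n / Λ) * Λ ≤ n := Nat.div_mul_le_self n Λ
    exact_mod_cast h4

open Classical in
/-- The number of `j < n` with `A j`. -/
noncomputable def rcnt (A : ℕ → Prop) (n : ℕ) : ℕ := ((range n).filter A).card

lemma rcnt_cnt (A : ℕ → Prop) (n : ℕ) : rcnt A n ≤ cnt A n + 1 ∧ cnt A n ≤ rcnt A n + 1 := by
  classical
  unfold rcnt cnt
  constructor
  · calc _ ≤ (((Icc 1 n).filter A) ∪ {0}).card := by
          apply Finset.card_le_card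
          intro j hj
          rw [Finset.mem_filter, Finset.mem_range] at hj
          rw [Finset.mem_union, Finset.mem_filter, Finset.mem_Icc, Finset.mem_singleton]
          by_cases h : j = 0
          · right; exact h
          · left; exact ⟨by omega, hj.2⟩
      _ ≤ _ := Finset.card_union_le _ _
      _ = _ := by simp
  · calc _ ≤ (((range n).filter A) ∪ {n}).card := by
          apply Finset.card_le_card
          intro j hj
          rw [Finset.mem_filter, Finset.mem_Icc] at hj
          rw [Finset.mem_union, Finset.mem_filter, Finset.mem_range, Finset.mem_singleton]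
          by_cases h : j = n
          · right; exact h
          · left; exact ⟨by omega, hj.2⟩
      _ ≤ _ := Finset.card_union_le _ _
      _ = _ := by simp

open Classical in
/-- Counting over blocks of length `Λ`. -/
lemma rcnt_mul (A : ℕ → Prop) (Λ K : ℕ) :
    rcnt A (Λ * K) = ∑ J ∈ range K, ((range Λ).filter fun r => A (Λ * J + r)).card := by
  induction K with
  | zero => simp [rcnt]
  | succ K ih =>
    rw [Finset.sum_range_succ, ← ih]
    unfold rcnt
    have h1 : (range (Λ * (K + 1))).filter A = ((range (Λ * K)).filter A) ∪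
        (((range Λ).filter fun r => A (Λ * K + r)).image fun r => Λ * K + r) := by
      ext j
      simp only [Finset.mem_filter, Finset.mem_range, Finset.mem_union, Finset.mem_image]
      constructor
      · rintro ⟨h1, h2⟩
        by_cases h : j < Λ * K
        · left; exact ⟨h, h2⟩
        · right
          refine ⟨j - Λ * K, ⟨?_, ?_⟩, by omega⟩
          · rw [Nat.mul_succ] at h1; omega
          · rw [show Λ * K + (j - Λ * K) = j by omega]; exact h2
      · rintro (⟨h1, h2⟩ | ⟨r, ⟨h1, h2⟩, rfl⟩)
        · exact ⟨by rw [Nat.mul_succ]; omega, h2⟩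
        · exact ⟨by rw [Nat.mul_succ]; omega, h2⟩
    rw [h1, Finset.card_union_of_disjoint, Finset.card_image_of_injective]
    · intro x y h; simpa using h
    · rw [Finset.disjoint_left]
      intro j hj hj'
      rw [Finset.mem_filter, Finset.mem_range] at hj
      rw [Finset.mem_image] at hj'
      obtain ⟨r, _, rfl⟩ := hj'
      omega

lemma rcnt_mono (A : ℕ → Prop) {m n : ℕ} (h : m ≤ n) : rcnt A m ≤ rcnt A n := by
  classical
  unfold rcnt
  apply Finset.card_le_card
  apply Finset.filter_subset_filter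
  intro x hx
  rw [Finset.mem_range] at hx ⊢
  omega

theorem lf : S_lf := by
  classical
  intro A h
  have main : ∀ ε : ℝ, 0 < ε → ∃ S : ℝ, ∀ᶠ n : ℕ in atTop, |(cnt A n : ℝ) / n - S| ≤ 3 * ε := by
    intro ε hε
    obtain ⟨Λ, F, _, _, w, R, φ, hΛ, hfreq, hR, hφ⟩ := h ε hε
    choose X hX using hfreq
    have hΛ0 : (0 : ℝ) < Λ := by exact_mod_cast hΛ
    let α : F → ℕ := fun u => ((range Λ).filter fun r => r ∉ R ∧ φ u r).card
    let T : ℕ → ℕ := fun K => ∑ J ∈ range K, α (w J)
    have hT : ∀ K, T K = ∑ u : F, α u * ((range K).filter fun j => w j = u).card := by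
      intro K
      simp only [T]
      have : ∀ J ∈ range K, α (w J) = ∑ u : F, if w J = u then α u else 0 := by
        intro J _
        rw [Finset.sum_ite_eq, if_pos (Finset.mem_univ _)]
      rw [Finset.sum_congr rfl this, Finset.sum_comm]
      apply Finset.sum_congr rfl
      intro u _
      rw [← Finset.sum_filter, Finset.sum_const, smul_eq_mul, mul_comm]
    have hTlim : Tendsto (fun K : ℕ => (T K : ℝ) / K) atTop (𝓝 (∑ u : F, α u * X u)) := by
      have : ∀ K : ℕ, (T K : ℝ) / K =
          ∑ u : F, (α u : ℝ) * ((((range K).filter fun j => w j = u).card : ℝ) / K) := by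
        intro K
        rw [hT K]
        push_cast
        rw [Finset.sum_div]
        apply Finset.sum_congr rfl
        intro u _
        rw [mul_div_assoc]
      simp only [this]
      apply tendsto_finsetSum
      intro u _
      exact (hX u).const_mul _
    refine ⟨(∑ u : F, α u * X u) * (1 / Λ), ?_⟩
    have h1 : Tendsto (fun n : ℕ => (T (n / Λ) : ℝ) / ((n / Λ : ℕ) : ℝ) * (((n / Λ : ℕ) : ℝ) / n))
        atTop (𝓝 ((∑ u : F, α u * X u) * (1 / Λ))) :=
      (hTlim.comp (Nat.tendsto_div_const_atTop hΛ.ne')).mul (tendsto_div_nat Λ hΛ)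
    have h2 := (Metric.tendsto_atTop.mp h1) ε hε
    obtain ⟨n1, hn1⟩ := h2
    obtain ⟨n2, hn2⟩ := exists_nat_gt (((Λ : ℝ) + 1) / ε)
    filter_upwards [eventually_ge_atTop n1, eventually_ge_atTop n2, eventually_ge_atTop Λ,
      eventually_ge_atTop 1] with n e1 e2 e3 e4
    have hn0 : (0 : ℝ) < n := by exact_mod_cast e4
    have hK1 : 1 ≤ n / Λ := (Nat.one_le_div_iff hΛ).mpr e3
    have hK0 : (0 : ℝ) < ((n / Λ : ℕ) : ℝ) := by exact_mod_cast hK1
    have a1 := hn1 n e1
    rw [Real.dist_eq] at a1
    have a2 : (T (n / Λ) : ℝ) / ((n / Λ : ℕ) : ℝ) * (((n / Λ : ℕ) : ℝ) / n) =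
        (T (n / Λ) : ℝ) / n := by field_simp
    rw [a2] at a1
    -- comparison of rcnt and T
    have b1 : T (n / Λ) ≤ rcnt A n := by
      calc T (n / Λ) ≤ rcnt A (Λ * (n / Λ)) := by
            rw [rcnt_mul]
            apply Finset.sum_le_sum
            intro J _
            apply Finset.card_le_card
            intro r hr
            rw [Finset.mem_filter, Finset.mem_range] at hr ⊢
            exact ⟨hr.1, (hφ J r hr.1 hr.2.1).mpr hr.2.2⟩
        _ ≤ rcnt A n := rcnt_mono A (Nat.mul_div_le n Λ)
    have b2 : rcnt A n ≤ T (n / Λ) + R.card * (n / Λ) + Λ := by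
      have c1 : rcnt A n ≤ rcnt A (Λ * (n / Λ)) + Λ := by
        unfold rcnt
        calc ((range n).filter A).card ≤
              (((range (Λ * (n / Λ))).filter A) ∪ (Ico (Λ * (n / Λ)) n)).card := by
              apply Finset.card_le_card
              intro j hj
              rw [Finset.mem_filter, Finset.mem_range] at hj
              rw [Finset.mem_union, Finset.mem_filter, Finset.mem_range, Finset.mem_Ico]
              by_cases h : j < Λ * (n / Λ)
              · left; exact ⟨h, hj.2⟩
              · right; omega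
          _ ≤ _ := Finset.card_union_le _ _
          _ ≤ _ := by
              rw [Nat.card_Ico]
              have := Nat.div_add_mod n Λ
              have := Nat.mod_lt n hΛ
              omega
      have c2 : rcnt A (Λ * (n / Λ)) ≤ T (n / Λ) + R.card * (n / Λ) := by
        rw [rcnt_mul]
        simp only [T]
        have : R.card * (n / Λ) = ∑ _J ∈ range (n / Λ), R.card := by
          rw [Finset.sum_const, card_range, smul_eq_mul, mul_comm]
        rw [this, ← Finset.sum_add_distrib]
        apply Finset.sum_le_sum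
        intro J _
        calc ((range Λ).filter fun r => A (Λ * J + r)).card ≤
              (((range Λ).filter fun r => r ∉ R ∧ φ (w J) r) ∪ R).card := by
              apply Finset.card_le_card
              intro r hr
              rw [Finset.mem_filter, Finset.mem_range] at hr
              rw [Finset.mem_union, Finset.mem_filter, Finset.mem_range]
              by_cases h : r ∈ R
              · right; exact h
              · left; exact ⟨hr.1, h, (hφ J r hr.1 h).mp hr.2⟩
          _ ≤ _ := Finset.card_union_le _ _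
      omega
    have b3 := rcnt_cnt A n
    -- real inequalities
    have r1 : (T (n / Λ) : ℝ) - 1 ≤ cnt A n := by
      have : T (n / Λ) ≤ cnt A n + 1 := le_trans b1 b3.1
      have h' : (T (n / Λ) : ℝ) ≤ cnt A n + 1 := by exact_mod_cast this
      linarith
    have r2 : (cnt A n : ℝ) ≤ T (n / Λ) + ε * n + Λ + 1 := by
      have h1 : cnt A n ≤ T (n / Λ) + R.card * (n / Λ) + Λ + 1 := by omega
      have h2 : (cnt A n : ℝ) ≤ T (n / Λ) + R.card * ((n / Λ : ℕ) : ℝ) + Λ + 1 := by
        exact_mod_cast h1
      have h3 : (R.card : ℝ) * ((n / Λ : ℕ) : ℝ) ≤ ε * n := by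
        calc (R.card : ℝ) * ((n / Λ : ℕ) : ℝ) ≤ (ε * Λ) * ((n / Λ : ℕ) : ℝ) :=
              mul_le_mul_of_nonneg_right hR hK0.le
          _ = ε * (Λ * ((n / Λ : ℕ) : ℝ)) := by ring
          _ ≤ ε * n := by
              apply mul_le_mul_of_nonneg_left _ hε.le
              exact_mod_cast Nat.mul_div_le n Λ
      linarith
    have r3 : (Λ : ℝ) + 1 ≤ ε * n := by
      have h3 : (n2 : ℝ) ≤ n := by exact_mod_cast e2
      have h4 : ((Λ : ℝ) + 1) / ε ≤ n := by linarith
      rw [div_le_iff₀ hε] at h4
      linarith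
    have s1 : (T (n / Λ) : ℝ) / n - ε ≤ (cnt A n : ℝ) / n := by
      rw [div_sub' hn0.ne', div_le_div_iff_of_pos_right hn0]
      nlinarith
    have s2 : (cnt A n : ℝ) / n ≤ (T (n / Λ) : ℝ) / n + 2 * ε := by
      rw [div_add' _ _ _ hn0.ne', div_le_div_iff_of_pos_right hn0]
      nlinarith
    rw [abs_lt] at a1
    rw [abs_le]
    constructor <;> linarith
  have hc : CauchySeq (fun n : ℕ => (cnt A n : ℝ) / n) := by
    rw [Metric.cauchySeq_iff]
    intro ε hε
    obtain ⟨S, hS⟩ := main (ε / 12) (by linarith)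
    obtain ⟨n0, hn0⟩ := Filter.eventually_atTop.mp hS
    refine ⟨n0, fun m hm n hn => ?_⟩
    have h1 := hn0 m hm
    have h2 := hn0 n hn
    rw [Real.dist_eq]
    calc |(cnt A m : ℝ) / m - (cnt A n : ℝ) / n| =
          |((cnt A m : ℝ) / m - S) - ((cnt A n : ℝ) / n - S)| := by congr 1; ring
      _ ≤ |(cnt A m : ℝ) / m - S| + |(cnt A n : ℝ) / n - S| := abs_sub _ _
      _ < ε := by linarith
  exact cauchySeq_tendsto_of_complete hc

end Pool.Agent.Q87.BS
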