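import Pool.Agent.Q87.BS.Step

set_option autoImplicit false

/-! # Project BS: the main theorem from the statements of the jobs -/

namespace Pool.Agent.Q87.BS

open Finset Filter Topology

lemma bd_q (h : S_sig) (b : ℕ → ZMod 2) : Bd (q b) (2 ^ 90) := by
  intro n
  have hc := c_lt h b (n / 3)
  unfold q
  split_ifs
  · constructor
    · norm_num
    · exact le_refl _
  · constructor
    · calc 2 = 2 ^ 1 := by norm_num
        _ ≤ 2 ^ (10 * (c b (n / 3) + 1)) := Nat.pow_le_pow_right (by norm_num) (by omega)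
    · exact Nat.pow_le_pow_right (by norm_num) (by omega)
  · constructor
    · calc 2 = 2 ^ 1 := by norm_num
        _ ≤ 2 ^ (10 * (8 - c b (n / 3))) := Nat.pow_le_pow_right (by norm_num) (by omega)
    · exact Nat.pow_le_pow_right (by norm_num) (by omega)

lemma le_L (k : ℕ) : k ≤ L k := by
  induction k with
  | zero => omega
  | succ k ih =>
    have h1 := N_ge k
    have h2 := L_pos k
    rw [L_succ]
    calc k + 1 ≤ L k + L k := by omega
      _ = 2 * L k := by ring
      _ ≤ N k * L k := Nat.mul_le_mul_right _ (by omega)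

lemma inv_card_le (h : S_card) (k : ℕ) :
    1 / ((C k).card : ℝ) ≤ Real.exp (-(Real.log 2 / 8 * (6 * L k : ℕ))) := by
  have h1 : ((2 : ℝ) ^ (3 * L k)) ≤ ((C k).card : ℝ) ^ 4 := by
    have := h.1 k
    exact_mod_cast this
  have hpos : 0 < ((C k).card : ℝ) := by
    by_contra hcon
    have h0 : ((C k).card : ℝ) = 0 := le_antisymm (not_lt.mp hcon) (Nat.cast_nonneg _)
    rw [h0] at h1
    have : (0 : ℝ) < 2 ^ (3 * L k) := by positivity
    norm_num at h1
    linarith
  have hlog : (3 * L k : ℝ) * Real.log 2 ≤ 4 * Real.log (C k).card := by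
    have h2 := Real.log_le_log (by positivity) h1
    rw [Real.log_pow, Real.log_pow] at h2
    push_cast at h2
    linarith
  rw [one_div, ← Real.exp_log hpos, ← Real.exp_neg]
  apply Real.exp_le_exp.mpr
  push_cast
  linarith

/-- The main theorem from the statements of the jobs. -/
theorem main_of (h1 : S_sig) (h6 : S_dec) (h7 : S_joint) (h8 : S_unif) (h9 : S_ud) (h10 : S_gen)
    (h11 : S_card) (h13 : S_freq) (h14 : S_small) (h18 : S_sys) :
    ∃ q : ℕ → ℕ, NonDet q ∧ (∃ M, Bd q M) ∧ ∀ d x, IsExp q d x → Normal q d →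
      UNormal q d ∧ UD (fun n => Int.fract (P q n * x)) := by
  obtain ⟨b, hb, hg⟩ := h10
  have hB := bd_q h1 b
  have hF := h13 b hb hg
  have hD := h6 b hb
  refine ⟨q b, ?_, ⟨_, hB⟩, ?_⟩
  · apply h18 (q b) (2 ^ 90) (Real.log 2 / 8) hB hF (by have := Real.log_pos one_lt_two; positivity)
    rw [Filter.frequently_atTop]
    intro n
    refine ⟨6 * L n, by have := le_L n; omega, ?_⟩
    intro B x hx
    exact (h14 b hb hg n B x hx).trans (inv_card_le h11 n)
  · intro d x hx hn
    have hJ := h7 (q b) (2 ^ 90) d hB hF hD hx.1 hn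
    exact ⟨h8 (q b) (2 ^ 90) d hB hF hx.1 hJ, h9 (q b) (2 ^ 90) d x hB hF hx hJ⟩

end Pool.Agent.Q87.BS
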