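import Pool.Agent.Q87.BS.Defs

set_option autoImplicit false

/-! # Project BS: structure marks -/

namespace Pool.Agent.Q87.BS

lemma sig_zero (k : ℕ) : sig k 0 = 0 := by
  rw [sig]; simp

lemma sig_of (k j : ℕ) (h : j % N k = 0 ∨ j % N k = 4) : sig k j = sig (k + 1) (j / N k) := by
  by_cases h0 : j = 0
  · subst h0
    rw [Nat.zero_div, sig_zero, sig_zero]
  · conv_lhs => rw [sig]
    rw [dif_neg h0, if_pos h]

lemma sig_not (k j : ℕ) (h : ¬ (j % N k = 0 ∨ j % N k = 4)) : sig k j = pat (j % N k) := by
  have h0 : j ≠ 0 := by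
    rintro rfl
    exact h (Or.inl (Nat.zero_mod _))
  rw [sig, dif_neg h0, if_neg h]

lemma pat_le (t : ℕ) : pat t ≤ 3 := by
  unfold pat; split_ifs <;> omega

lemma sig_le : ∀ k j, sig k j ≤ 3 := by
  intro k j
  induction j using Nat.strong_induction_on generalizing k with
  | _ j ih =>
    by_cases h0 : j = 0
    · subst h0; rw [sig_zero]; omega
    · by_cases h : j % N k = 0 ∨ j % N k = 4
      · rw [sig_of k j h]
        exact ih _ (Nat.div_lt_self (Nat.pos_of_ne_zero h0) (by have := N_ge k; omega)) _
      · rw [sig_not k j h]; exact pat_le _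

lemma L_dvd {i k : ℕ} (h : i ≤ k) : L i ∣ L k := by
  induction k, h using Nat.le_induction with
  | base => exact dvd_refl _
  | succ k _ ih => rw [L_succ]; exact Dvd.dvd.mul_left ih _

/-- Lower digits do not depend on the higher part. -/
lemma digit_add {i k : ℕ} (h : i < k) (t r : ℕ) :
    ((t * L k + r) / L i) % N i = (r / L i) % N i := by
  obtain ⟨s, hs⟩ := L_dvd (show i + 1 ≤ k by omega)
  rw [hs, L_succ]
  have hL := L_pos i
  rw [show t * (N i * L i * s) + r = r + L i * (t * s * N i) by ring,
    Nat.add_mul_div_left _ _ hL, Nat.add_mul_mod_self_right]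

lemma star_succ (k r' t : ℕ) (hr : r' < L k) :
    Star (k + 1) (t * L k + r') ↔ Star k r' ∧ (t % N k = 0 ∨ t % N k = 4) := by
  have hL := L_pos k
  have hk : (t * L k + r') / L k = t := by
    rw [Nat.mul_comm, Nat.mul_add_div hL, Nat.div_eq_of_lt hr, add_zero]
  constructor
  · intro h
    refine ⟨fun i hi => ?_, ?_⟩
    · have := h i (by omega)
      rw [digit_add hi] at this
      exact this
    · have := h k (by omega)
      rw [hk] at this
      exact this
  · rintro ⟨h1, h2⟩ i hi
    rcases Nat.lt_succ_iff_lt_or_eq.mp hi with h | h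
    · rw [digit_add h]; exact h1 i h
    · subst h; rw [hk]; exact h2

lemma sig_star : ∀ k j r, r < L k → Star k r → sig 0 (j * L k + r) = sig k j := by
  intro k
  induction k with
  | zero =>
    intro j r hr _
    have hL : L 0 = 1 := rfl
    rw [hL] at hr ⊢
    rw [show j * 1 + r = j by omega]
  | succ k ih =>
    intro j r hr hS
    have hL := L_pos k
    have hN := N_ge k
    set t := r / L k with ht
    set r' := r % L k with hr'
    have hr'L : r' < L k := Nat.mod_lt _ hL
    have hrt : r = t * L k + r' := by rw [Nat.mul_comm]; exact (Nat.div_add_mod _ _).symm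
    have htN : t < N k := by
      rw [L_succ] at hr
      exact Nat.div_lt_of_lt_mul (by rw [Nat.mul_comm]; exact hr)
    rw [hrt, star_succ k r' t hr'L, Nat.mod_eq_of_lt htN] at hS
    rw [hrt, L_succ, show j * (N k * L k) + (t * L k + r') = (j * N k + t) * L k + r' by ring,
      ih _ _ hr'L hS.1]
    have hm : (j * N k + t) % N k = t := by
      rw [Nat.mul_comm, Nat.mul_add_mod, Nat.mod_eq_of_lt htN]
    have hd : (j * N k + t) / N k = j := by
      rw [Nat.mul_comm, Nat.mul_add_div (by omega), Nat.div_eq_of_lt htN, add_zero]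
    rw [sig_of k _ (by rw [hm]; exact hS.2), hd]

lemma sig_nonstar : ∀ k j r, r < L k → ¬ Star k r → sig 0 (j * L k + r) = sig 0 r := by
  intro k
  induction k with
  | zero =>
    intro j r hr hS
    exact absurd (fun i hi => absurd hi (Nat.not_lt_zero i)) hS
  | succ k ih =>
    intro j r hr hS
    have hL := L_pos k
    have hN := N_ge k
    set t := r / L k with ht
    set r' := r % L k with hr'
    have hr'L : r' < L k := Nat.mod_lt _ hL
    have hrt : r = t * L k + r' := by rw [Nat.mul_comm]; exact (Nat.div_add_mod _ _).symm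
    have htN : t < N k := by
      rw [L_succ] at hr
      exact Nat.div_lt_of_lt_mul (by rw [Nat.mul_comm]; exact hr)
    rw [hrt, star_succ k r' t hr'L, Nat.mod_eq_of_lt htN] at hS
    rw [hrt, L_succ, show j * (N k * L k) + (t * L k + r') = (j * N k + t) * L k + r' by ring]
    by_cases hS' : Star k r'
    · have h04 : ¬ (t = 0 ∨ t = 4) := fun h => hS ⟨hS', h⟩
      rw [sig_star k _ _ hr'L hS', sig_star k _ _ hr'L hS']
      have hm : (j * N k + t) % N k = t := by
        rw [Nat.mul_comm, Nat.mul_add_mod, Nat.mod_eq_of_lt htN]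
      rw [sig_not k (j * N k + t) (by rw [hm]; exact h04), hm,
        sig_not k t (by rw [Nat.mod_eq_of_lt htN]; exact h04), Nat.mod_eq_of_lt htN]
    · rw [ih _ _ hr'L hS', ih _ _ hr'L hS']

theorem sig_all : S_sig := ⟨sig_le, sig_of, sig_not, sig_star, sig_nonstar⟩

end Pool.Agent.Q87.BS
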